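import Pool.Agent.CFB.St

/-!
# Module bad: few primes `p ≡ 1 mod l` have a large prime factor of `p - 1`
-/

set_option autoImplicit false

namespace Pool.Agent.CFB

open Finset Filter

/-- two solutions of `u r ≡ -1` are congruent -/
private theorem bad_r0 (m u : ℕ) : ∃ r₀ : ℕ, ∀ r : ℕ, m ∣ u * r + 1 → r % m = r₀ := by
  by_cases h : ∃ r₁, m ∣ u * r₁ + 1
  · obtain ⟨r₁, h1⟩ := h
    refine ⟨r₁ % m, fun r hr => ?_⟩
    have h1' : (m : ℤ) ∣ (u : ℤ) * r₁ + 1 := by exact_mod_cast h1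
    have hr' : (m : ℤ) ∣ (u : ℤ) * r + 1 := by exact_mod_cast hr
    have h2 : (m : ℤ) ∣ (r₁ : ℤ) - r := by
      have := dvd_sub (dvd_mul_of_dvd_right hr' (r₁ : ℤ)) (dvd_mul_of_dvd_right h1' (r : ℤ))
      have e : (r₁ : ℤ) * (u * r + 1) - r * (u * r₁ + 1) = r₁ - r := by ring
      rwa [e] at this
    have h3 : (r : ℤ) ≡ r₁ [ZMOD m] := Int.modEq_iff_dvd.2 h2
    exact (Int.natCast_modEq_iff.1 h3)
  · exact ⟨0, fun r hr => (h ⟨r, hr⟩).elim⟩

/-- the decomposition of `p - 1` -/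
private theorem bad_dec {a N l p : ℕ} {δ : ℝ} (ha : 1 ≤ a) (hN : 1 ≤ N) (hlp : l.Prime) (hl4 : 4 < l)
    (hl1 : (N : ℝ) ^ (1 / 2 - 2 * δ) < l) (hl2 : (l : ℝ) ≤ (N : ℝ) ^ (1 / 2 - δ))
    (hp : p ∈ BB a δ N l) : ∃ r j K : ℕ, r.Prime ∧ p.Prime ∧ p ≤ N ∧ p = 2 * (l * j) * r + 1 ∧
      l * j * r + 1 = 2 * a * K ∧ 1 ≤ j ∧ j ≤ ⌊(N : ℝ) ^ (3 * δ)⌋₊ := by
  classical
  simp only [BB, TT, mem_filter, mem_range] at hp
  obtain ⟨⟨hpN, hpp, hp4, hpl⟩, r, hr, hrN, hrd⟩ := hp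
  have hlr : (l : ℝ) < r := lt_of_le_of_lt hl2 hrN
  have hlr' : l < r := by exact_mod_cast hlr
  have h2p := hpp.two_le
  have hld : l ∣ p - 1 := by
    have h1 := Nat.div_add_mod p l
    rw [hpl] at h1
    exact ⟨p / l, by omega⟩
  have hcop : Nat.Coprime l r := (Nat.coprime_primes hlp hr).2 hlr'.ne
  obtain ⟨i, hi⟩ := hcop.mul_dvd_of_dvd_of_dvd hld hrd
  have hlo : Odd l := hlp.odd_of_ne_two (by omega)
  have hro : Odd r := hr.odd_of_ne_two (by omega)
  -- `4 a ∣ p + 1`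
  obtain ⟨K, hK⟩ : ∃ K, p + 1 = 4 * a * K := by
    have h1 := Nat.div_add_mod p (4 * a)
    rw [hp4] at h1
    refine ⟨p / (4 * a) + 1, ?_⟩
    rw [Nat.mul_add, mul_one]
    omega
  have hlro : Odd (l * r) := hlo.mul hro
  have hie : Even i := by
    have h1 : Even (p - 1) := by
      have h2 : Even (p + 1) := ⟨2 * a * K, by rw [hK]; ring⟩
      have h3 : p + 1 = (p - 1) + 2 := by omega
      rw [h3] at h2
      rwa [Nat.even_add, iff_true_right even_two] at h2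
    rw [hi, Nat.even_mul] at h1
    rcases h1 with h1 | h1
    · exact absurd h1 (Nat.not_even_iff_odd.2 hlro)
    · exact h1
  obtain ⟨j, hj⟩ := hie
  have hi2 : i = 2 * j := by omega
  subst hi2
  have hpe : p = 2 * (l * j) * r + 1 := by
    have : l * r * (2 * j) = 2 * (l * j) * r := by ring
    omega
  have hj1 : 1 ≤ j := by
    rcases Nat.eq_zero_or_pos j with h | h
    · subst h; simp at hpe; omega
    · exact h
  refine ⟨r, j, K, hr, hpp, by omega, hpe, ?_, hj1, ?_⟩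
  · have h1 : 2 * (l * j) * r = 2 * (l * j * r) := by ring
    have h2 : 4 * a * K = 2 * (2 * a * K) := by ring
    omega
  · have hNr : (1 : ℝ) ≤ N := by exact_mod_cast hN
    have hN0 : (0 : ℝ) < N := by linarith
    apply Nat.le_floor
    have h1 : (2 * (l * j) * r : ℝ) ≤ N := by
      have : 2 * (l * j) * r ≤ N := by omega
      exact_mod_cast this
    have hjr : (1 : ℝ) ≤ j := by exact_mod_cast hj1
    have h2 : (N : ℝ) ^ (1 / 2 - 2 * δ) * (N : ℝ) ^ (1 / 2 - δ) ≤ l * r := by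
      have := Real.rpow_nonneg hN0.le (1 / 2 - 2 * δ)
      have := Real.rpow_nonneg hN0.le (1 / 2 - δ)
      gcongr
    rw [← Real.rpow_add hN0] at h2
    have e : (1 / 2 - 2 * δ) + (1 / 2 - δ) = 1 - 3 * δ := by ring
    rw [e] at h2
    have h3 : (j : ℝ) * (N : ℝ) ^ (1 - 3 * δ) ≤ N := by
      have : (j : ℝ) * (N : ℝ) ^ (1 - 3 * δ) ≤ j * (l * r) := by gcongr
      have h4 : (0 : ℝ) ≤ j * (l * r) := by positivity
      nlinarith
    have h4 : (N : ℝ) = (N : ℝ) ^ (3 * δ) * (N : ℝ) ^ (1 - 3 * δ) := by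
      rw [← Real.rpow_add hN0]
      have : 3 * δ + (1 - 3 * δ) = 1 := by ring
      rw [this, Real.rpow_one]
    have h5 : 0 < (N : ℝ) ^ (1 - 3 * δ) := Real.rpow_pos_of_pos hN0 _
    nth_rewrite 2 [h4] at h3
    exact le_of_mul_le_mul_right h3 h5

/-- the count as a sum over the cofactor -/
private theorem bad_card {a N l : ℕ} {δ : ℝ} (ha : 1 ≤ a) (hN : 1 ≤ N) (hlp : l.Prime) (hl4 : 4 < l)
    (hl1 : (N : ℝ) ^ (1 / 2 - 2 * δ) < l) (hl2 : (l : ℝ) ≤ (N : ℝ) ^ (1 / 2 - δ)) :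
    ∃ r₀ : ℕ → ℕ, (BB a δ N l).card ≤
      ∑ j ∈ (Icc 1 ⌊(N : ℝ) ^ (3 * δ)⌋₊).filter (fun j => j.Coprime (2 * a)),
        ((range (N / (4 * a * (l * j)) + 1)).filter fun t => (r₀ j + 2 * a * t).Prime ∧
          (2 * (l * j) * (r₀ j + 2 * a * t) + 1).Prime).card := by
  classical
  choose r₀ hr₀ using fun j : ℕ => bad_r0 (2 * a) (l * j)
  refine ⟨r₀, ?_⟩
  set S := (Icc 1 ⌊(N : ℝ) ^ (3 * δ)⌋₊).filter (fun j => j.Coprime (2 * a)) with hS
  set F : ℕ → Finset ℕ := fun j => (range (N / (4 * a * (l * j)) + 1)).filter fun t =>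
    (r₀ j + 2 * a * t).Prime ∧ (2 * (l * j) * (r₀ j + 2 * a * t) + 1).Prime with hF
  have hsub : BB a δ N l ⊆ S.biUnion fun j => (F j).image fun t =>
      2 * (l * j) * (r₀ j + 2 * a * t) + 1 := by
    intro p hp
    obtain ⟨r, j, K, hr, hpp, hpN, hpe, hK, hj1, hj2⟩ := bad_dec ha hN hlp hl4 hl1 hl2 hp
    have hre : r₀ j + 2 * a * (r / (2 * a)) = r := by
      rw [← hr₀ j r ⟨K, hK⟩]
      exact Nat.mod_add_div r (2 * a)
    refine mem_biUnion.2 ⟨j, ?_, mem_image.2 ⟨r / (2 * a), ?_, ?_⟩⟩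
    · rw [hS, mem_filter, mem_Icc]
      refine ⟨⟨hj1, hj2⟩, ?_⟩
      rw [← Nat.isCoprime_iff_coprime]
      refine ⟨-((l : ℤ) * r), K, ?_⟩
      have : ((l * j * r + 1 : ℕ) : ℤ) = ((2 * a * K : ℕ) : ℤ) := by rw [hK]
      push_cast at this ⊢
      linarith
    · rw [hF]
      simp only [mem_filter, mem_range]
      rw [hre, ← hpe]
      refine ⟨?_, hr, hpp⟩
      have hpos : 0 < 4 * a * (l * j) := by
        have := hlp.pos
        positivity
      have h1 : r / (2 * a) ≤ N / (4 * a * (l * j)) := by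
        rw [Nat.le_div_iff_mul_le hpos]
        have h2 : r / (2 * a) * (2 * a) ≤ r := Nat.div_mul_le_self r (2 * a)
        calc r / (2 * a) * (4 * a * (l * j)) = (r / (2 * a) * (2 * a)) * (2 * (l * j)) := by ring
          _ ≤ r * (2 * (l * j)) := Nat.mul_le_mul_right _ h2
          _ = 2 * (l * j) * r := by ring
          _ ≤ N := by omega
      omega
    · rw [hre, ← hpe]
  calc (BB a δ N l).card ≤ _ := card_le_card hsub
    _ ≤ ∑ j ∈ S, ((F j).image fun t => 2 * (l * j) * (r₀ j + 2 * a * t) + 1).card :=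
        card_biUnion_le
    _ ≤ ∑ j ∈ S, (F j).card := sum_le_sum fun j _ => card_image_le

/-- the bound for one cofactor -/
private theorem bad_one {C₁ : ℝ} (hC₁ : 0 < C₁)
    (hs : ∀ m h T r₀ : ℕ, 2 ≤ T → 0 < m → 2 ∣ m → 0 < h →
      (((range T).filter fun t => (r₀ + m * t).Prime ∧ (2 * h * (r₀ + m * t) + 1).Prime).card : ℝ) ≤
      C₁ * ((m : ℝ) / m.totient) ^ 2 * ((h : ℝ) / h.totient) * T / Real.log T ^ 2)
    {a N l j r₀ : ℕ} (ha : 1 ≤ a) (hN : 8 ≤ N) (hlp : l.Prime) (hj : 1 ≤ j)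
    (hb : (4 * a * (l * j) : ℝ) ≤ (N : ℝ) ^ (2 / 3 : ℝ)) :
    (((range (N / (4 * a * (l * j)) + 1)).filter fun t => (r₀ + 2 * a * t).Prime ∧
      (2 * (l * j) * (r₀ + 2 * a * t) + 1).Prime).card : ℝ) ≤
      C₁ * (((2 * a : ℕ) : ℝ) / (2 * a).totient) ^ 2 * (9 * N / (a * l * Real.log N ^ 2)) *
        (1 / (j.totient : ℝ)) := by
  have hNr : (8 : ℝ) ≤ N := by exact_mod_cast hN
  have hN0 : (0 : ℝ) < N := by linarith
  have hN1 : (1 : ℝ) < N := by linarith
  have har : (1 : ℝ) ≤ a := by exact_mod_cast ha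
  have hjr : (1 : ℝ) ≤ j := by exact_mod_cast hj
  have hl2 : 2 ≤ l := hlp.two_le
  have hlr : (2 : ℝ) ≤ l := by exact_mod_cast hl2
  set D : ℕ := 4 * a * (l * j) with hD
  have hDr : (D : ℝ) = 4 * a * (l * j) := by rw [hD]; push_cast; ring
  have hD0 : (0 : ℝ) < D := by rw [hDr]; positivity
  have hD0' : 0 < D := by exact_mod_cast hD0
  rw [← hDr] at hb
  have hlogN : 0 < Real.log N := Real.log_pos hN1
  -- `N ^ (1/3) ≤ N / D`
  have h13 : (N : ℝ) ^ (1 / 3 : ℝ) ≤ N / D := by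
    rw [le_div_iff₀ hD0]
    calc (N : ℝ) ^ (1 / 3 : ℝ) * D ≤ (N : ℝ) ^ (1 / 3 : ℝ) * (N : ℝ) ^ (2 / 3 : ℝ) := by gcongr
      _ = N := by
        rw [← Real.rpow_add hN0]
        norm_num
  have h1le : (1 : ℝ) ≤ (N : ℝ) ^ (1 / 3 : ℝ) := Real.one_le_rpow hN1.le (by norm_num)
  have hNd : (1 : ℝ) ≤ N / D := h1le.trans h13
  have hDN : D ≤ N := by
    rw [le_div_iff₀ hD0, one_mul] at hNd
    exact_mod_cast hNd
  set T : ℕ := N / D + 1 with hT
  have hT2 : 2 ≤ T := by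
    have : 0 < N / D := Nat.div_pos hDN hD0'
    omega
  have hTle : (T : ℝ) ≤ N / (2 * a * (l * j)) := by
    have h1 : ((N / D : ℕ) : ℝ) ≤ (N : ℝ) / D := Nat.cast_div_le
    have h2 : (T : ℝ) ≤ 2 * (N / D) := by
      rw [hT]; push_cast
      linarith
    refine h2.trans (le_of_eq ?_)
    rw [hDr]
    field_simp
    ring
  have hTge : (N : ℝ) ^ (1 / 3 : ℝ) ≤ T := by
    refine h13.trans ?_
    have h1 : (N : ℝ) / D < (⌊(N : ℝ) / D⌋₊ : ℝ) + 1 := Nat.lt_floor_add_one _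
    rw [Nat.floor_div_natCast, Nat.floor_natCast] at h1
    rw [hT]; push_cast
    exact h1.le
  have hlogT : Real.log N / 3 ≤ Real.log T := by
    have h1 : Real.log ((N : ℝ) ^ (1 / 3 : ℝ)) ≤ Real.log T :=
      Real.log_le_log (by positivity) hTge
    rw [Real.log_rpow hN0] at h1
    linarith
  have hh : 0 < l * j := Nat.mul_pos hlp.pos hj
  have h := hs (2 * a) (l * j) T r₀ hT2 (by omega) ⟨a, rfl⟩ hh
  have hphi : (0 : ℝ) < (2 * a).totient := by
    have : 0 < (2 * a).totient := Nat.totient_pos.2 (by omega)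
    exact_mod_cast this
  have hphj : (0 : ℝ) < j.totient := by
    have : 0 < j.totient := Nat.totient_pos.2 hj
    exact_mod_cast this
  have hphh : (0 : ℝ) < (l * j).totient := by
    have : 0 < (l * j).totient := Nat.totient_pos.2 hh
    exact_mod_cast this
  have hrat : ((l * j : ℕ) : ℝ) / (l * j).totient ≤ 2 * j / j.totient := by
    have h1 : l.totient * j.totient ≤ (l * j).totient := Nat.totient_super_multiplicative l j
    have h2 : ((l : ℝ) / 2) * j.totient ≤ (l * j).totient := by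
      have h3 : (l.totient : ℝ) = l - 1 := by
        rw [Nat.totient_prime hlp, Nat.cast_sub (by omega)]; simp
      have h4 : (l : ℝ) / 2 ≤ l.totient := by rw [h3]; linarith
      calc ((l : ℝ) / 2) * j.totient ≤ l.totient * j.totient := by gcongr
        _ ≤ (l * j).totient := by exact_mod_cast h1
    rw [div_le_div_iff₀ hphh hphj]
    push_cast
    calc (l : ℝ) * j * j.totient = 2 * j * (((l : ℝ) / 2) * j.totient) := by ring
      _ ≤ 2 * j * (l * j).totient := by gcongr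
  refine h.trans ?_
  calc C₁ * (((2 * a : ℕ) : ℝ) / (2 * a).totient) ^ 2 * (((l * j : ℕ) : ℝ) / (l * j).totient) * T /
        Real.log T ^ 2
      ≤ C₁ * (((2 * a : ℕ) : ℝ) / (2 * a).totient) ^ 2 * (2 * j / j.totient) *
        (N / (2 * a * (l * j))) / (Real.log N / 3) ^ 2 := by
        gcongr
    _ = _ := by
        field_simp
        ring

theorem thm_bad (h1 : St_siv) (h2 : St_phi) : St_bad := by
  obtain ⟨C₁, hC₁, hs⟩ := h1
  obtain ⟨C₂, hC₂, hphi⟩ := h2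
  refine ⟨144 * C₁ * C₂, by positivity, fun δ hδ hδ1 a ha => ?_⟩
  have hφ : (0 : ℝ) < (2 * a).totient := by
    have : 0 < (2 * a).totient := Nat.totient_pos.2 (by omega)
    exact_mod_cast this
  have har : (1 : ℝ) ≤ a := by exact_mod_cast ha
  have htend : ∀ e : ℝ, 0 < e → ∀ M : ℝ, ∀ᶠ N : ℕ in atTop, M ≤ (N : ℝ) ^ e := fun e he M =>
    ((tendsto_rpow_atTop he).comp tendsto_natCast_atTop_atTop).eventually_ge_atTop M
  have hlog : ∀ M : ℝ, ∀ᶠ N : ℕ in atTop, M ≤ Real.log N := fun M =>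
    (Real.tendsto_log_atTop.comp tendsto_natCast_atTop_atTop).eventually_ge_atTop M
  set c : ℝ := ((2 * a).totient : ℝ) / ((2 * a : ℕ) : ℝ) with hc
  have hc0 : 0 < c := by rw [hc]; positivity
  filter_upwards [htend (1 / 2 - 2 * δ) (by linarith) 4, htend (1 / 6 - 2 * δ) (by linarith) (4 * a),
    hlog ((((2 * a : ℕ) : ℝ) + c) / (c * δ)), eventually_ge_atTop 8] with N e1 e2 e3 e4 l hl
  rw [LL, mem_filter, mem_range] at hl
  obtain ⟨hlN, hlp, hl1, hl2⟩ := hl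
  have hNr : (8 : ℝ) ≤ N := by exact_mod_cast e4
  have hN0 : (0 : ℝ) < N := by linarith
  have hN1 : (1 : ℝ) < N := by linarith
  have hlogN : 0 < Real.log N := Real.log_pos hN1
  have hl4 : 4 < l := by
    have : (4 : ℝ) < l := lt_of_le_of_lt e1 hl1
    exact_mod_cast this
  have hl0 : (0 : ℝ) < l := by
    have := hlp.pos
    exact_mod_cast this
  obtain ⟨r₀, hr₀⟩ := bad_card ha (by omega) hlp hl4 hl1 hl2
  set J := ⌊(N : ℝ) ^ (3 * δ)⌋₊ with hJ
  have hJle : (J : ℝ) ≤ (N : ℝ) ^ (3 * δ) := Nat.floor_le (by positivity)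
  have hJ1 : 1 ≤ J := Nat.le_floor (by
    have := Real.one_le_rpow hN1.le (by positivity : 0 ≤ 3 * δ)
    simpa using this)
  have hlogJ : Real.log J ≤ 3 * δ * Real.log N := by
    have h1 : Real.log J ≤ Real.log ((N : ℝ) ^ (3 * δ)) :=
      Real.log_le_log (by exact_mod_cast hJ1) hJle
    rwa [Real.log_rpow hN0] at h1
  have hb : ∀ j : ℕ, j ≤ J → (4 * a * (l * j) : ℝ) ≤ (N : ℝ) ^ (2 / 3 : ℝ) := by
    intro j hj
    have hjr : (j : ℝ) ≤ (N : ℝ) ^ (3 * δ) := le_trans (by exact_mod_cast hj) hJle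
    calc (4 * a * (l * j) : ℝ)
        ≤ (N : ℝ) ^ (1 / 6 - 2 * δ) * ((N : ℝ) ^ (1 / 2 - δ) * (N : ℝ) ^ (3 * δ)) := by gcongr
      _ = (N : ℝ) ^ (2 / 3 : ℝ) := by
        rw [← Real.rpow_add hN0, ← Real.rpow_add hN0]
        congr 1
        ring
  set A : ℝ := C₁ * (((2 * a : ℕ) : ℝ) / (2 * a).totient) ^ 2 *
    (9 * N / (a * l * Real.log N ^ 2)) with hA
  have hA0 : 0 ≤ A := by rw [hA]; positivity
  have hbr : ((2 * a : ℕ) : ℝ) + c * (1 + Real.log J) ≤ 4 * δ * c * Real.log N := by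
    have h1 : ((2 * a : ℕ) : ℝ) + c ≤ Real.log N * (c * δ) := by
      rwa [div_le_iff₀ (by positivity)] at e3
    have h2 : c * Real.log J ≤ c * (3 * δ * Real.log N) := by gcongr
    nlinarith
  calc ((BB a δ N l).card : ℝ)
      ≤ ∑ j ∈ (Icc 1 J).filter (fun j => j.Coprime (2 * a)),
        (((range (N / (4 * a * (l * j)) + 1)).filter fun t => (r₀ j + 2 * a * t).Prime ∧
          (2 * (l * j) * (r₀ j + 2 * a * t) + 1).Prime).card : ℝ) := by exact_mod_cast hr₀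
    _ ≤ ∑ j ∈ (Icc 1 J).filter (fun j => j.Coprime (2 * a)), A * (1 / (j.totient : ℝ)) := by
        refine sum_le_sum fun j hj => ?_
        rw [mem_filter, mem_Icc] at hj
        exact bad_one hC₁ hs ha e4 hlp hj.1.1 (hb j hj.1.2)
    _ = A * ∑ j ∈ (Icc 1 J).filter (fun j => j.Coprime (2 * a)), 1 / (j.totient : ℝ) := by
        rw [mul_sum]
    _ ≤ A * (C₂ * (4 * δ * c * Real.log N)) := by
        refine mul_le_mul_of_nonneg_left ((hphi (2 * a) J (by omega) hJ1).trans ?_) hA0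
        exact mul_le_mul_of_nonneg_left hbr hC₂.le
    _ = 144 * C₁ * C₂ * δ * N / ((4 * a).totient * l * Real.log N) := by
        have h4 : ((4 * a).totient : ℝ) = 2 * (2 * a).totient := by
          have : (4 * a).totient = 2 * (2 * a).totient := by
            have e : 4 * a = 2 * (2 * a) := by ring
            rw [e, Nat.totient_mul_of_prime_of_dvd Nat.prime_two ⟨a, rfl⟩]
          exact_mod_cast this
        rw [h4, hA, hc]
        push_cast
        field_simp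
        ring

end Pool.Agent.CFB
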