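import Pool.Agent.CFB.St
import Pool.Agent.Cohn2.Local

/-!
# Many residues modulo `p^2` are obstructed
-/

set_option autoImplicit false

namespace Pool.Agent.CFB

open Finset
open Pool.Agent.Cohn2 (fq)

section prime

variable {p : ℕ} [hp : Fact p.Prime]

private lemma cnt_H (hp3 : p % 4 = 3) :
    2 * ((univ.filter (fun x : ZMod p => quadraticChar (ZMod p) x = 1)).card : ℤ) = p - 1 := by
  rw [← Cohn2.card_qr hp3]
  congr 1
  have h1 : ∑ j ∈ range p, (if jacobiSym (j : ℤ) p = 1 then (1 : ℤ) else 0) =
      ∑ x : ZMod p, (if quadraticChar (ZMod p) x = 1 then (1 : ℤ) else 0) := by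
    rw [← Cohn2.sum_range_zmod p
      fun x : ZMod p => if quadraticChar (ZMod p) x = 1 then (1 : ℤ) else 0]
    refine sum_congr rfl fun j _ => ?_
    rw [Cohn2.jac_eq]
    push_cast
    rfl
  rw [h1, Finset.sum_boole]

private lemma cnt_N (hp3 : p % 4 = 3) :
    (univ.filter (fun x : ZMod p => quadraticChar (ZMod p) x = -1)).card =
      (univ.filter (fun x : ZMod p => quadraticChar (ZMod p) x = 1)).card := by
  have hneg : ∀ x : ZMod p, quadraticChar (ZMod p) (-x) = - quadraticChar (ZMod p) x := by
    intro x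
    rw [← neg_one_mul, map_mul, Cohn2.chi_neg_one hp3, neg_one_mul]
  refine Finset.card_nbij' (fun x => -x) (fun x => -x) ?_ ?_ ?_ ?_
  · intro x hx
    simp only [coe_filter, mem_univ, true_and, Set.mem_ofPred_eq] at hx ⊢
    rw [hneg, hx, neg_neg]
  · intro x hx
    simp only [coe_filter, mem_univ, true_and, Set.mem_ofPred_eq] at hx ⊢
    rw [hneg, hx]
  · intro x _
    exact neg_neg x
  · intro x _
    exact neg_neg x

/-- at least `(p - 1) / 2` residues have a character different from `0` and `e` -/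
private lemma cnt_B (hp3 : p % 4 = 3) (e : ℤ) : (p : ℤ) - 1 ≤
    2 * ((univ.filter (fun x : ZMod p => quadraticChar (ZMod p) x ≠ 0 ∧
      quadraticChar (ZMod p) x ≠ e)).card : ℤ) := by
  rw [← cnt_H hp3]
  have h0 : (univ.filter (fun x : ZMod p => quadraticChar (ZMod p) x = 1)).card ≤
      (univ.filter (fun x : ZMod p => quadraticChar (ZMod p) x ≠ 0 ∧
        quadraticChar (ZMod p) x ≠ e)).card := by
    by_cases he : e = 1
    · rw [← cnt_N hp3]
      refine Finset.card_le_card ?_
      intro x hx
      simp only [mem_filter, mem_univ, true_and] at hx ⊢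
      rw [hx, he]
      norm_num
    · refine Finset.card_le_card ?_
      intro x hx
      simp only [mem_filter, mem_univ, true_and] at hx ⊢
      rw [hx]
      exact ⟨one_ne_zero, fun h => he h.symm⟩
  have h1 : ((univ.filter (fun x : ZMod p => quadraticChar (ZMod p) x = 1)).card : ℤ) ≤
      ((univ.filter (fun x : ZMod p => quadraticChar (ZMod p) x ≠ 0 ∧
        quadraticChar (ZMod p) x ≠ e)).card : ℤ) := by exact_mod_cast h0
  linarith

/-- the sum of the characters of `x ^ n - 1` over the squares vanishes -/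
private lemma cnt_sum (hp3 : p % 4 = 3) (n : ℕ) :
    ∑ x : ZMod p, (if quadraticChar (ZMod p) x = 1 then quadraticChar (ZMod p) (x ^ n - 1)
      else 0) = 0 := by
  rw [← Cohn2.sum_range_zmod p fun x : ZMod p =>
    if quadraticChar (ZMod p) x = 1 then quadraticChar (ZMod p) (x ^ n - 1) else 0]
  refine Eq.trans ?_ (Cohn2.sum_al hp3 n)
  refine sum_congr rfl fun j _ => ?_
  unfold Cohn2.al
  rw [Cohn2.jac_eq, Cohn2.jac_eq]
  push_cast
  rfl

/-- case 1: the number of squares with a prescribed character of `x ^ n - 1` -/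
private lemma cnt_A (hp3 : p % 4 = 3) (n : ℕ) (a : ZMod p) (ha : quadraticChar (ZMod p) a = 1)
    (han : a ^ n ≠ 1) (e : ℤ) (he : e = 1 ∨ e = -1) : (p : ℤ) - 1 ≤
    8 * ((univ.filter (fun x : ZMod p => quadraticChar (ZMod p) x = 1 ∧
      quadraticChar (ZMod p) (x ^ n - 1) = e)).card : ℤ) := by
  set χ := quadraticChar (ZMod p) with hχ
  set P := univ.filter (fun x : ZMod p => χ x = 1 ∧ χ (x ^ n - 1) = 1) with hP
  set N := univ.filter (fun x : ZMod p => χ x = 1 ∧ χ (x ^ n - 1) = -1) with hN
  set K := univ.filter (fun x : ZMod p => χ x = 1 ∧ x ^ n = 1) with hK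
  have hdich : ∀ x : ZMod p, (if χ x = 1 then (1 : ℤ) else 0) =
      (if χ x = 1 ∧ χ (x ^ n - 1) = 1 then 1 else 0) +
      (if χ x = 1 ∧ χ (x ^ n - 1) = -1 then 1 else 0) +
      (if χ x = 1 ∧ x ^ n = 1 then 1 else 0) := by
    intro x
    by_cases hx : χ x = 1
    · by_cases hn : x ^ n = 1
      · simp [hn, hχ]
      · have h1 : x ^ n - 1 ≠ 0 := sub_ne_zero.2 hn
        rcases quadraticChar_dichotomy h1 with h | h
        · have h' : χ (x ^ n - 1) = 1 := h
          simp [hx, hn, h']
        · have h' : χ (x ^ n - 1) = -1 := h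
          simp [hx, hn, h']
    · simp [hx]
  have hdiff : ∀ x : ZMod p, (if χ x = 1 then χ (x ^ n - 1) else 0) =
      (if χ x = 1 ∧ χ (x ^ n - 1) = 1 then (1 : ℤ) else 0) -
      (if χ x = 1 ∧ χ (x ^ n - 1) = -1 then 1 else 0) := by
    intro x
    by_cases hx : χ x = 1
    · by_cases hn : x ^ n = 1
      · have h1 : χ (x ^ n - 1) = 0 := by rw [hn, sub_self, hχ, quadraticChar_zero]
        rw [if_pos hx, h1]
        norm_num
      · have h1 : x ^ n - 1 ≠ 0 := sub_ne_zero.2 hn
        rcases quadraticChar_dichotomy h1 with h | h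
        · have h' : χ (x ^ n - 1) = 1 := h
          simp [hx, h']
        · have h' : χ (x ^ n - 1) = -1 := h
          simp [hx, h']
    · simp [hx]
  have h1 : (P.card : ℤ) - N.card = 0 := by
    rw [← cnt_sum hp3 n, sum_congr rfl fun x _ => hdiff x, sum_sub_distrib, Finset.sum_boole,
      Finset.sum_boole]
  have h2 : 2 * ((P.card : ℤ) + N.card + K.card) = p - 1 := by
    rw [← cnt_H hp3, ← Finset.sum_boole (s := univ) (fun x : ZMod p => quadraticChar (ZMod p) x = 1),
      sum_congr rfl fun x _ => hdich x, sum_add_distrib, sum_add_distrib, Finset.sum_boole,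
      Finset.sum_boole, Finset.sum_boole]
  have ha0 : a ≠ 0 := by
    rintro rfl
    rw [quadraticChar_zero] at ha
    exact zero_ne_one ha
  have h3 : K.card ≤ P.card + N.card := by
    have hinj : K.card ≤ (P ∪ N).card := by
      refine Finset.card_le_card_of_injOn (fun x => a * x) ?_ ?_
      · intro x hx
        rw [hK, coe_filter] at hx
        have hx1 : χ x = 1 := hx.2.1
        have hx2 : x ^ n = 1 := hx.2.2
        have hx3 : χ (a * x) = 1 := by rw [map_mul, hx1, mul_one]; exact ha
        have hx4 : (a * x) ^ n - 1 ≠ 0 := by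
          rw [mul_pow, hx2, mul_one]
          exact sub_ne_zero.2 han
        rw [mem_coe, mem_union, hP, hN, mem_filter, mem_filter]
        rcases quadraticChar_dichotomy hx4 with h | h
        · exact Or.inl ⟨mem_univ _, hx3, h⟩
        · exact Or.inr ⟨mem_univ _, hx3, h⟩
      · intro x _ y _ hxy
        exact mul_left_cancel₀ ha0 hxy
    exact hinj.trans (card_union_le _ _)
  have h4 : (K.card : ℤ) ≤ P.card + N.card := by exact_mod_cast h3
  rcases he with rfl | rfl
  · show (p : ℤ) - 1 ≤ 8 * (P.card : ℤ)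
    linarith
  · show (p : ℤ) - 1 ≤ 8 * (N.card : ℤ)
    linarith

/-- case 2: the number of squares with `x ^ n = 1` -/
private lemma cnt_K (n : ℕ) (a : ZMod p) (ha : quadraticChar (ZMod p) a = 1) (han : a ^ n = 1) :
    orderOf a ≤ (univ.filter (fun x : ZMod p => quadraticChar (ZMod p) x = 1 ∧ x ^ n = 1)).card := by
  have h1 : (range (orderOf a)).card = orderOf a := card_range _
  rw [← h1]
  refine Finset.card_le_card_of_injOn (fun k => a ^ k) ?_ ?_
  · intro k _
    rw [mem_coe, mem_filter]
    refine ⟨mem_univ _, ?_, ?_⟩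
    · rw [map_pow, ha, one_pow]
    · rw [← pow_mul, mul_comm, pow_mul, han, one_pow]
  · intro k hk l hl h
    rw [coe_range] at hk hl
    exact pow_injOn_Iio_orderOf hk hl h

private lemma cnt_ord (hp3 : p % 4 = 3) (a : ZMod p) (ha : quadraticChar (ZMod p) a = 1) :
    2 * orderOf a ≤ p - 1 := by
  have ha0 : a ≠ 0 := by
    rintro rfl
    rw [quadraticChar_zero] at ha
    exact zero_ne_one ha
  have h1 := quadraticChar_eq_pow_of_char_ne_two' (Cohn2.char_ne hp3) a
  rw [ha, ZMod.card] at h1
  have h2 : a ^ (p / 2) = 1 := by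
    rw [← h1]
    norm_num
  have h3 := Nat.le_of_dvd (by omega) (orderOf_dvd_of_pow_eq_one h2)
  omega

end prime

theorem thm_cnt : St_cnt := by
  intro a c p n hp' hp3 ha hc
  have hp : Fact p.Prime := ⟨hp'⟩
  classical
  have hcast : (((a : ℕ) : ℤ) : ZMod p) = (a : ZMod p) := by push_cast; rfl
  have ha' : quadraticChar (ZMod p) (a : ZMod p) = 1 := by
    rw [← hcast, ← Cohn2.jac_eq]
    exact ha
  have hord := cnt_ord hp3 _ ha'
  have hp2 : 3 ≤ p := by
    have := hp'.two_le
    omega
  have hOB : (OB a c p n).card =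
      ∑ j ∈ range p, ∑ i ∈ range p, if Obs a c p n (p * i + j) then 1 else 0 := by
    unfold OB
    rw [card_filter, Cohn2.sum_range_blocks, sum_comm]
  have hjac : ∀ i j : ℕ, jacobiSym ((p * i + j : ℕ) : ℤ) p = quadraticChar (ZMod p) (j : ZMod p) := by
    intro i j
    rw [Cohn2.jac_block, Cohn2.jac_eq]
    push_cast
    rfl
  have hdvd : ∀ i j : ℕ, (p : ℤ) ∣ ((p * i + j : ℕ) : ℤ) ^ n - 1 ↔ (j : ZMod p) ^ n = 1 := by
    intro i j
    rw [Cohn2.fq_zero_mod, ← ZMod.intCast_zmod_eq_zero_iff_dvd]
    push_cast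
    exact sub_eq_zero
  have hdvda : (p : ℤ) ∣ (a : ℤ) ^ n - 1 ↔ (a : ZMod p) ^ n = 1 := by
    rw [← ZMod.intCast_zmod_eq_zero_iff_dvd]
    push_cast
    exact sub_eq_zero
  by_cases hn : (a : ZMod p) ^ n = 1
  · -- case 2
    set e : ℤ := jacobiSym c p * sg p a with he
    set B := (univ.filter (fun x : ZMod p => quadraticChar (ZMod p) x ≠ 0 ∧
      quadraticChar (ZMod p) x ≠ e)).card with hB
    have hBp := cnt_B hp3 e
    rw [← hB] at hBp
    have hKm := cnt_K n (a : ZMod p) ha' hn
    set K := univ.filter (fun x : ZMod p => quadraticChar (ZMod p) x = 1 ∧ x ^ n = 1) with hK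
    have hlow : K.card * B ≤ (OB a c p n).card := by
      rw [hOB]
      have h1 : K.card * B = ∑ j ∈ range p,
          (if quadraticChar (ZMod p) (j : ZMod p) = 1 ∧ (j : ZMod p) ^ n = 1 then B else 0) := by
        refine Eq.trans ?_ (Cohn2.sum_range_zmod p (fun x : ZMod p =>
          if quadraticChar (ZMod p) x = 1 ∧ x ^ n = 1 then B else 0)).symm
        rw [← sum_filter, sum_const, smul_eq_mul]
      rw [h1]
      refine sum_le_sum fun j _ => ?_
      show (if quadraticChar (ZMod p) (j : ZMod p) = 1 ∧ (j : ZMod p) ^ n = 1 then B else 0) ≤ _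
      split_ifs with hj
      · have hj0 : ((j : ℤ) : ZMod p) ≠ 0 := by
          intro h0
          have h2 : (j : ZMod p) = 0 := by rw [← h0]; push_cast; rfl
          rw [h2, quadraticChar_zero] at hj
          exact zero_ne_one hj.1
        have h2 := Cohn2.sum_fq (p := p) j hj0 (fun x => if quadraticChar (ZMod p) x ≠ 0 ∧
          quadraticChar (ZMod p) x ≠ e then 1 else 0)
        have h3 : (B : ℤ) = ∑ i ∈ range p, (if quadraticChar (ZMod p)
            ((fq p (p * i + j) : ℤ) : ZMod p) ≠ 0 ∧
            quadraticChar (ZMod p) ((fq p (p * i + j) : ℤ) : ZMod p) ≠ e then (1 : ℤ) else 0) := by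
          refine Eq.trans ?_ h2.symm
          rw [hB, Finset.sum_boole]
        have h4 : ((∑ i ∈ range p, if Obs a c p n (p * i + j) then 1 else 0 : ℕ) : ℤ) =
            ∑ i ∈ range p, (if quadraticChar (ZMod p)
            ((fq p (p * i + j) : ℤ) : ZMod p) ≠ 0 ∧
            quadraticChar (ZMod p) ((fq p (p * i + j) : ℤ) : ZMod p) ≠ e then (1 : ℤ) else 0) := by
          push_cast
          refine sum_congr rfl fun i _ => ?_
          refine if_congr ?_ rfl rfl
          unfold Obs
          rw [hjac, hdvd, hdvda, Cohn2.jac_eq (fq p (p * i + j))]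
          simp only [hn, hj.1, hj.2, true_and, not_true_eq_false, false_and, false_or]
          rfl
        have h5 : (B : ℤ) = ((∑ i ∈ range p, if Obs a c p n (p * i + j) then 1 else 0 : ℕ) : ℤ) :=
          h3.trans h4.symm
        exact le_of_eq (by exact_mod_cast h5)
      · exact Nat.zero_le _
    have h6 : p - 1 ≤ 2 * B := by omega
    calc p * orderOf (a : ZMod p) ≤ (3 * (p - 1)) * K.card := by
          refine Nat.mul_le_mul (by omega) hKm
      _ ≤ (3 * (2 * B)) * K.card := by
          refine Nat.mul_le_mul_right _ (Nat.mul_le_mul_left _ h6)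
      _ = 6 * (K.card * B) := by ring
      _ ≤ 6 * (OB a c p n).card := Nat.mul_le_mul_left _ hlow
  · -- case 1
    set e : ℤ := -(jacobiSym c p * jacobiSym ((a : ℤ) ^ n - 1) p) with he
    have hc0 : ((c : ℤ) : ZMod p) ≠ 0 := by
      rw [Ne, ZMod.intCast_zmod_eq_zero_iff_dvd]
      exact_mod_cast hc
    have han0 : (((a : ℤ) ^ n - 1 : ℤ) : ZMod p) ≠ 0 := by
      push_cast
      exact sub_ne_zero.2 hn
    have hee : e = 1 ∨ e = -1 := by
      rw [he, Cohn2.jac_eq, Cohn2.jac_eq]
      rcases quadraticChar_dichotomy hc0 with h | h <;>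
        rcases quadraticChar_dichotomy han0 with h' | h' <;> rw [h, h'] <;> norm_num
    have hA := cnt_A hp3 n (a : ZMod p) ha' hn e hee
    set A := (univ.filter (fun x : ZMod p => quadraticChar (ZMod p) x = 1 ∧
      quadraticChar (ZMod p) (x ^ n - 1) = e)).card with hA'
    have heq : (OB a c p n).card = p * A := by
      rw [hOB]
      have h1 : p * A = ∑ j ∈ range p,
          (if quadraticChar (ZMod p) (j : ZMod p) = 1 ∧
            quadraticChar (ZMod p) ((j : ZMod p) ^ n - 1) = e then p else 0) := by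
        refine Eq.trans ?_ (Cohn2.sum_range_zmod p (fun x : ZMod p =>
          if quadraticChar (ZMod p) x = 1 ∧
            quadraticChar (ZMod p) (x ^ n - 1) = e then p else 0)).symm
        rw [← sum_filter, sum_const, smul_eq_mul, mul_comm]
      rw [h1]
      refine sum_congr rfl fun j _ => ?_
      have h2 : ∀ i ∈ range p, (if Obs a c p n (p * i + j) then 1 else 0) =
          if quadraticChar (ZMod p) (j : ZMod p) = 1 ∧
            quadraticChar (ZMod p) ((j : ZMod p) ^ n - 1) = e then 1 else 0 := by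
        intro i _
        refine if_congr ?_ rfl rfl
        unfold Obs
        have h3 : jacobiSym (((p * i + j : ℕ) : ℤ) ^ n - 1) p =
            quadraticChar (ZMod p) ((j : ZMod p) ^ n - 1) := by
          rw [Cohn2.jac_eq]
          push_cast
          simp
        rw [hjac, h3, hdvda]
        simp only [hn, not_false_eq_true, true_and, false_and, or_false]
        rfl
      rw [sum_congr rfl h2, sum_const, card_range, smul_eq_mul]
      show _ = if quadraticChar (ZMod p) (j : ZMod p) = 1 ∧
            quadraticChar (ZMod p) ((j : ZMod p) ^ n - 1) = e then p else 0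
      split_ifs
      · rw [mul_one]
      · rw [mul_zero]
    rw [heq]
    have h8 : p - 1 ≤ 8 * A := by omega
    calc p * orderOf (a : ZMod p) ≤ p * (6 * A) := Nat.mul_le_mul_left _ (by omega)
      _ = 6 * (p * A) := by ring

end Pool.Agent.CFB
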