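import Mathlib
import Pool.Agent.Cohn2.Defs

/-!
# CFB: Cohn's equation with one base fixed

`a ≥ 2` is fixed.  For all but `X^(1-δ)` integers `b ≤ X` the number `(a^n - 1)(b^n - 1)` is, for all
exponents `n ≥ 1` at once, not of the form `c y^2` with `1 ≤ c ≤ X^δ`.  Here `δ > 0` does not depend on `a`.

This file holds the definitions.
-/

set_option autoImplicit false

namespace Pool.Agent.CFB

open Finset Filter
open Pool.Agent.Cohn2 (fq)

/-- the exponent of `p` in `a^(p-1) - 1` -/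
noncomputable def ex (p a : ℕ) : ℕ := padicValInt p ((a : ℤ) ^ (p - 1) - 1)

/-- the quadratic character of the unit part of `a^(p-1) - 1` if the exponent is odd, otherwise `0` -/
noncomputable def sg (p a : ℕ) : ℤ :=
  if Odd (ex p a) then jacobiSym (((a : ℤ) ^ (p - 1) - 1) / (p : ℤ) ^ ex p a) p else 0

/-- `b` is obstructed at `p` (for the equation `(a^n - 1)(b^n - 1) = c y^2`) -/
def Obs (a c p n b : ℕ) : Prop :=
  jacobiSym b p = 1 ∧
    ((¬ (p : ℤ) ∣ (a : ℤ) ^ n - 1 ∧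
        jacobiSym ((b : ℤ) ^ n - 1) p = - (jacobiSym c p * jacobiSym ((a : ℤ) ^ n - 1) p)) ∨
      ((p : ℤ) ∣ (a : ℤ) ^ n - 1 ∧ (p : ℤ) ∣ (b : ℤ) ^ n - 1 ∧
        jacobiSym (fq p b) p ≠ 0 ∧ jacobiSym (fq p b) p ≠ jacobiSym c p * sg p a))

open Classical in
/-- the obstructed residues modulo `p^2` -/
noncomputable def OB (a c p n : ℕ) : Finset ℕ := (range (p * p)).filter fun b => Obs a c p n b

/-- `b` occurs for the fixed base `a` and the factor `c` -/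
def Sol (a c b : ℕ) : Prop :=
  2 ≤ b ∧ ∃ n : ℕ, 1 ≤ n ∧ ∃ y : ℤ, ((a : ℤ) ^ n - 1) * ((b : ℤ) ^ n - 1) = c * y ^ 2

/-- the primes `l` of medium size -/
noncomputable def LL (δ : ℝ) (N : ℕ) : Finset ℕ :=
  (range (N + 1)).filter fun l => l.Prime ∧ (N : ℝ) ^ (1 / 2 - 2 * δ) < l ∧
    (l : ℝ) ≤ (N : ℝ) ^ (1 / 2 - δ)

/-- the primes `p ≡ -1 mod 4a`, `p ≡ 1 mod l` -/
def TT (a N l : ℕ) : Finset ℕ :=
  (range (N + 1)).filter fun p => p.Prime ∧ p % (4 * a) = 4 * a - 1 ∧ p % l = 1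

open Classical in
/-- those for which `p - 1` has a large prime factor -/
noncomputable def BB (a : ℕ) (δ : ℝ) (N l : ℕ) : Finset ℕ :=
  (TT a N l).filter fun p => ∃ r : ℕ, r.Prime ∧ (N : ℝ) ^ (1 / 2 - δ) < r ∧ r ∣ p - 1

open Classical in
/-- the primes `p ≡ -1 mod 4a` such that `p - 1` has no large prime factor -/
noncomputable def QQ (a : ℕ) (δ : ℝ) (N : ℕ) : Finset ℕ :=
  (range (N + 1)).filter fun p => p.Prime ∧ p % (4 * a) = 4 * a - 1 ∧
    ∀ q : ℕ, q.Prime → q ∣ p - 1 → (q : ℝ) ≤ (N : ℝ) ^ (1 / 2 - δ)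

open Classical in
/-- those for which the order of `a` is large -/
noncomputable def PS (a : ℕ) (δ : ℝ) (N : ℕ) : Finset ℕ :=
  (QQ a δ N).filter fun p => (N : ℝ) ^ (1 / 2 - δ / 2) < (orderOf (a : ZMod p) : ℝ)

end Pool.Agent.CFB
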