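import Pool.Agent.CFB.St

/-!
# CFB, module fin: the choice of the parameters
-/

set_option autoImplicit false

namespace Pool.Agent.CFB

open Finset Filter
open Pool.Agent.Cohn2 (fq)

/-- logarithms against powers -/
theorem fin_log_pow (C : ℝ) (n : ℕ) (s : ℝ) (hs : 0 < s) :
    ∀ᶠ X : ℕ in atTop, C * Real.log X ^ n ≤ (X : ℝ) ^ s := by
  have h := isLittleO_log_rpow_rpow_atTop (n : ℝ) hs
  have h' : ∀ᶠ x : ℝ in atTop, ‖Real.log x ^ (n : ℝ)‖ ≤ 1 / (|C| + 1) * ‖x ^ s‖ :=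
    h.def (by positivity)
  filter_upwards [tendsto_natCast_atTop_atTop.eventually h', eventually_ge_atTop 1] with X hX hX1
  have hX0 : (0 : ℝ) ≤ (X : ℝ) ^ s := by positivity
  rw [Real.rpow_natCast, Real.norm_of_nonneg hX0] at hX
  have h1 : 0 ≤ Real.log X := Real.log_natCast_nonneg X
  rw [Real.norm_of_nonneg (by positivity)] at hX
  have hC : 0 < |C| + 1 := by positivity
  rw [div_mul_eq_mul_div, le_div_iff₀ hC, one_mul] at hX
  have h2 : C * Real.log X ^ n ≤ (|C| + 1) * Real.log X ^ n := by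
    have := le_abs_self C
    gcongr
    linarith
  linarith [mul_comm (Real.log X ^ n) (|C| + 1)]

theorem fin_log_le_small (c ε : ℝ) (hc : 0 < c) (hε : 0 < ε) :
    ∀ᶠ X : ℕ in atTop, c * Real.log (Real.log X) ≤ (Real.log X) ^ ε := by
  have hT : Tendsto (fun X : ℕ => Real.log X) atTop atTop :=
    Real.tendsto_log_atTop.comp tendsto_natCast_atTop_atTop
  have h := (isLittleO_log_rpow_atTop hε).bound (by positivity : (0 : ℝ) < 1 / c)
  filter_upwards [hT.eventually h, hT.eventually_ge_atTop 1] with X h1 h2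
  have h3 : 0 ≤ Real.log (Real.log X) := Real.log_nonneg h2
  rw [Real.norm_of_nonneg h3, Real.norm_of_nonneg (by positivity)] at h1
  rw [one_div, inv_mul_eq_div, le_div_iff₀ hc] at h1
  linarith

/-- the final estimate -/
theorem fin_numeric {X L l N G M δ : ℝ} {k : ℕ} (hX : 1 ≤ X) (hLX : L = Real.log X) (hδ : 0 < δ)
    (hδ' : δ ≤ 1 / 100) (hN0 : 1 ≤ N) (hN1 : Real.log N ≤ 3 * l)
    (hN36 : 36 ≤ N ^ (1 / 2 - δ)) (hM0 : 0 < M) (hM : Real.log M ≤ δ / 1000 * L)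
    (hk1 : k * Real.log N ≤ L / 12) (hk2 : L / 12 ≤ (k + 1) * Real.log N)
    (hG : N ^ (δ / 8) ≤ G) (hL4 : 4 ≤ L) (hl : 2 + 3 / 8 * δ * l ≤ 7 / 1000 * δ * L) :
    X ^ (δ / 1000) * (M * ((X + 1) * (1 / G) ^ k + 2 * (36 * N ^ (5 + δ)) ^ k)) ≤
      X ^ (1 - δ / 1000) := by
  have hX0 : 0 < X := by linarith
  have hN00 : 0 < N := by linarith
  have hXe : X = Real.exp L := by rw [hLX, Real.exp_log hX0]
  have hMe : M ≤ Real.exp (δ / 1000 * L) := by
    rw [← Real.log_le_iff_le_exp hM0]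
    exact hM
  have hX1 : X + 1 ≤ 2 * Real.exp L := by
    rw [← hXe]
    linarith
  have hNp : 0 < N ^ (δ / 8) := by positivity
  have hG0 : 0 < G := by linarith
  have hT1 : (1 / G) ^ k ≤ Real.exp (-(δ / 8) * (L / 12 - 3 * l)) := by
    have h1 : 1 / G ≤ Real.exp (-(δ / 8) * Real.log N) := by
      have h2 : Real.exp (-(δ / 8) * Real.log N) = 1 / N ^ (δ / 8) := by
        rw [neg_mul, Real.exp_neg, Real.rpow_def_of_pos hN00, one_div, mul_comm]
      rw [h2]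
      exact one_div_le_one_div_of_le hNp hG
    calc (1 / G) ^ k ≤ Real.exp (-(δ / 8) * Real.log N) ^ k := pow_le_pow_left₀ (by positivity) h1 k
      _ = Real.exp (k * (-(δ / 8) * Real.log N)) := (Real.exp_nat_mul _ _).symm
      _ ≤ Real.exp (-(δ / 8) * (L / 12 - 3 * l)) := by
          rw [Real.exp_le_exp]
          have h3 : L / 12 - 3 * l ≤ k * Real.log N := by linarith
          nlinarith
  have hT2 : (36 * N ^ (5 + δ)) ^ k ≤ Real.exp (11 / 24 * L) := by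
    have h1 : 36 * N ^ (5 + δ) ≤ Real.exp (11 / 2 * Real.log N) := by
      calc 36 * N ^ (5 + δ) ≤ N ^ (1 / 2 - δ) * N ^ (5 + δ) := by gcongr
        _ = N ^ (11 / 2 : ℝ) := by
            rw [← Real.rpow_add hN00]
            congr 1
            ring
        _ = Real.exp (11 / 2 * Real.log N) := by rw [Real.rpow_def_of_pos hN00, mul_comm]
    calc (36 * N ^ (5 + δ)) ^ k ≤ Real.exp (11 / 2 * Real.log N) ^ k :=
          pow_le_pow_left₀ (by positivity) h1 k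
      _ = Real.exp (k * (11 / 2 * Real.log N)) := (Real.exp_nat_mul _ _).symm
      _ ≤ Real.exp (11 / 24 * L) := by
          rw [Real.exp_le_exp]
          linarith
  have h4 : (4 : ℝ) ≤ Real.exp 2 := by
    have h1 := Real.exp_one_gt_d9
    have h2 : Real.exp 2 = Real.exp 1 ^ (2 : ℕ) := by
      rw [← Real.exp_nat_mul]
      norm_num
    rw [h2]
    nlinarith
  have hXp : ∀ s : ℝ, X ^ s = Real.exp (s * L) := by
    intro s
    rw [hXe, ← Real.exp_mul]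
    ring_nf
  rw [hXp, hXp]
  have hA : Real.exp (δ / 1000 * L) * (M * ((X + 1) * (1 / G) ^ k)) ≤
      1 / 2 * Real.exp ((1 - δ / 1000) * L) := by
    calc Real.exp (δ / 1000 * L) * (M * ((X + 1) * (1 / G) ^ k)) ≤
        Real.exp (δ / 1000 * L) * (Real.exp (δ / 1000 * L) * ((2 * Real.exp L) *
          Real.exp (-(δ / 8) * (L / 12 - 3 * l)))) := by gcongr
      _ = 1 / 2 * (4 * Real.exp (δ / 1000 * L + (δ / 1000 * L + (L +
          -(δ / 8) * (L / 12 - 3 * l))))) := by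
          rw [Real.exp_add, Real.exp_add, Real.exp_add]
          ring
      _ ≤ 1 / 2 * (Real.exp 2 * Real.exp (δ / 1000 * L + (δ / 1000 * L + (L +
          -(δ / 8) * (L / 12 - 3 * l))))) := by gcongr
      _ = 1 / 2 * Real.exp (2 + (δ / 1000 * L + (δ / 1000 * L + (L +
          -(δ / 8) * (L / 12 - 3 * l))))) := by rw [← Real.exp_add]
      _ ≤ 1 / 2 * Real.exp ((1 - δ / 1000) * L) := by
          refine mul_le_mul_of_nonneg_left ?_ (by norm_num)
          rw [Real.exp_le_exp]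
          have h5 : 0 ≤ δ * L := by nlinarith
          nlinarith
  have hB : Real.exp (δ / 1000 * L) * (M * (2 * (36 * N ^ (5 + δ)) ^ k)) ≤
      1 / 2 * Real.exp ((1 - δ / 1000) * L) := by
    calc Real.exp (δ / 1000 * L) * (M * (2 * (36 * N ^ (5 + δ)) ^ k)) ≤
        Real.exp (δ / 1000 * L) * (Real.exp (δ / 1000 * L) * (2 * Real.exp (11 / 24 * L))) := by
          gcongr
      _ = 1 / 2 * (4 * Real.exp (δ / 1000 * L + (δ / 1000 * L + 11 / 24 * L))) := by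
          rw [Real.exp_add, Real.exp_add]
          ring
      _ ≤ 1 / 2 * (Real.exp 2 * Real.exp (δ / 1000 * L + (δ / 1000 * L + 11 / 24 * L))) := by gcongr
      _ = 1 / 2 * Real.exp (2 + (δ / 1000 * L + (δ / 1000 * L + 11 / 24 * L))) := by
          rw [← Real.exp_add]
      _ ≤ 1 / 2 * Real.exp ((1 - δ / 1000) * L) := by
          refine mul_le_mul_of_nonneg_left ?_ (by norm_num)
          rw [Real.exp_le_exp]
          nlinarith
  rw [mul_add, mul_add]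
  linarith

/-- the primes `p ≡ -1 mod 4a` -/
theorem fin_jac {a p : ℕ} (ha : 2 ≤ a) (h : p % (4 * a) = 4 * a - 1) :
    p % 4 = 3 ∧ jacobiSym (a : ℤ) p = 1 := by
  have h4 : p % 4 = 3 := by
    have h1 := Nat.mod_mod_of_dvd p (Dvd.intro a rfl : 4 ∣ 4 * a)
    rw [h] at h1
    omega
  refine ⟨h4, ?_⟩
  have hodd : Odd p := by
    rw [Nat.odd_iff]
    omega
  rw [jacobiSym.mod_right' a hodd, h]
  have h2 : jacobiSym ((4 * a : ℕ) : ℤ) (4 * a - 1) = 1 := by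
    rw [jacobiSym.mod_left]
    have h3 : ((4 * a : ℕ) : ℤ) % ((4 * a - 1 : ℕ) : ℤ) = 1 := by
      have h5 : (((4 * a) % (4 * a - 1) : ℕ) : ℤ) = 1 := by
        have h6 : (4 * a) % (4 * a - 1) = 1 := by
          have h7 : 4 * a = (4 * a - 1) + 1 := by omega
          rw [h7, Nat.add_sub_cancel, Nat.add_mod_left]
          exact Nat.mod_eq_of_lt (by omega)
        rw [h6]
        rfl
      rw [← h5]
      push_cast
      rfl
    rw [h3, jacobiSym.one_left]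
  have h8 : ((4 * a : ℕ) : ℤ) = (2 : ℤ) ^ 2 * (a : ℤ) := by
    push_cast
    ring
  rw [h8, jacobiSym.mul_left, jacobiSym.pow_left] at h2
  have h9 : jacobiSym 2 (4 * a - 1) ^ 2 = 1 := by
    apply jacobiSym.sq_one
    have h10 : Nat.Coprime 2 (4 * a - 1) := by
      rw [Nat.coprime_two_left, Nat.odd_iff]
      omega
    exact_mod_cast h10
  rw [h9, one_mul] at h2
  exact h2

/-- the number of prime factors -/
theorem fin_omega {c : ℕ} (hc : 1 ≤ c) {L δ : ℝ} (hδ : 0 < δ) (hδ' : δ ≤ 1 / 100) (hL : 0 ≤ L)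
    (h : Real.log c ≤ δ / 1000 * L) : (c.primeFactors.card : ℝ) ≤ L := by
  have h1 : 2 ^ c.primeFactors.card ≤ c := by
    calc 2 ^ c.primeFactors.card ≤ ∏ p ∈ c.primeFactors, p :=
          Finset.pow_card_le_prod _ _ _ fun p hp => (Nat.prime_of_mem_primeFactors hp).two_le
      _ ≤ c := Nat.le_of_dvd hc (Nat.prod_primeFactors_dvd c)
  have h2 : Real.log ((2 : ℝ) ^ c.primeFactors.card) ≤ Real.log c := by
    refine Real.log_le_log (by positivity) ?_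
    exact_mod_cast h1
  rw [Real.log_pow] at h2
  have h3 := Real.log_two_gt_d9
  have h4 : (0 : ℝ) ≤ (c.primeFactors.card : ℝ) := by positivity
  nlinarith

open Classical in
/-- one factor `c` -/
theorem fin_one (h2 : St_sol) {a : ℕ} (ha : 2 ≤ a) {δ c₀ L l : ℝ} (hδ : 0 < δ) (hδ' : δ ≤ 1 / 100)
    (hc₀ : 0 < c₀) {X n M : ℕ} (hX : 1 ≤ X) (hL : L = Real.log X) (_hl : l = Real.log L)
    (hL4 : 4 ≤ L) (hn3 : 3 ≤ n) (hn1 : Real.log n ≤ 3 * l) (hLn : L ≤ 2 * (n : ℝ) ^ (1 / 2 - 3 * δ / 4))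
    (hPS : c₀ * n / Real.log n ^ 2 ≤ (PS a δ n).card) (h36 : 36 ≤ (n : ℝ) ^ (1 / 2 - δ))
    (ha3 : 4 / c₀ * Real.log n ^ 2 ≤ (n : ℝ) ^ (1 / 2 : ℝ))
    (ha4 : 4 / c₀ * Real.log n ^ 1 ≤ (n : ℝ) ^ (δ / 8)) (hb2 : 36 * l ≤ L)
    (hb3 : 2 + 3 / 8 * δ * l ≤ 7 / 1000 * δ * L) (hM0 : 0 < M)
    (hM : Real.log M ≤ δ / 1000 * L)
    (hMd : ∀ m : ℕ, 0 < m → m ≤ n → (∀ q : ℕ, q.Prime → q ∣ m → (q : ℝ) ≤ (n : ℝ) ^ (1 / 2 - δ)) → m ∣ M)
    {c : ℕ} (hc1 : 1 ≤ c) (hcX : (c : ℝ) ≤ (X : ℝ) ^ (δ / 1000)) :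
    (X : ℝ) ^ (δ / 1000) * (((range (X + 1)).filter fun b => Sol a c b).card : ℝ) ≤
      (X : ℝ) ^ (1 - δ / 1000) := by
  have hX1 : (1 : ℝ) ≤ X := by exact_mod_cast hX
  have hX0 : (0 : ℝ) < X := by linarith
  have hnR : (3 : ℝ) ≤ n := by exact_mod_cast hn3
  have hn0 : (0 : ℝ) < n := by linarith
  have hn1' : (1 : ℝ) ≤ n := by linarith
  have hlogn : 1 ≤ Real.log n := by
    rw [Real.le_log_iff_exp_le hn0]
    linarith [Real.exp_one_lt_d9]
  have hlogn0 : 0 < Real.log n := by linarith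
  have hL0 : 0 < L := by linarith
  -- the primes
  obtain ⟨P, hP⟩ : ∃ P : Finset ℕ, P = (PS a δ n).filter (fun p => ¬ p ∣ c) := ⟨_, rfl⟩
  have hcl : Real.log c ≤ δ / 1000 * L := by
    have hc0 : (0 : ℝ) < c := by exact_mod_cast hc1
    calc Real.log c ≤ Real.log ((X : ℝ) ^ (δ / 1000)) := Real.log_le_log hc0 hcX
      _ = δ / 1000 * L := by rw [Real.log_rpow hX0, hL]
  have hom := fin_omega hc1 hδ hδ' hL0.le hcl
  have hQmem : ∀ p ∈ PS a δ n, p ≤ n ∧ p.Prime ∧ p % (4 * a) = 4 * a - 1 ∧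
      (∀ q : ℕ, q.Prime → q ∣ p - 1 → (q : ℝ) ≤ (n : ℝ) ^ (1 / 2 - δ)) ∧
      (n : ℝ) ^ (1 / 2 - δ / 2) < (orderOf (a : ZMod p) : ℝ) := by
    intro p hp
    unfold PS QQ at hp
    rw [mem_filter, mem_filter, mem_range] at hp
    exact ⟨by omega, hp.1.2.1, hp.1.2.2.1, hp.1.2.2.2, hp.2⟩
  have hPcard : c₀ / 2 * n / Real.log n ^ 2 ≤ P.card := by
    have e1 : (PS a δ n).card ≤ P.card + c.primeFactors.card := by
      have e2 := Finset.card_filter_add_card_filter_not (s := PS a δ n) (fun p => ¬ p ∣ c)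
      rw [← hP] at e2
      have e3 : ((PS a δ n).filter fun p => ¬ ¬ p ∣ c).card ≤ c.primeFactors.card := by
        refine Finset.card_le_card fun p hp => ?_
        rw [mem_filter, not_not] at hp
        exact Nat.mem_primeFactors.mpr ⟨(hQmem p hp.1).2.1, hp.2, by omega⟩
      omega
    have e1' : ((PS a δ n).card : ℝ) ≤ P.card + c.primeFactors.card := by exact_mod_cast e1
    have e4 : L ≤ c₀ / 2 * n / Real.log n ^ 2 := by
      rw [le_div_iff₀ (by positivity)]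
      have e5 : (n : ℝ) ^ (1 / 2 - 3 * δ / 4) ≤ (n : ℝ) ^ (1 / 2 : ℝ) :=
        Real.rpow_le_rpow_of_exponent_le hn1' (by linarith)
      have e6 : (n : ℝ) ^ (1 / 2 : ℝ) * (n : ℝ) ^ (1 / 2 : ℝ) = n := by
        rw [← Real.rpow_add hn0]
        norm_num
      have e7 : 0 < (n : ℝ) ^ (1 / 2 : ℝ) := by positivity
      calc L * Real.log n ^ 2 ≤ (2 * (n : ℝ) ^ (1 / 2 : ℝ)) * Real.log n ^ 2 := by
            refine mul_le_mul_of_nonneg_right ?_ (by positivity)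
            linarith
        _ = c₀ / 2 * ((n : ℝ) ^ (1 / 2 : ℝ) * (4 / c₀ * Real.log n ^ 2)) := by
            field_simp
            ring
        _ ≤ c₀ / 2 * ((n : ℝ) ^ (1 / 2 : ℝ) * (n : ℝ) ^ (1 / 2 : ℝ)) := by gcongr
        _ = c₀ / 2 * n := by rw [e6]
    have e8 : c₀ * n / Real.log n ^ 2 = c₀ / 2 * n / Real.log n ^ 2 + c₀ / 2 * n / Real.log n ^ 2 := by
      ring
    linarith
  -- the number of groups
  obtain ⟨k, hk⟩ : ∃ k : ℕ, k = ⌊L / 12 / Real.log n⌋₊ := ⟨_, rfl⟩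
  have hku : (k : ℝ) ≤ L / 12 / Real.log n := by
    rw [hk]
    exact Nat.floor_le (by positivity)
  have hkl : L / 12 / Real.log n < k + 1 := by
    rw [hk]
    exact Nat.lt_floor_add_one _
  rw [le_div_iff₀ hlogn0] at hku
  rw [div_lt_iff₀ hlogn0] at hkl
  have hk1' : 0 < k := by
    rw [hk]
    apply Nat.floor_pos.mpr
    rw [le_div_iff₀ hlogn0]
    linarith
  obtain ⟨g, hg⟩ : ∃ g : ℕ, g = P.card / k := ⟨_, rfl⟩
  have hkg : k * g ≤ P.card := by
    rw [hg]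
    exact Nat.mul_div_le _ _
  have hgl : (P.card : ℝ) < k * (g + 1) := by
    have h1 : P.card < k * (g + 1) := by
      rw [hg]
      exact Nat.lt_mul_div_succ _ hk1'
    exact_mod_cast h1
  -- the size of the groups
  have hgg : 6 * (n : ℝ) ^ (1 / 2 + 5 * δ / 8) ≤ g := by
    have e1 : c₀ / 2 * n ≤ (g + 1) * Real.log n * (L / 12) := by
      have e2 : c₀ / 2 * n ≤ P.card * Real.log n ^ 2 := by
        rwa [div_le_iff₀ (by positivity)] at hPcard
      calc c₀ / 2 * n ≤ P.card * Real.log n ^ 2 := e2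
        _ ≤ k * (g + 1) * Real.log n ^ 2 := by gcongr
        _ = (g + 1) * Real.log n * (k * Real.log n) := by ring
        _ ≤ (g + 1) * Real.log n * (L / 12) := by gcongr
    obtain ⟨A, hA⟩ : ∃ A : ℝ, A = (n : ℝ) ^ (1 / 2 - 3 * δ / 4) := ⟨_, rfl⟩
    obtain ⟨B, hB⟩ : ∃ B : ℝ, B = (n : ℝ) ^ (1 / 2 + 5 * δ / 8) := ⟨_, rfl⟩
    obtain ⟨E, hE⟩ : ∃ E : ℝ, E = (n : ℝ) ^ (δ / 8) := ⟨_, rfl⟩
    have hA0 : 0 < A := by rw [hA]; positivity
    have hE0 : 0 < E := by rw [hE]; positivity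
    have hB1 : 1 ≤ B := by
      rw [hB]
      exact Real.one_le_rpow hn1' (by positivity)
    have hABE : A * B * E = n := by
      rw [hA, hB, hE, ← Real.rpow_add hn0, ← Real.rpow_add hn0]
      have : 1 / 2 - 3 * δ / 4 + (1 / 2 + 5 * δ / 8) + δ / 8 = 1 := by ring
      rw [this, Real.rpow_one]
    rw [← hA] at hLn
    rw [pow_one, ← hE] at ha4
    rw [← hB]
    have e3 : c₀ / 2 * (A * B * E) ≤ (g + 1) * (c₀ / 4 * E) * (2 * A / 12) := by
      rw [hABE]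
      have e4 : Real.log n ≤ c₀ / 4 * E := by
        have e5 : Real.log n = c₀ / 4 * (4 / c₀ * Real.log n) := by
          field_simp
        rw [e5]
        gcongr
      calc c₀ / 2 * n ≤ (g + 1) * Real.log n * (L / 12) := e1
        _ ≤ (g + 1) * (c₀ / 4 * E) * (2 * A / 12) := by gcongr
    have e6 : (c₀ * A * E) * (12 * B) ≤ (c₀ * A * E) * (g + 1) := by
      have e7 : c₀ / 2 * (A * B * E) = (c₀ * A * E) * (12 * B) / 24 := by ring
      have e8 : (g + 1 : ℝ) * (c₀ / 4 * E) * (2 * A / 12) = (c₀ * A * E) * (g + 1) / 24 := by ring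
      rw [e7, e8] at e3
      linarith
    have e9 := le_of_mul_le_mul_left e6 (by positivity)
    linarith
  have hgpos : (0 : ℝ) < g := by
    have : 0 < (n : ℝ) ^ (1 / 2 + 5 * δ / 8) := by positivity
    linarith
  have hg0 : 0 < g := by exact_mod_cast hgpos
  obtain ⟨D, hD⟩ : ∃ D : ℝ, D = (n : ℝ) ^ (1 / 2 - δ / 2) := ⟨_, rfl⟩
  have hD0 : 0 < D := by rw [hD]; positivity
  have hfin := h2 a c P k g n M D ha hD0 hg0 hM0 hkg (by
    intro p hp
    rw [hP, mem_filter] at hp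
    obtain ⟨q1, q2, q3, q4, q5⟩ := hQmem p hp.1
    obtain ⟨q6, q7⟩ := fin_jac ha q3
    refine ⟨q2, q6, q7, hp.2, q1, ?_, ?_⟩
    · exact hMd (p - 1) (by have := q2.two_le; omega) (by omega) q4
    · rw [hD]
      exact q5.le) (X + 1)
  have hG : (n : ℝ) ^ (δ / 8) ≤ g * (D / (6 * n)) := by
    rw [mul_div_assoc', le_div_iff₀ (by positivity)]
    calc (n : ℝ) ^ (δ / 8) * (6 * n) = 6 * (n : ℝ) ^ (1 / 2 + 5 * δ / 8) * D := by
          rw [hD, mul_assoc, ← Real.rpow_add hn0]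
          have e1 : 1 / 2 + 5 * δ / 8 + (1 / 2 - δ / 2) = δ / 8 + 1 := by ring
          rw [e1, Real.rpow_add hn0, Real.rpow_one]
          ring
      _ ≤ g * D := by gcongr
  have hnum := fin_numeric (X := X) (L := L) (l := l) (N := n) (G := g * (D / (6 * n))) (M := M)
    (δ := δ) (k := k) hX1 hL hδ hδ' hn1' hn1 h36 (by exact_mod_cast hM0) hM hku hkl.le hG hL4 hb3
  refine le_trans (mul_le_mul_of_nonneg_left hfin (by positivity)) (le_trans (le_of_eq ?_) hnum)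
  have e2 : (n : ℝ) ^ 4 / (D / (6 * n)) ^ 2 = 36 * (n : ℝ) ^ (5 + δ) := by
    have e3 : D ^ 2 * (n : ℝ) ^ (5 + δ) = (n : ℝ) ^ 6 := by
      rw [hD, ← Real.rpow_natCast, ← Real.rpow_mul hn0.le, ← Real.rpow_add hn0,
        ← Real.rpow_natCast (n : ℝ) 6]
      congr 1
      push_cast
      ring
    rw [div_pow, div_div_eq_mul_div, div_eq_iff (by positivity)]
    calc (n : ℝ) ^ 4 * (6 * n) ^ 2 = 36 * (n : ℝ) ^ 6 := by ring
      _ = 36 * (D ^ 2 * (n : ℝ) ^ (5 + δ)) := by rw [e3]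
      _ = 36 * (n : ℝ) ^ (5 + δ) * D ^ 2 := by ring
  rw [e2]
  push_cast
  rfl

/-- the theorem of the module -/
theorem thm_fin (h1 : St_mul) (h2 : St_sol) : St_fin := by
  classical
  intro a ha δ hδ hδ' c₀ hc₀ hPS
  obtain ⟨u, hu⟩ : ∃ u : ℝ, u = 4 / (2 - 3 * δ) := ⟨_, rfl⟩
  have hd0 : 0 < 2 - 3 * δ := by linarith
  have hu0 : 0 < u := by rw [hu]; positivity
  have hu3 : u ≤ 3 := by
    rw [hu, div_le_iff₀ hd0]
    linarith
  have huv : u * (1 / 2 - 3 * δ / 4) = 1 := by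
    rw [hu]
    field_simp
    ring
  have huw : u * (1 / 2 - δ) ≤ 1 - δ / 2 := by
    rw [hu, div_mul_eq_mul_div, div_le_iff₀ hd0]
    nlinarith
  have hT : Tendsto (fun X : ℕ => Real.log X) atTop atTop :=
    Real.tendsto_log_atTop.comp tendsto_natCast_atTop_atTop
  have hNN : Tendsto (fun X : ℕ => ⌊(Real.log X) ^ u⌋₊) atTop atTop :=
    tendsto_nat_floor_atTop.comp ((tendsto_rpow_atTop hu0).comp hT)
  have hr : Tendsto (fun n : ℕ => (n : ℝ) ^ (1 / 2 - δ)) atTop atTop :=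
    (tendsto_rpow_atTop (by linarith)).comp tendsto_natCast_atTop_atTop
  filter_upwards [hNN.eventually hPS, hNN.eventually (hr.eventually_ge_atTop 36),
    hNN.eventually (fin_log_pow (4 / c₀) 2 (1 / 2) (by norm_num)),
    hNN.eventually (fin_log_pow (4 / c₀) 1 (δ / 8) (by positivity)), hNN.eventually_ge_atTop 3,
    hT.eventually_ge_atTop 4, hT.eventually_ge_atTop (500 / δ),
    fin_log_le_small (3000 / δ) (δ / 2) (by positivity) (by positivity),
    fin_log_le_small 36 1 (by norm_num) (by norm_num),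
    fin_log_le_small 125 1 (by norm_num) (by norm_num), eventually_ge_atTop 1]
    with X a1 a2 a3 a4 a5 b0 b1 b2 b3 b4 hX1
  obtain ⟨L, hL⟩ : ∃ L : ℝ, L = Real.log X := ⟨_, rfl⟩
  obtain ⟨l, hl⟩ : ∃ l : ℝ, l = Real.log L := ⟨_, rfl⟩
  obtain ⟨n, hn⟩ : ∃ n : ℕ, n = ⌊(Real.log X) ^ u⌋₊ := ⟨_, rfl⟩
  rw [← hn] at a1 a2 a3 a4 a5
  rw [← hL] at b0 b1 b2 b3 b4
  rw [← hl] at b2 b3 b4
  rw [Real.rpow_one] at b3 b4
  have hL0 : 0 < L := by linarith
  have hL1 : 1 ≤ L := by linarith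
  have hl0 : 0 ≤ l := by rw [hl]; exact Real.log_nonneg hL1
  have hn3 : (3 : ℝ) ≤ n := by exact_mod_cast a5
  have hn0 : (0 : ℝ) < n := by linarith
  have hLu : 0 < L ^ u := by positivity
  have hnu : (n : ℝ) ≤ L ^ u := by
    rw [hn, ← hL]
    exact Nat.floor_le hLu.le
  have hnl : L ^ u < n + 1 := by
    rw [hn, ← hL]
    exact Nat.lt_floor_add_one _
  have hlogn : Real.log n ≤ 3 * l := by
    calc Real.log n ≤ Real.log (L ^ u) := Real.log_le_log hn0 hnu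
      _ = u * l := by rw [Real.log_rpow hL0, hl]
      _ ≤ 3 * l := by gcongr
  have hLn : L ≤ 2 * (n : ℝ) ^ (1 / 2 - 3 * δ / 4) := by
    have hv : 0 ≤ 1 / 2 - 3 * δ / 4 := by linarith
    calc L = (L ^ u) ^ (1 / 2 - 3 * δ / 4) := by
          rw [← Real.rpow_mul hL0.le, huv, Real.rpow_one]
      _ ≤ (2 * n) ^ (1 / 2 - 3 * δ / 4) := Real.rpow_le_rpow hLu.le (by linarith) hv
      _ = 2 ^ (1 / 2 - 3 * δ / 4) * (n : ℝ) ^ (1 / 2 - 3 * δ / 4) :=
          Real.mul_rpow (by norm_num) hn0.le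
      _ ≤ 2 * (n : ℝ) ^ (1 / 2 - 3 * δ / 4) := by
          refine mul_le_mul_of_nonneg_right ?_ (by positivity)
          calc (2 : ℝ) ^ (1 / 2 - 3 * δ / 4) ≤ 2 ^ (1 : ℝ) :=
                Real.rpow_le_rpow_of_exponent_le (by norm_num) (by linarith)
            _ = 2 := Real.rpow_one 2
  -- the common multiple
  obtain ⟨M, hM0, hM1, hM2⟩ := h1 n ⌊(n : ℝ) ^ (1 / 2 - δ)⌋₊ (by omega)
  have hlogn0 : 0 ≤ Real.log n := Real.log_natCast_nonneg n
  have hlogM : Real.log M ≤ δ / 1000 * L := by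
    have e1 : ((⌊(n : ℝ) ^ (1 / 2 - δ)⌋₊ : ℕ) : ℝ) ≤ L ^ (1 - δ / 2) := by
      calc ((⌊(n : ℝ) ^ (1 / 2 - δ)⌋₊ : ℕ) : ℝ) ≤ (n : ℝ) ^ (1 / 2 - δ) :=
            Nat.floor_le (by positivity)
        _ ≤ (L ^ u) ^ (1 / 2 - δ) := Real.rpow_le_rpow hn0.le hnu (by linarith)
        _ = L ^ (u * (1 / 2 - δ)) := by rw [← Real.rpow_mul hL0.le]
        _ ≤ L ^ (1 - δ / 2) := Real.rpow_le_rpow_of_exponent_le hL1 huw
    have e2 : 3 * l ≤ δ / 1000 * L ^ (δ / 2) := by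
      have e3 : 3 * l = δ / 1000 * (3000 / δ * l) := by
        field_simp
        ring
      rw [e3]
      gcongr
    calc Real.log M ≤ _ := hM1
      _ ≤ L ^ (1 - δ / 2) * (δ / 1000 * L ^ (δ / 2)) := by
          refine mul_le_mul e1 (hlogn.trans e2) hlogn0 (by positivity)
      _ = δ / 1000 * (L ^ (1 - δ / 2) * L ^ (δ / 2)) := by ring
      _ = δ / 1000 * L := by
          rw [← Real.rpow_add hL0, sub_add_cancel, Real.rpow_one]
  have hone := fun (c : ℕ) (hc1 : 1 ≤ c) (hcX : (c : ℝ) ≤ (X : ℝ) ^ (δ / 1000)) =>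
    fin_one h2 ha hδ hδ' hc₀ (X := X) (n := n) (M := M) hX1 hL hl b0 a5 hlogn hLn a1 a2 a3 a4 b3 (by
      rw [div_le_iff₀ hδ] at b1
      nlinarith) hM0 hlogM (fun m hm hmn hq => hM2 m hm hmn fun q hq1 hq2 =>
        Nat.le_floor (hq q hq1 hq2)) (c := c) hc1 hcX
  -- sum over `c`
  have hX1' : (1 : ℝ) ≤ X := by exact_mod_cast hX1
  have hXp : 0 < (X : ℝ) ^ (δ / 1000) := by positivity
  have hsub : ((range (X + 1)).filter fun b => ∃ c : ℕ, 1 ≤ c ∧
      (c : ℝ) ≤ (X : ℝ) ^ (δ / 1000) ∧ Sol a c b) ⊆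
      (Icc 1 ⌊(X : ℝ) ^ (δ / 1000)⌋₊).biUnion fun c => (range (X + 1)).filter fun b => Sol a c b := by
    intro b hb
    rw [mem_filter] at hb
    obtain ⟨hb1, c, hc1, hcX, hs⟩ := hb
    rw [mem_biUnion]
    exact ⟨c, mem_Icc.mpr ⟨hc1, Nat.le_floor hcX⟩, mem_filter.mpr ⟨hb1, hs⟩⟩
  have hcard := (Finset.card_le_card hsub).trans Finset.card_biUnion_le
  have hcard' : (((range (X + 1)).filter fun b => ∃ c : ℕ, 1 ≤ c ∧
      (c : ℝ) ≤ (X : ℝ) ^ (δ / 1000) ∧ Sol a c b).card : ℝ) ≤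
      ∑ c ∈ Icc 1 ⌊(X : ℝ) ^ (δ / 1000)⌋₊, (((range (X + 1)).filter fun b => Sol a c b).card : ℝ) := by
    exact_mod_cast hcard
  refine hcard'.trans ?_
  have h5 : ∀ c ∈ Icc 1 ⌊(X : ℝ) ^ (δ / 1000)⌋₊,
      (((range (X + 1)).filter fun b => Sol a c b).card : ℝ) ≤
        (X : ℝ) ^ (1 - δ / 1000) / (X : ℝ) ^ (δ / 1000) := by
    intro c hc
    rw [mem_Icc] at hc
    rw [le_div_iff₀ hXp, mul_comm]
    refine hone c hc.1 ?_
    calc (c : ℝ) ≤ ((⌊(X : ℝ) ^ (δ / 1000)⌋₊ : ℕ) : ℝ) := by exact_mod_cast hc.2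
      _ ≤ (X : ℝ) ^ (δ / 1000) := Nat.floor_le hXp.le
  refine (Finset.sum_le_sum h5).trans ?_
  rw [Finset.sum_const, Nat.card_Icc, Nat.add_sub_cancel, nsmul_eq_mul, mul_div_assoc',
    div_le_iff₀ hXp, mul_comm]
  refine mul_le_mul_of_nonneg_left (Nat.floor_le hXp.le) (by positivity)

end Pool.Agent.CFB
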