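import Mathlib
import Pool.Agent.CFB.Defs

/-!
# CFB: the statements of the modules, with proofs

Final theorem (`St_main`): there is `δ > 0` such that for every `a ≥ 2` and all large `X` all but at most
`X^(1-δ)` integers `b ≤ X` have the property: `(a^n - 1)(b^n - 1) = c y^2` has no solution `n ≥ 1`,
`1 ≤ c ≤ X^δ`, `y`.

Model: the folder `Pool/Agent/Cohn2` (the same theorem on average over pairs `(a, b)`).  Most modules below
are adaptations of files of that folder; each docstring says which.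
-/

set_option autoImplicit false

namespace Pool.Agent.CFB

open Finset Filter
open Pool.Agent.Cohn2 (fq)

/-! ## Local part -/

/-- **Module cnt** (model `Cohn2/Local.lean`; import it).  Many residues modulo `p^2` are obstructed.

Proof.  Put `H = {j < p : (j/p) = 1}`; `#H = (p-1)/2` (`Cohn2.card_qr`), and `m := orderOf (a : ZMod p)` divides
`(p-1)/2` since `a` is a square mod `p` (Euler: `a^((p-1)/2) = 1`), so `m ≤ (p-1)/2`.

Case 1, `p ∤ a^n - 1`.  Put `e = -((c/p) (a^n-1/p))`, `e = 1` or `-1` (`p ∤ c`, `p ∤ a^n - 1`).  `Obs` depends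
only on `b mod p` (`Cohn2.jac_block`, `Cohn2.al_block`), so the number of obstructed `b < p^2` is `p` times the
number `A` of `j ∈ H` with `((j^n - 1)/p) = e`.  By `Cohn2.sum_al` the sum over `j ∈ H` of `((j^n-1)/p)` is `0`,
so as many `j ∈ H` have the value `1` as `-1`, i.e. `2A = #H - #K`, `K = {j ∈ H : p ∣ j^n - 1}`.  The map
`j ↦ a j mod p` sends `K` injectively into `H \ K` (`a ∈ H`; if `j^n = 1` and `(aj)^n = 1` then `a^n = 1`), so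
`2 #K ≤ #H` and `4A ≥ #H = (p-1)/2`.  Hence `6 p A ≥ 6 p (p-1)/8 ≥ p (p-1)/2 ≥ p m`.

Case 2, `p ∣ a^n - 1`.  Put `K = {j ∈ H : p ∣ j^n - 1}`.  It contains (the residues of) `1, a, a^2, ..., a^(m-1)`,
so `#K ≥ m`.  For each `j ∈ K` the `p` numbers `b = p i + j`, `i < p`, satisfy `(b/p) = 1` and `p ∣ b^n - 1`
(`Cohn2.jac_block`, `Cohn2.fq_zero_mod`), and `fq p b` runs through all residues mod `p` exactly once
(`Cohn2.sum_fq` with a suitable `G`, e.g. the indicator function of `x ≠ 0 ∧ χ(x) ≠ e`).  Among the nonzero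
residues `(p-1)/2` have character `1` and `(p-1)/2` have `-1` (e.g. from `Cohn2.sum_chi_sq` and
`quadraticChar_sum_zero`), so for every integer `e` at least `(p-1)/2` residues `x` have
`χ(x) ≠ 0, χ(x) ≠ e`.  So the number of obstructed `b` is at least `m (p-1)/2`, and
`6 m (p-1)/2 = 3 m (p-1) ≥ m p` since `p ≥ 3`. -/
def St_cnt : Prop := ∀ a c p n : ℕ, p.Prime → p % 4 = 3 → jacobiSym a p = 1 → ¬ p ∣ c →
  p * orderOf (a : ZMod p) ≤ 6 * (OB a c p n).card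

/-- **Module obs**, first half (model `Cohn2/Obs.lean`: `be_block`, `al_mod`, `be_mod`, `pow_mod_eq`, `Ph_exp`).
`Obs` has period `p^2` in `b`, and depends on the exponent only modulo `p - 1`.

Proof.  Period in `b`: `(b/p)`, `b^n - 1` depend on `b` mod `p`; `(fq p b/p)` for `p ∤ b` depends on
`b` mod `p^2` by `Cohn2.fq_add` (write `b = p i + j`, the value depends on `j` and `i` mod `p`).
Exponent: `(a/p) = 1` and `(b/p) = 1` give `p ∤ a`, `p ∤ b`, and Fermat (`Cohn2.pow_mod_eq`). -/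
def St_per : Prop := ∀ a c p n b : ℕ, p.Prime → p % 4 = 3 → jacobiSym a p = 1 →
  (Obs a c p n (b % (p * p)) ↔ Obs a c p n b) ∧
  ∀ n' : ℕ, n % (p - 1) = n' % (p - 1) → (Obs a c p n b ↔ Obs a c p n' b)

/-- **Module obs**, second half (model `Cohn2/Obs.lean`: `pow_prime_step`, `pow_unit`, `unit_part`,
`obstruction`).  An obstructed `b` has no solution.

Proof.  Case 1, `p ∤ a^n - 1` and `((b^n-1)/p) = -(c/p)((a^n-1)/p)` (nonzero).  Then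
`((c y^2)/p) = ((a^n-1)/p)((b^n-1)/p) = -(c/p)`, which is nonzero, so `p ∤ y` and the left side is `(c/p)`:
contradiction.

Case 2, `p ∣ a^n - 1`, `p ∣ b^n - 1`.  Let `s = ex p a ≥ 1` (`a ≥ 2`, so `a^(p-1) - 1 ≠ 0`, and `p` divides it
by Fermat, `p ∤ a`), `a^(p-1) = 1 + p^s u` with `p ∤ u`.  Write `n = p^t m`, `p ∤ m`.
(i) As in `Cohn2.pow_unit` (which is the case `s = 1`): `(1 + p^s u)^(p^t m) = 1 + p^(s+t) w` with
`w ≡ m u mod p`; proof by induction on `t` with `Cohn2.pow_prime_step` (valid for every `y` divisible by `p`).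
(ii) As in `Cohn2.unit_part`: with `σ = 1 + a^n + ... + a^(n(p-2))`, `(a^n - 1) σ = a^(n(p-1)) - 1 = p^(s+t) w`
and `σ ≡ p - 1 ≡ -1 mod p`.  For `b` the same with `s = 1` and `u` replaced by `fq p b` (`Cohn2.unit_part`):
`(b^n - 1) σ' = p^(1+t) w'`, `w' ≡ m fq p b`, `p ∤ w'` because `(fq p b/p) ≠ 0`.
Multiply: `c y^2 σ σ' = p^(s+1+2t) w w'` with `p ∤ c σ σ' w w'`.  So the exponent of `p` in `y^2` is `s+1+2t`,
hence `s` is odd, `y = p^((s+1)/2+t) z` and `c z^2 σ σ' = w w'`, so `(c/p) = (w/p)(w'/p) =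
(m/p)^2 (u/p)(fq p b/p) = sg p a * (fq p b/p)`, i.e. `(fq p b/p) = (c/p) sg p a`: contradiction.
(If `s` is even there is no solution at all; this is the reason for `sg = 0` then.) -/
def St_obs : Prop := ∀ a c p n b : ℕ, p.Prime → p % 4 = 3 → 2 ≤ a → jacobiSym a p = 1 → ¬ p ∣ c → n ≠ 0 →
  ∀ y : ℤ, ((a : ℤ) ^ n - 1) * ((b : ℤ) ^ n - 1) = c * y ^ 2 → ¬ Obs a c p n b

/-! ## Moments -/

open Classical in
/-- **Module free** (model `Cohn2/Moment.lean` and `Cohn2/Count.lean`, one variable instead of two).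
The numbers `b < X` which avoid all the sets `K p`.

Proof.  For `p ∈ P` let `m_p = #{b < p^2 : K p b} / p^2 ≥ μ`, `f_p(b) = 1_{K p}(b) - m_p`; it has period `p^2`,
`|f_p| ≤ 1`, the sum over a period is `0` and the mean of `f_p^2` over a period is `m_p - m_p^2 ≤ m_p`.
Take pairwise disjoint `G_1, ..., G_k ⊆ P` with `g` elements each (`Cohn2.exists_groups`) and
`S_j = ∑ p ∈ G_j, m_p ≥ g μ`.  Expand
`∑ b < X, ∏ j, (∑ p ∈ G_j, f_p(b))^2 = ∑ over pairs (p_j, q_j) ∈ G_j × G_j of ∑ b < X, ∏ j f_(p_j)(b) f_(q_j)(b)`.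
* If `p_j = q_j` for all `j` the inner function `F = ∏ f_(p_j)^2` is `≥ 0`, `≤ 1`, has the period
  `Q = ∏ p_j^2 ≤ y^(2k)` and by the Chinese remainder theorem its mean over a period is
  `∏ (mean of f_(p_j)^2) ≤ ∏ m_(p_j)`; so `∑ b < X, F b ≤ (X/Q + 1) ∑ over a period ≤ X ∏ m_(p_j) + y^(2k)`.
  The sum over all these tuples is `≤ X ∏ S_j + g^k y^(2k)`.
* Otherwise `p_i ≠ q_i` for some `i`; as in `Cohn2.term_off` the inner function is `f_(p_i)` (period `p_i^2`, sum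
  `0` over it) times a function with a period prime to `p_i`; so its sum over the common period
  `Q ≤ y^(4k)` is `0`, and since it is bounded by `1`, its sum over `b < X` is at most `Q ≤ y^(4k)` in absolute
  value.  There are at most `g^(2k)` tuples.
On the other hand, for `b` in the set to be counted the product is `∏ S_j^2`.  So
`# * ∏ S_j^2 ≤ X ∏ S_j + g^k y^(2k) + g^(2k) y^(4k) ≤ X ∏ S_j + 2 g^(2k) y^(4k)` (`y ≥ 1` as `P` is nonempty if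
`k ≥ 1`; for `k = 0` the claim is trivial), and dividing by `∏ S_j^2 ≥ (g μ)^(2k)` gives the claim. -/
def St_free : Prop := ∀ (P : Finset ℕ) (k g y : ℕ) (μ : ℝ) (K : ℕ → ℕ → Prop), 0 < μ → 0 < g →
  k * g ≤ P.card →
  (∀ p ∈ P, p.Prime ∧ p ≤ y ∧ (∀ b, K p (b % (p * p)) ↔ K p b) ∧
    μ * ((p : ℝ) * p) ≤ (((range (p * p)).filter fun b => K p b).card : ℝ)) →
  ∀ X : ℕ, (((range X).filter fun b => ∀ p ∈ P, ¬ K p b).card : ℝ) ≤
    X * (1 / (g * μ)) ^ k + 2 * ((y : ℝ) ^ 4 / μ ^ 2) ^ k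

/-! ## A common multiple -/

/-- **Module mul.**  Proof.  `M = ∏ q ≤ y prime, q^(Nat.log q N)`; every factor is `≤ N` (`Nat.pow_log_le_self`),
so `log M ≤ y log N`.  If all primes `q ∣ m` are `≤ y` and `m ≤ N` then `q^(v_q(m)) ≤ m ≤ N` gives
`v_q(m) ≤ Nat.log q N`, so `m = ∏ q ∣ m, q^(v_q(m))` divides `M` (`Nat.factorization_prod_pow_eq_self`,
`Finset.prod_dvd_prod_of_dvd`, `Finset.prod_dvd_prod_of_subset`). -/
def St_mul : Prop := ∀ N y : ℕ, 2 ≤ N → ∃ M : ℕ, 0 < M ∧ Real.log M ≤ y * Real.log N ∧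
  ∀ m : ℕ, 0 < m → m ≤ N → (∀ q : ℕ, q.Prime → q ∣ m → q ≤ y) → m ∣ M

/-! ## Sieve -/

/-- **Module siv** (model `Pool/Agent/PC/Sieve.lean`: `Om2`, `V_le`, `pair_sieve`; it uses
`Pool.Agent.Helper90.Straus.sieve_upper`, `log_le_prod`, `P_sq_le`, `ratio_eq`, `ratio_ge_one`, `log_sq_le`).
Prime pairs `r, 2 h r + 1` with `r` in a residue class modulo an even `m`, uniformly.

Proof.  Apply `sieve_upper` with `κ = 2` to the variable `t` and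
`Ω_q = {t < q : q ∤ m ∧ (q ∣ r₀ + m t ∨ q ∣ 2 h (r₀ + m t) + 1)}`.  For `q ∣ m` (in particular `q = 2`) it is
empty.  For `q ∤ m` (so `q ≥ 3`) the first condition has exactly one solution `t < q`; the second has none if
`q ∣ h`, and exactly one if `q ∤ h` (`q ∤ 2 h m`), which is different from the first since at the first one
`2 h (r₀ + m t) + 1 ≡ 1`.  So `#Ω_q ≤ 2 < q` (`Sys 2 Ω`), and
`1 - #Ω_q/q ≤ (1-1/q)^2 * (if q ∣ m then (1-1/q)^(-2) else 1) * (if q ∣ h then (1-1/q)^(-1) else 1)`;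
the product over `q < z` is `≤ (∏ q < z, (1-1/q))^2 (m/φ(m))^2 (h/φ(h)) ≤ (1/log^2 z) ρ`,
`ρ = (m/φ(m))^2 (h/φ(h)) ≥ 1`.  If `t < T` is counted then either `r₀ + m t < z`, which holds for at most `z`
values of `t`, or `r₀ + m t ≥ z` and then `t` survives.  The choice of `z = 2^(2^R)` with `z^c ≤ T < z^(2c)` and
the rest of the proof are those of `pair_sieve` with `L` replaced by `T`. -/
def St_siv : Prop := ∃ C : ℝ, 0 < C ∧ ∀ m h T r₀ : ℕ, 2 ≤ T → 0 < m → 2 ∣ m → 0 < h →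
  (((range T).filter fun t => (r₀ + m * t).Prime ∧ (2 * h * (r₀ + m * t) + 1).Prime).card : ℝ) ≤
    C * ((m : ℝ) / m.totient) ^ 2 * ((h : ℝ) / h.totient) * T / Real.log T ^ 2

/-- **Module phi** (compare `sum_ratio_sq` in `Pool/Agent/PC/Sieve.lean`).  Sum of `1/φ(j)` over `j ≤ J` prime to `m`.

Proof.  (i) `j/φ(j) = ∏ p ∣ j, (1 + 1/(p-1)) = ∑ t ⊆ primeFactors j, ∏ p ∈ t, 1/(p-1)`.  For a set `t` of primes
`≤ J` with product `d`, the `j ≤ J` prime to `m` with `t ⊆ primeFactors j` are `j = d i` with `i ≤ J`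
prime to `m`, so `∑ 1/j ≤ (1/d) S`, `S = ∑ i ≤ J, (i, m) = 1, 1/i`.  Hence
`∑ j, 1/φ(j) ≤ S ∑ t, ∏ p ∈ t, 1/(p(p-1)) = S ∏ p ≤ J, (1 + 1/(p(p-1))) ≤ S exp(∑ n ≥ 2, 1/(n(n-1))) ≤ e S`.
(ii) `S ≤ m + (φ(m)/m)(1 + log J)`: the `i ≤ m` contribute at most `m`; for `k ≥ 1` the interval
`m k < i ≤ m (k+1)` has `φ(m)` numbers prime to `m` (`Nat.filter_coprime_Ico_eq_totient`), each with
`1/i ≤ 1/(m k)`, and only `k ≤ J` occur; `∑ k ≤ J, 1/k ≤ 1 + log J` (`harmonic_le_one_add_log`). -/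
def St_phi : Prop := ∃ C : ℝ, 0 < C ∧ ∀ m J : ℕ, 1 ≤ m → 1 ≤ J →
  ∑ j ∈ (Icc 1 J).filter (fun j => j.Coprime m), 1 / (j.totient : ℝ) ≤
    C * (m + (m.totient : ℝ) / m * (1 + Real.log J))

/-! ## The supply of primes -/

/-- **Module bad** (uses `St_siv` and `St_phi` as hypotheses).  Few `p ≡ 1 mod l` have a large prime factor of
`p - 1`.

Proof.  Let `C₁`, `C₂` be the constants of `St_siv`, `St_phi`; `N` is large in terms of `a`, `δ`.  Put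
`m = 2a`, `Y = N^(1/2-δ)`, `l ∈ LL δ N` (so `l ≤ Y`, and `l > 4a`, `l` odd), `p ∈ BB a δ N l`, `r > Y` a prime factor
of `p - 1`.  `r ≠ l`, so `p - 1 = l r i`; `p ≡ 3 mod 4` and `l`, `r` odd give `i = 2 j` with `j` odd;
`(p-1)/2 = l r j ≡ -1 mod 2a`, so `j` is prime to `2a`, and `j ≤ N/(2 l r) ≤ N^(3δ)`.
For given `j` the number `l j` is prime to `2a` and `r` lies in the class `r₀` mod `2a`, `r₀ < 2a`, with
`l j r₀ ≡ -1 mod 2a`.  So `r = r₀ + 2a t` with `t < T := ⌊N/(4 a l j)⌋ + 1`, and `r`, `2 (l j) r + 1 = p` are prime.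
Since `4 a l j ≤ 4 a N^(1/2+2δ) ≤ N^(3/5)`, we have `T ≥ N^(1/3)`, `T ≤ 2 N/(4 a l j) = N/(2 a l j)`, and
`St_siv` with `h = l j` (`φ(l j) ≥ φ(l) φ(j) ≥ (l/2) φ(j)`, so `h/φ(h) ≤ 2 j/φ(j)`) bounds the number of `p` for
this `j` by `C₁ (2a/φ(2a))^2 (2 j/φ(j)) N/(2 a l j) * 9/log^2 N`.
Sum over the `j ≤ J = ⌊N^(3δ)⌋` prime to `2a` (`p` is determined by `j` and `r`):
`#BB ≤ 18 C₁ (2a/φ(2a))^2 N/(2 a l log^2 N) * C₂ (2a + (φ(2a)/(2a))(1 + 3δ log N))`,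
and for large `N` the last bracket is `≤ 4δ (φ(2a)/(2a)) log N`, so
`#BB ≤ 72 C₁ C₂ δ (2a/φ(2a)) N/(2 a l log N) = 72 C₁ C₂ δ N/(φ(2a) l log N) = 144 C₁ C₂ δ N/(φ(4a) l log N)`
(`φ(4a) = 2 φ(2a)`).  So `C = 144 C₁ C₂` (any absolute constant will do). -/
def St_bad : Prop := ∃ C : ℝ, 0 < C ∧ ∀ δ : ℝ, 0 < δ → δ ≤ 1 / 100 → ∀ a : ℕ, 1 ≤ a →
  ∀ᶠ N : ℕ in atTop, ∀ l ∈ LL δ N,
    ((BB a δ N l).card : ℝ) ≤ C * δ * N / ((4 * a).totient * l * Real.log N)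

/-- **Module LL** (model `Cohn2/Supply.lean`: `card_Fp`, the same with the exponents `1/2-2δ`, `1/2-δ`).
Proof: `Chebyshev.pi_ge` at `n = ⌊N^(1/2-δ)⌋`, and the numbers up to `N^(1/2-2δ)` are negligible.  Note
`log n ≤ (1/2) log N` and `log 2 > 0.69 > 1/2`. -/
def St_LL : Prop := ∀ δ : ℝ, 0 < δ → δ ≤ 1 / 100 → ∀ᶠ N : ℕ in atTop,
  (N : ℝ) ^ (1 / 2 - δ) / (2 * Real.log N) ≤ (LL δ N).card

/-- **Module TT** (model `Cohn2/Supply.lean`: `bP_le`, `Tp_sum`, and the first half of `supply`; import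
`Pool.Agent.Cohn2.Supply`, which has `wt`, `wt_is`, `wt_mass`, `bP_le`, and `Pool.Agent.PTB.Out`).

Proof.  For large `N` every `l ∈ LL δ N` is a prime `> 4a`, `q = 4 a l ≤ 4a N^(1/2-δ) ≤ N^(1/2-δ/2)`, and there is `c`
with `c ≡ 4a - 1 mod 4a`, `c ≡ 1 mod l`; `c` is prime to `4 a l`.  `PTB.out_prime wt wt_is (1/2-δ/2)` with `A = 3`,
`K = 1` gives `#TT ≥ B/φ(4 a l) - E(4 a l)`, `B = PT.B0 wt N (PTB.bP N) ≥ N/(4 log N)` (`PTB.out_massP`, `wt_mass`),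
`φ(4 a l) = φ(4a)(l-1) ≤ φ(4a) l`, and `∑ E(4 a l) ≤ N/log^3 N` (the moduli `4 a l` are different). -/
def St_TT : Prop := ∀ δ : ℝ, 0 < δ → δ ≤ 1 / 100 → ∀ a : ℕ, 1 ≤ a → ∀ᶠ N : ℕ in atTop,
  ∑ l ∈ LL δ N, (N : ℝ) / (4 * (4 * a).totient * l * Real.log N) - N / Real.log N ^ 3 ≤
    ∑ l ∈ LL δ N, ((TT a N l).card : ℝ)

/-- **Module sup** (from `St_bad`, `St_LL`, `St_TT`; model `Cohn2/Supply.lean`: `two_factors`, `card_Pp`).

Proof.  Let `C` be the constant of `St_bad`, `δ = min (1/100) (1/(8C))`.  `TT \ BB ⊆ QQ`, and each `p ∈ QQ` is in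
`TT a N l` for at most two `l ∈ LL δ N` (three such `l` would have product `> N^(3/2-6δ) ≥ N > p - 1`).  So with
`S = ∑ l ∈ LL, 1/l ≥ #LL/N^(1/2-δ) ≥ 1/(2 log N)`:
`2 #QQ ≥ ∑ l (#TT - #BB) ≥ S N/(4 φ(4a) log N) - N/log^3 N - S C δ N/(φ(4a) log N)
 ≥ S N/(8 φ(4a) log N) - N/log^3 N ≥ N/(16 φ(4a) log^2 N) - N/log^3 N ≥ N/(32 φ(4a) log^2 N)`
as soon as `log N ≥ 32 φ(4a)`. -/
def St_sup : Prop := ∃ δ : ℝ, 0 < δ ∧ δ ≤ 1 / 100 ∧ ∀ a : ℕ, 1 ≤ a → ∀ᶠ N : ℕ in atTop,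
  (N : ℝ) / (64 * (4 * a).totient * Real.log N ^ 2) ≤ (QQ a δ N).card

/-- **Module ord.**  Few primes have a small order of `a`.

Proof.  If `1 ≤ d = orderOf (a : ZMod p)` then `p ∣ a^d - 1`, a positive integer with at most
`Nat.log 2 (a^d) ≤ d (Nat.log 2 a + 1)` prime factors (their product divides it and each is `≥ 2`).  So the number
is at most `∑ d ∈ Icc 1 D, d (Nat.log 2 a + 1) ≤ D^2 (Nat.log 2 a + 1)`.  (`orderOf ≥ 1` since `a` is a unit.) -/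
def St_ord : Prop := ∀ a N D : ℕ, 2 ≤ a →
  ((range (N + 1)).filter fun p => p.Prime ∧ a.Coprime p ∧ orderOf (a : ZMod p) ≤ D).card ≤
    D ^ 2 * (Nat.log 2 a + 1)

/-- **Glue**: the supply, with the order condition.  From `St_ord`, with `D = ⌊N^(1/2-δ/2)⌋`:
`#PS ≥ #QQ - D^2 (log a + 1)` and `D^2 ≤ N^(1-δ)`. -/
def St_PS : Prop := ∀ a : ℕ, 2 ≤ a → ∀ δ : ℝ, 0 < δ → δ ≤ 1 / 100 → ∀ c₀ : ℝ, 0 < c₀ →
  (∀ᶠ N : ℕ in atTop, c₀ * N / Real.log N ^ 2 ≤ (QQ a δ N).card) →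
  ∀ᶠ N : ℕ in atTop, c₀ / 2 * N / Real.log N ^ 2 ≤ (PS a δ N).card

/-! ## Conclusion -/

open Classical in
/-- **Glue**: all exponents, one factor `c` (from `St_cnt`, `St_per`, `St_obs`, `St_free`; model
`Cohn2/Count.lean: sol_bound`).  `P` is a set of primes `p ≤ y`, `p ≡ 3 mod 4`, `(a/p) = 1`, `p ∤ c`, with order of `a`
at least `D`, and `p - 1 ∣ M`.  `μ = D/(6y)`. -/
def St_sol : Prop := ∀ (a c : ℕ) (P : Finset ℕ) (k g y M : ℕ) (D : ℝ), 2 ≤ a → 0 < D → 0 < g → 0 < M →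
  k * g ≤ P.card →
  (∀ p ∈ P, p.Prime ∧ p % 4 = 3 ∧ jacobiSym a p = 1 ∧ ¬ p ∣ c ∧ p ≤ y ∧ p - 1 ∣ M ∧
    D ≤ orderOf (a : ZMod p)) →
  ∀ X : ℕ, (((range X).filter fun b => Sol a c b).card : ℝ) ≤
    M * (X * (1 / (g * (D / (6 * y)))) ^ k + 2 * ((y : ℝ) ^ 4 / (D / (6 * y)) ^ 2) ^ k)

open Classical in
/-- **Module fin** (model `Cohn2/Main.lean`: `numeric`, `almost_all`).  The choice of the parameters.
Uses `St_mul` and `St_sol`.

Proof.  `L = log X`, `u = 4/(2-3δ)` (so `1/u = 1/2 - 3δ/4`, `2 ≤ u ≤ 3`), `N = ⌊L^u⌋`, `y = N`,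
`D = N^(1/2-δ/2)`, `Y = ⌊N^(1/2-δ)⌋`, `M` from `St_mul` for `N`, `Y`; `c ≤ X^(δ/1000)`.
`P = {p ∈ PS a δ N : p ∤ c}`: at most `log c/log 2 ≤ L` primes divide `c`, and `L ≤ 2 N^(1/2)`, so
`#P ≥ (c₀/2) N/log^2 N`.  For `p ∈ P`: `p ≡ -1 mod 4a` gives `p ≡ 3 mod 4` and `(a/p) = 1`
(`jacobiSym.mod_right`: `(a/p) = (a/4a-1)`, and `(a/(4a-1)) = (4a/(4a-1)) = (1/(4a-1)) = 1`);
`p - 1 ∣ M` as all its prime factors are `≤ Y` and `p - 1 ≤ N`.
`log M ≤ Y log N ≤ N^(1/2-δ) log N ≤ L^(1-uδ/4) u log L ≤ (δ/1000) L`.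
`k = ⌊L/(12 log N)⌋`, `g = #P / k` (natural division): `g ≥ #P/k - 1 ≥ 6 c₀ N/(L log N) - 1`, and
`L ≤ 2 N^(1/2-3δ/4)`, so `g D/(6N) ≥ N^(δ/8)` for large `X`.
First term: `X (1/(g D/(6N)))^k ≤ X exp(-(δ/8) k log N) ≤ X exp(-(δ/96) L + (δ/8) log N)`.
Second term: `2 (36 N^(5+δ))^k ≤ 2 exp(5.5 k log N) ≤ 2 X^(11/24)` (`N^(1/2-δ) ≥ 36`).
Multiply by `M ≤ exp((δ/1000) L)` and sum over `c ≤ X^(δ/1000)` (another factor `exp((δ/1000) L)`):
the total is `≤ X^(1-δ/200) ≤ X^(1-δ/1000)`. -/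
def St_fin : Prop := ∀ a : ℕ, 2 ≤ a → ∀ δ : ℝ, 0 < δ → δ ≤ 1 / 100 → ∀ c₀ : ℝ, 0 < c₀ →
  (∀ᶠ N : ℕ in atTop, c₀ * N / Real.log N ^ 2 ≤ (PS a δ N).card) →
  ∀ᶠ X : ℕ in atTop, (((range (X + 1)).filter fun b => ∃ c : ℕ, 1 ≤ c ∧
    (c : ℝ) ≤ (X : ℝ) ^ (δ / 1000) ∧ Sol a c b).card : ℝ) ≤ (X : ℝ) ^ (1 - δ / 1000)

open Classical in
/-- the final theorem -/
def St_main : Prop := ∃ δ : ℝ, 0 < δ ∧ ∀ a : ℕ, 2 ≤ a → ∀ᶠ X : ℕ in atTop,
  (((range (X + 1)).filter fun b => ∃ c : ℕ, 1 ≤ c ∧ (c : ℝ) ≤ (X : ℝ) ^ δ ∧ Sol a c b).card : ℝ) ≤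
    (X : ℝ) ^ (1 - δ)

/-- the final theorem from the modules -/
theorem glue (h1 : St_sup) (h2 : St_PS) (h3 : St_fin) : St_main := by
  obtain ⟨δ, h0, h100, hs⟩ := h1
  refine ⟨δ / 1000, by positivity, fun a ha => ?_⟩
  have ht : 0 < (4 * a).totient := Nat.totient_pos.2 (by omega)
  have ht' : (0 : ℝ) < (4 * a).totient := by exact_mod_cast ht
  refine h3 a ha δ h0 h100 (1 / (64 * (4 * a).totient) / 2) (by positivity) ?_
  refine h2 a ha δ h0 h100 (1 / (64 * (4 * a).totient)) (by positivity) ?_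
  filter_upwards [hs a (by omega)] with N hN
  refine le_trans (le_of_eq ?_) hN
  rw [one_div_mul_eq_div, div_div]

end Pool.Agent.CFB
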