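import Mathlib
import Pool.Agent.CFB.St
import Pool.Agent.Cohn2.Count

/-!
# CFB, module free: numbers avoiding periodic sets, by a product of second moments
-/

set_option autoImplicit false

namespace Pool.Agent.CFB

open Finset

/-- `F` has period `m` -/
private def free_Per (m : ℕ) (F : ℕ → ℝ) : Prop := ∀ b, F (b % m) = F b

private lemma free_of_dvd {m n : ℕ} {F : ℕ → ℝ} (h : free_Per m F) (hd : m ∣ n) : free_Per n F := by
  intro b
  rw [← h (b % n), Nat.mod_mod_of_dvd _ hd, h]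

private lemma free_per_mul {m : ℕ} {F G : ℕ → ℝ} (hF : free_Per m F) (hG : free_Per m G) :
    free_Per m (fun b => F b * G b) := by
  intro b
  show F _ * G _ = _
  rw [hF, hG]

private lemma free_per_prod {ι : Type*} {m : ℕ} (s : Finset ι) {F : ι → ℕ → ℝ}
    (hF : ∀ i ∈ s, free_Per m (F i)) : free_Per m (fun b => ∏ i ∈ s, F i b) := by
  intro b
  exact prod_congr rfl fun i hi => hF i hi b

/-- sum of a product over a full period -/
private lemma free_full {m n : ℕ} (hm : m ≠ 0) (hn : n ≠ 0) (h : m.Coprime n) {g R : ℕ → ℝ}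
    (hg : free_Per m g) (hR : free_Per n R) :
    ∑ b ∈ range (m * n), g b * R b = (∑ b ∈ range m, g b) * ∑ b ∈ range n, R b := by
  have h1 : ∀ b, g b * R b = g (b % m) * R (b % n) := fun b => by rw [hg, hR]
  rw [sum_congr rfl fun b _ => h1 b]
  rw [Pool.Agent.Cohn2.crt_sum hm hn h fun i j => g i * R j, sum_mul_sum]

private lemma free_prod_full {ι : Type*} (s : Finset ι) (m : ι → ℕ) (F : ι → ℕ → ℝ)
    (hm : ∀ i ∈ s, m i ≠ 0) (hc : ∀ i ∈ s, ∀ j ∈ s, i ≠ j → (m i).Coprime (m j))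
    (hF : ∀ i ∈ s, free_Per (m i) (F i)) :
    ∑ b ∈ range (∏ i ∈ s, m i), ∏ i ∈ s, F i b = ∏ i ∈ s, ∑ b ∈ range (m i), F i b := by
  classical
  induction s using Finset.induction_on with
  | empty => simp
  | insert a s ha ih =>
    rw [prod_insert ha, prod_insert ha]
    simp only [prod_insert ha]
    have hP : free_Per (∏ i ∈ s, m i) (fun b => ∏ i ∈ s, F i b) :=
      free_per_prod s fun i hi => free_of_dvd (hF i (mem_insert_of_mem hi)) (dvd_prod_of_mem m hi)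
    rw [free_full (hm a (mem_insert_self a s))
      (prod_ne_zero_iff.mpr fun i hi => hm i (mem_insert_of_mem hi))
      (Nat.Coprime.prod_right fun i hi => hc a (mem_insert_self a s) i (mem_insert_of_mem hi)
        (fun h => ha (h ▸ hi))) (hF a (mem_insert_self a s)) hP,
      ih (fun i hi => hm i (mem_insert_of_mem hi))
        (fun i hi j hj => hc i (mem_insert_of_mem hi) j (mem_insert_of_mem hj))
        (fun i hi => hF i (mem_insert_of_mem hi))]

/-- the sum of a periodic function over an interval -/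
private lemma free_box {Q : ℕ} (hQ : Q ≠ 0) {F : ℕ → ℝ} (hF : free_Per Q F) (hb : ∀ b, F b ≤ 1)
    (X : ℕ) : ∑ b ∈ range X, F b ≤ ((X / Q : ℕ) : ℝ) * ∑ b ∈ range Q, F b + Q := by
  have hX : Q * (X / Q) + X % Q = X := Nat.div_add_mod X Q
  have hr : X % Q < Q := Nat.mod_lt _ (Nat.pos_of_ne_zero hQ)
  set t := X / Q with ht
  set r := X % Q with hr'
  have hper : ∀ i a, F (Q * i + a) = F a := by
    intro i a
    rw [← hF (Q * i + a), ← hF a]
    simp
  rw [← hX, sum_range_add, Pool.Agent.Cohn2.blocks]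
  refine add_le_add (le_of_eq ?_) ?_
  · rw [sum_congr rfl fun i _ => sum_congr rfl fun a _ => hper i a]
    simp
  · refine (sum_le_sum fun b _ => hb (Q * t + b)).trans ?_
    simp only [sum_const, card_range, nsmul_eq_mul, mul_one]
    exact_mod_cast hr.le

section main

variable {k : ℕ} (G : Fin k → Finset ℕ) (f : ℕ → ℕ → ℝ) (M : ℕ → ℝ) (y : ℕ)
  (hdisj : ∀ i j, i ≠ j → Disjoint (G i) (G j)) (hpr : ∀ j, ∀ p ∈ G j, p.Prime)
  (hy : ∀ j, ∀ p ∈ G j, p ≤ y)
  (hper : ∀ j, ∀ p ∈ G j, free_Per (p * p) (f p))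
  (hbd : ∀ j, ∀ p ∈ G j, ∀ b, |f p b| ≤ 1)
  (hmean : ∀ j, ∀ p ∈ G j, ∑ b ∈ range (p * p), f p b = 0)
  (hM : ∀ j, ∀ p ∈ G j, 0 ≤ M p)
  (hsq : ∀ j, ∀ p ∈ G j, ∑ b ∈ range (p * p), f p b * f p b ≤ ((p * p : ℕ) : ℝ) * M p)

include hbd in
private lemma free_term_bd (φ : Fin k → ℕ × ℕ) (h1 : ∀ j, (φ j).1 ∈ G j) (h2 : ∀ j, (φ j).2 ∈ G j)
    (s : Finset (Fin k)) (b : ℕ) : |∏ j ∈ s, (f (φ j).1 b * f (φ j).2 b)| ≤ 1 := by
  rw [abs_prod]
  refine prod_le_one (fun j _ => abs_nonneg _) fun j _ => ?_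
  rw [abs_mul]
  exact mul_le_one₀ (hbd j _ (h1 j) b) (abs_nonneg _) (hbd j _ (h2 j) b)

private lemma free_cop {p r : ℕ} (hp : p.Prime) (hr : r.Prime) (h : r ≠ p) :
    (p * p).Coprime (r * r) := by
  have h3 : p.Coprime r := (Nat.coprime_primes hp hr).mpr (Ne.symm h)
  exact Nat.Coprime.mul_left (h3.mul_right h3) (h3.mul_right h3)

include hdisj hpr hy hper hbd hM hsq in
private lemma free_term_diag (φ : Fin k → ℕ × ℕ) (h1 : ∀ j, (φ j).1 ∈ G j)
    (h2 : ∀ j, (φ j).2 ∈ G j) (he : ∀ j, (φ j).1 = (φ j).2) (X : ℕ) :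
    ∑ b ∈ range X, ∏ j, (f (φ j).1 b * f (φ j).2 b) ≤
      X * ∏ j, M (φ j).1 + (y : ℝ) ^ (4 * k) := by
  classical
  have hF : ∀ b, ∏ j, (f (φ j).1 b * f (φ j).2 b) = ∏ j, (f (φ j).1 b * f (φ j).1 b) := by
    intro b
    exact prod_congr rfl fun j _ => by rw [← he j]
  have hQ0 : ∀ j, (φ j).1 * (φ j).1 ≠ 0 := fun j =>
    mul_ne_zero (hpr j _ (h1 j)).ne_zero (hpr j _ (h1 j)).ne_zero
  have hQ : ∏ j, ((φ j).1 * (φ j).1) ≠ 0 := prod_ne_zero_iff.mpr fun j _ => hQ0 j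
  have hper1 : ∀ j, free_Per ((φ j).1 * (φ j).1) (fun b => f (φ j).1 b * f (φ j).1 b) := fun j =>
    free_per_mul (hper j _ (h1 j)) (hper j _ (h1 j))
  have hPer : free_Per (∏ j, ((φ j).1 * (φ j).1))
      (fun b => ∏ j, (f (φ j).1 b * f (φ j).1 b)) :=
    free_per_prod univ fun j hj => free_of_dvd (hper1 j)
      (dvd_prod_of_mem (fun j => (φ j).1 * (φ j).1) hj)
  have hle1 : ∀ b, ∏ j, (f (φ j).1 b * f (φ j).1 b) ≤ 1 := by
    intro b
    rw [← hF b]
    exact (le_abs_self _).trans (free_term_bd G f hbd φ h1 h2 univ b)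
  have hfull := free_prod_full univ (fun j => (φ j).1 * (φ j).1)
    (fun j b => f (φ j).1 b * f (φ j).1 b) (fun j _ => hQ0 j)
    (fun i _ j _ hij => free_cop (hpr i _ (h1 i)) (hpr j _ (h1 j)) (by
      intro hh
      exact disjoint_left.mp (hdisj i j hij) (h1 i) (hh ▸ h1 j)))
    (fun j _ => hper1 j)
  have hbox := free_box hQ hPer hle1 X
  rw [hfull] at hbox
  rw [sum_congr rfl fun b _ => hF b]
  refine hbox.trans (add_le_add ?_ ?_)
  · have h3 : ∏ j, ∑ b ∈ range ((φ j).1 * (φ j).1), f (φ j).1 b * f (φ j).1 b ≤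
        ∏ j, ((((φ j).1 * (φ j).1 : ℕ) : ℝ) * M (φ j).1) :=
      prod_le_prod (fun j _ => sum_nonneg fun b _ => mul_self_nonneg _)
        fun j _ => hsq j _ (h1 j)
    have h4 : ((X / ∏ j, ((φ j).1 * (φ j).1) : ℕ) : ℝ) * ((∏ j, ((φ j).1 * (φ j).1) : ℕ) : ℝ) ≤ X := by
      exact_mod_cast Nat.div_mul_le_self X _
    have h5 : ∏ j, ((((φ j).1 * (φ j).1 : ℕ) : ℝ) * M (φ j).1) =
        ((∏ j, ((φ j).1 * (φ j).1) : ℕ) : ℝ) * ∏ j, M (φ j).1 := by
      rw [prod_mul_distrib]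
      push_cast
      rfl
    have h6 : 0 ≤ ∏ j, M (φ j).1 := prod_nonneg fun j _ => hM j _ (h1 j)
    calc ((X / ∏ j, ((φ j).1 * (φ j).1) : ℕ) : ℝ) *
          ∏ j, ∑ b ∈ range ((φ j).1 * (φ j).1), f (φ j).1 b * f (φ j).1 b
        ≤ ((X / ∏ j, ((φ j).1 * (φ j).1) : ℕ) : ℝ) *
          (((∏ j, ((φ j).1 * (φ j).1) : ℕ) : ℝ) * ∏ j, M (φ j).1) := by
          rw [← h5]
          exact mul_le_mul_of_nonneg_left h3 (Nat.cast_nonneg _)
      _ = (((X / ∏ j, ((φ j).1 * (φ j).1) : ℕ) : ℝ) *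
          ((∏ j, ((φ j).1 * (φ j).1) : ℕ) : ℝ)) * ∏ j, M (φ j).1 := by ring
      _ ≤ X * ∏ j, M (φ j).1 := mul_le_mul_of_nonneg_right h4 h6
  · have h3 : ∏ j, ((φ j).1 * (φ j).1) ≤ y ^ (4 * k) := by
      refine (prod_le_prod' fun j _ => ?_ : _ ≤ ∏ _j : Fin k, y ^ 4).trans ?_
      · have h5 := hy j _ (h1 j)
        have h6 : 1 ≤ y := (hpr j _ (h1 j)).one_lt.le.trans h5
        calc (φ j).1 * (φ j).1 ≤ y * y := Nat.mul_le_mul h5 h5
          _ = y ^ 2 := (sq y).symm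
          _ ≤ y ^ 4 := Nat.pow_le_pow_right h6 (by norm_num)
      · rw [prod_const, card_univ, Fintype.card_fin, ← pow_mul]
    exact_mod_cast h3

include hdisj hpr hy hper hbd hmean in
private lemma free_term_off (φ : Fin k → ℕ × ℕ) (h1 : ∀ j, (φ j).1 ∈ G j)
    (h2 : ∀ j, (φ j).2 ∈ G j) (hne : ∃ j, (φ j).1 ≠ (φ j).2) (X : ℕ) :
    ∑ b ∈ range X, ∏ j, (f (φ j).1 b * f (φ j).2 b) ≤ (y : ℝ) ^ (4 * k) := by
  classical
  obtain ⟨j0, hj0⟩ := hne
  set p := (φ j0).1 with hp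
  set q := (φ j0).2 with hq
  have hpp := hpr j0 p (h1 j0)
  have hqq := hpr j0 q (h2 j0)
  let n : ℕ := (q * q) * ∏ j ∈ univ.erase j0, ((φ j).1 * (φ j).1 * ((φ j).2 * (φ j).2))
  let R : ℕ → ℝ := fun b => f q b * ∏ j ∈ univ.erase j0, (f (φ j).1 b * f (φ j).2 b)
  have hfac : ∀ b, ∏ j, (f (φ j).1 b * f (φ j).2 b) = f p b * R b := by
    intro b
    rw [← mul_prod_erase univ _ (mem_univ j0)]
    show f p b * f q b * _ = f p b * (f q b * _)
    rw [mul_assoc]
  have hRper : free_Per n R := by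
    refine free_per_mul (free_of_dvd (hper j0 q (h2 j0)) (Dvd.intro _ rfl)) ?_
    refine free_per_prod _ fun j hj => ?_
    have hd : (φ j).1 * (φ j).1 * ((φ j).2 * (φ j).2) ∣ n :=
      (dvd_prod_of_mem (fun j => (φ j).1 * (φ j).1 * ((φ j).2 * (φ j).2)) hj).trans
        (Dvd.intro_left _ rfl)
    exact free_per_mul (free_of_dvd (hper j _ (h1 j)) ((Dvd.intro _ rfl).trans hd))
      (free_of_dvd (hper j _ (h2 j)) ((Dvd.intro_left _ rfl).trans hd))
  have hcop : (p * p).Coprime n := by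
    refine Nat.Coprime.mul_right (free_cop hpp hqq (Ne.symm hj0)) ?_
    refine Nat.Coprime.prod_right fun j hj => ?_
    have hj' : j ≠ j0 := (mem_erase.mp hj).1
    have h3 : ∀ r ∈ G j, r ≠ p := by
      rintro r hr rfl
      exact disjoint_left.mp (hdisj j j0 hj') hr (h1 j0)
    exact Nat.Coprime.mul_right (free_cop hpp (hpr j _ (h1 j)) (h3 _ (h1 j)))
      (free_cop hpp (hpr j _ (h2 j)) (h3 _ (h2 j)))
  have hp0 : p * p ≠ 0 := mul_ne_zero hpp.ne_zero hpp.ne_zero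
  have hn0 : n ≠ 0 := by
    refine mul_ne_zero (mul_ne_zero hqq.ne_zero hqq.ne_zero) (prod_ne_zero_iff.mpr fun j _ => ?_)
    have h3 := (hpr j _ (h1 j)).ne_zero
    have h4 := (hpr j _ (h2 j)).ne_zero
    exact mul_ne_zero (mul_ne_zero h3 h3) (mul_ne_zero h4 h4)
  have hsize : ((p * p * n : ℕ) : ℝ) ≤ (y : ℝ) ^ (4 * k) := by
    have h3 : p * p * n ≤ y ^ (4 * k) := by
      have h4 : p * p * n = ∏ j, ((φ j).1 * (φ j).1 * ((φ j).2 * (φ j).2)) := by
        rw [← mul_prod_erase univ _ (mem_univ j0)]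
        show p * p * ((q * q) * _) = p * p * (q * q) * _
        ring
      rw [h4]
      refine (prod_le_prod' fun j _ => ?_ : _ ≤ ∏ _j : Fin k, y ^ 4).trans ?_
      · have h5 := hy j _ (h1 j)
        have h6 := hy j _ (h2 j)
        calc (φ j).1 * (φ j).1 * ((φ j).2 * (φ j).2) ≤ y * y * (y * y) :=
              Nat.mul_le_mul (Nat.mul_le_mul h5 h5) (Nat.mul_le_mul h6 h6)
          _ = y ^ 4 := by ring
      · rw [prod_const, card_univ, Fintype.card_fin, ← pow_mul]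
    exact_mod_cast h3
  have hFper : free_Per (p * p * n) (fun b => f p b * R b) :=
    free_per_mul (free_of_dvd (hper j0 p (h1 j0)) (Dvd.intro _ rfl))
      (free_of_dvd hRper (Dvd.intro_left _ rfl))
  have hF1 : ∀ b, f p b * R b ≤ 1 := by
    intro b
    rw [← hfac]
    exact (le_abs_self _).trans (free_term_bd G f hbd φ h1 h2 univ b)
  have h3 := free_box (mul_ne_zero hp0 hn0) hFper hF1 X
  rw [free_full hp0 hn0 hcop (hper j0 p (h1 j0)) hRper, hmean j0 p (h1 j0), zero_mul, mul_zero,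
    zero_add] at h3
  rw [sum_congr rfl fun b _ => hfac b]
  exact h3.trans hsize

include hdisj hpr hy hper hbd hmean hM hsq in
/-- the moment inequality -/
private theorem free_moment (X : ℕ) : ∑ b ∈ range X, ∏ j, (∑ p ∈ G j, f p b) ^ 2 ≤
    X * ∏ j, ∑ p ∈ G j, M p + (∏ j, ((G j).card : ℝ)) ^ 2 * (y : ℝ) ^ (4 * k) := by
  classical
  have h1 : ∀ b, ∏ j, (∑ p ∈ G j, f p b) ^ 2 =
      ∑ φ ∈ Fintype.piFinset (fun j => G j ×ˢ G j), ∏ j, (f (φ j).1 b * f (φ j).2 b) := by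
    intro b
    have h2 := prod_univ_sum (fun j => G j ×ˢ G j) fun (_ : Fin k) (x : ℕ × ℕ) =>
      f x.1 b * f x.2 b
    rw [← h2]
    refine prod_congr rfl fun j _ => ?_
    rw [sq, sum_mul_sum, sum_product]
  have h2 : ∑ b ∈ range X, ∏ j, (∑ p ∈ G j, f p b) ^ 2 =
      ∑ φ ∈ Fintype.piFinset (fun j => G j ×ˢ G j),
        ∑ b ∈ range X, ∏ j, (f (φ j).1 b * f (φ j).2 b) := by
    rw [sum_congr rfl fun b _ => h1 b, sum_comm]
  have hmem : ∀ φ ∈ Fintype.piFinset (fun j => G j ×ˢ G j),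
      (∀ j, (φ j).1 ∈ G j) ∧ ∀ j, (φ j).2 ∈ G j := by
    intro φ hφ
    rw [Fintype.mem_piFinset] at hφ
    exact ⟨fun j => (mem_product.mp (hφ j)).1, fun j => (mem_product.mp (hφ j)).2⟩
  have h3 : ∀ φ ∈ Fintype.piFinset (fun j => G j ×ˢ G j),
      ∑ b ∈ range X, ∏ j, (f (φ j).1 b * f (φ j).2 b) ≤
        (if ∀ j, (φ j).1 = (φ j).2 then X * ∏ j, M (φ j).1 else 0) + (y : ℝ) ^ (4 * k) := by
    intro φ hφ
    obtain ⟨h4, h5⟩ := hmem φ hφ
    split_ifs with he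
    · exact free_term_diag G f M y hdisj hpr hy hper hbd hM hsq φ h4 h5 he X
    · rw [zero_add]
      push Not at he
      exact free_term_off G f y hdisj hpr hy hper hbd hmean φ h4 h5 he X
  rw [h2]
  refine (sum_le_sum h3).trans ?_
  rw [sum_add_distrib]
  refine add_le_add (le_of_eq ?_) (le_of_eq ?_)
  · rw [← sum_filter]
    have h4 : (Fintype.piFinset (fun j => G j ×ˢ G j)).filter
        (fun φ : Fin k → ℕ × ℕ => ∀ j, (φ j).1 = (φ j).2) =
        Fintype.piFinset (fun j => (G j).diag) := by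
      ext φ
      simp only [mem_filter, Fintype.mem_piFinset, mem_product, mem_diag]
      constructor
      · rintro ⟨h4, h5⟩ j
        exact ⟨(h4 j).1, h5 j⟩
      · intro h4
        exact ⟨fun j => ⟨(h4 j).1, (h4 j).2 ▸ (h4 j).1⟩, fun j => (h4 j).2⟩
    rw [h4, ← mul_sum]
    congr 1
    have h5 := prod_univ_sum (fun j => (G j).diag) fun (_ : Fin k) (x : ℕ × ℕ) => M x.1
    rw [← h5]
    refine prod_congr rfl fun j _ => ?_
    simp [Finset.diag]
  · rw [sum_const, nsmul_eq_mul]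
    congr 1
    rw [Fintype.card_piFinset, ← prod_pow]
    push_cast
    exact prod_congr rfl fun j _ => by rw [card_product, sq]; push_cast; rfl

end main

open Classical in
theorem thm_free : St_free := by
  intro P k g y μ K hμ hg hcard hP X
  obtain ⟨G, hdisj, hGP, hGc⟩ := Pool.Agent.Cohn2.exists_groups P k g hcard
  let o : ℕ → ℕ → ℝ := fun p b => if K p b then 1 else 0
  let m : ℕ → ℝ := fun p => (((range (p * p)).filter fun b => K p b).card : ℝ) / ((p : ℝ) * p)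
  let f : ℕ → ℕ → ℝ := fun p b => o p b - m p
  have hoK : ∀ p b, o p b = 0 ∨ o p b = 1 := by
    intro p b
    show (if K p b then (1 : ℝ) else 0) = 0 ∨ (if K p b then (1 : ℝ) else 0) = 1
    split_ifs
    · exact Or.inr rfl
    · exact Or.inl rfl
  have hosum : ∀ p, ∑ b ∈ range (p * p), o p b =
      (((range (p * p)).filter fun b => K p b).card : ℝ) := by
    intro p
    show ∑ b ∈ range (p * p), (if K p b then (1 : ℝ) else 0) = _
    rw [sum_boole]
  have hm0 : ∀ p, 0 ≤ m p := fun p => div_nonneg (Nat.cast_nonneg _) (by positivity)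
  have hm1 : ∀ p, m p ≤ 1 := by
    intro p
    refine div_le_one_of_le₀ ?_ (by positivity)
    have h1 : ((range (p * p)).filter fun b => K p b).card ≤ p * p :=
      (card_filter_le _ _).trans (by rw [card_range])
    exact_mod_cast h1
  have hmul : ∀ p, p.Prime → (((range (p * p)).filter fun b => K p b).card : ℝ) =
      ((p : ℝ) * p) * m p := by
    intro p hp
    have hp0 : (p : ℝ) ≠ 0 := by exact_mod_cast hp.ne_zero
    show _ = ((p : ℝ) * p) * (_ / ((p : ℝ) * p))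
    field_simp
  have hpr : ∀ j, ∀ p ∈ G j, p.Prime := fun j p hp => (hP p (hGP j hp)).1
  have hper : ∀ j, ∀ p ∈ G j, free_Per (p * p) (f p) := by
    intro j p hp b
    have h1 := (hP p (hGP j hp)).2.2.1 b
    show (if K p (b % (p * p)) then (1 : ℝ) else 0) - m p = (if K p b then (1 : ℝ) else 0) - m p
    by_cases hK : K p b
    · rw [if_pos hK, if_pos (h1.mpr hK)]
    · rw [if_neg hK, if_neg (fun h => hK (h1.mp h))]
  have hbd : ∀ j, ∀ p ∈ G j, ∀ b, |f p b| ≤ 1 := by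
    intro j p _ b
    have h3 := hm0 p
    have h4 := hm1 p
    show |o p b - m p| ≤ 1
    rw [abs_le]
    rcases hoK p b with h | h <;> rw [h] <;> constructor <;> linarith
  have hmean : ∀ j, ∀ p ∈ G j, ∑ b ∈ range (p * p), f p b = 0 := by
    intro j p hp
    show ∑ b ∈ range (p * p), (o p b - m p) = 0
    rw [sum_sub_distrib, hosum, hmul p (hpr j p hp), sum_const, card_range, nsmul_eq_mul]
    push_cast
    ring
  have hsq : ∀ j, ∀ p ∈ G j, ∑ b ∈ range (p * p), f p b * f p b ≤ ((p * p : ℕ) : ℝ) * m p := by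
    intro j p hp
    have h1 : ∀ b, f p b * f p b = o p b - 2 * m p * o p b + m p ^ 2 := by
      intro b
      show (o p b - m p) * (o p b - m p) = _
      rcases hoK p b with h | h <;> rw [h] <;> ring
    rw [sum_congr rfl fun b _ => h1 b, sum_add_distrib, sum_sub_distrib, ← mul_sum, hosum,
      hmul p (hpr j p hp), sum_const, card_range, nsmul_eq_mul]
    push_cast
    have h2 : 0 ≤ ((p : ℝ) * p) * m p ^ 2 := by positivity
    nlinarith [h2]
  have hmom := free_moment G f m y hdisj hpr (fun j p hp => (hP p (hGP j hp)).2.1) hper hbd hmean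
    (fun j p _ => hm0 p) hsq X
  set S : Fin k → ℝ := fun j => ∑ p ∈ G j, m p with hS
  have hg0 : (0 : ℝ) < g := by exact_mod_cast hg
  have hgμ : 0 < (g : ℝ) * μ := mul_pos hg0 hμ
  have hSge : ∀ j, (g : ℝ) * μ ≤ S j := by
    intro j
    have h6 : ∑ _p ∈ G j, μ ≤ ∑ p ∈ G j, m p := by
      refine sum_le_sum fun p hp => ?_
      have h7 := (hP p (hGP j hp)).2.2.2
      have hp0 : (0 : ℝ) < p := by exact_mod_cast (hpr j p hp).pos
      show μ ≤ _ / ((p : ℝ) * p)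
      rw [le_div_iff₀ (by positivity)]
      exact h7
    rw [sum_const, hGc, nsmul_eq_mul] at h6
    exact h6
  have hSpos : ∀ j, 0 < S j := fun j => hgμ.trans_le (hSge j)
  have hPipos : 0 < ∏ j, S j := prod_pos fun j _ => hSpos j
  have hPige : ((g : ℝ) * μ) ^ k ≤ ∏ j, S j := by
    have h2 : ((g : ℝ) * μ) ^ k = ∏ _j : Fin k, ((g : ℝ) * μ) := by
      rw [prod_const, card_univ, Fintype.card_fin]
    rw [h2]
    exact prod_le_prod (fun j _ => hgμ.le) fun j _ => hSge j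
  have hlow : (((range X).filter fun b => ∀ p ∈ P, ¬ K p b).card : ℝ) * (∏ j, S j) ^ 2 ≤
      ∑ b ∈ range X, ∏ j, (∑ p ∈ G j, f p b) ^ 2 := by
    have h1 : ∀ b ∈ (range X).filter fun b => ∀ p ∈ P, ¬ K p b,
        ∏ j, (∑ p ∈ G j, f p b) ^ 2 = (∏ j, S j) ^ 2 := by
      intro b hb
      rw [← prod_pow]
      refine prod_congr rfl fun j _ => ?_
      have h3 : ∑ p ∈ G j, f p b = - S j := by
        rw [hS]
        show _ = - ∑ p ∈ G j, m p
        rw [← sum_neg_distrib]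
        refine sum_congr rfl fun p hp => ?_
        have h4 := (mem_filter.mp hb).2 p (hGP j hp)
        show (if K p b then (1 : ℝ) else 0) - m p = - m p
        rw [if_neg h4]
        ring
      rw [h3, neg_sq]
    calc (((range X).filter fun b => ∀ p ∈ P, ¬ K p b).card : ℝ) * (∏ j, S j) ^ 2
        = ∑ b ∈ (range X).filter fun b => ∀ p ∈ P, ¬ K p b, ∏ j, (∑ p ∈ G j, f p b) ^ 2 := by
          rw [sum_congr rfl h1, sum_const, nsmul_eq_mul]
      _ ≤ _ := sum_le_sum_of_subset_of_nonneg (filter_subset _ _) fun x _ _ =>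
            prod_nonneg fun j _ => sq_nonneg _
  have h2 := hlow.trans hmom
  simp only [hGc, prod_const, card_univ, Fintype.card_fin] at h2
  have h3 : (((range X).filter fun b => ∀ p ∈ P, ¬ K p b).card : ℝ) ≤
      (X * ∏ j, S j + ((g : ℝ) ^ k) ^ 2 * (y : ℝ) ^ (4 * k)) / (∏ j, S j) ^ 2 := by
    rw [le_div_iff₀ (pow_pos hPipos 2)]
    exact h2
  refine h3.trans ?_
  have h4 : (X * ∏ j, S j + ((g : ℝ) ^ k) ^ 2 * (y : ℝ) ^ (4 * k)) / (∏ j, S j) ^ 2 =
      X / (∏ j, S j) + ((g : ℝ) ^ k) ^ 2 * (y : ℝ) ^ (4 * k) / (∏ j, S j) ^ 2 := by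
    field_simp
  rw [h4]
  have hpk : 0 < ((g : ℝ) * μ) ^ k := pow_pos hgμ k
  refine add_le_add ?_ ?_
  · calc (X : ℝ) / (∏ j, S j) ≤ X / ((g : ℝ) * μ) ^ k :=
          div_le_div_of_nonneg_left (Nat.cast_nonneg X) hpk hPige
      _ = X * (1 / (g * μ)) ^ k := by
          rw [one_div, inv_pow, div_eq_mul_inv]
  · have h5 : ((g : ℝ) ^ k) ^ 2 * (y : ℝ) ^ (4 * k) / (∏ j, S j) ^ 2 ≤
        ((g : ℝ) ^ k) ^ 2 * (y : ℝ) ^ (4 * k) / (((g : ℝ) * μ) ^ k) ^ 2 :=
      div_le_div_of_nonneg_left (by positivity) (pow_pos hpk 2)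
        (pow_le_pow_left₀ hpk.le hPige 2)
    refine h5.trans ?_
    have h6 : ((g : ℝ) ^ k) ^ 2 * (y : ℝ) ^ (4 * k) / (((g : ℝ) * μ) ^ k) ^ 2 =
        ((y : ℝ) ^ 4 / μ ^ 2) ^ k := by
      rw [div_pow, ← pow_mul, ← pow_mul, ← pow_mul, ← pow_mul, mul_comm 2 k, mul_pow]
      have h7 : (g : ℝ) ^ (k * 2) ≠ 0 := by positivity
      have h8 : μ ^ (k * 2) ≠ 0 := by positivity
      field_simp
    rw [h6]
    have h7 : 0 ≤ ((y : ℝ) ^ 4 / μ ^ 2) ^ k := by positivity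
    linarith

end Pool.Agent.CFB
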