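import Mathlib
import Pool.Agent.CFB.St

/-!
# CFB, LL: the number of primes of medium size
-/

set_option autoImplicit false

namespace Pool.Agent.CFB

open Finset Filter

theorem thm_LL : St_LL := by
  intro δ hδ hδ1
  have hT : Tendsto (fun N : ℕ => (N : ℝ)) atTop atTop := tendsto_natCast_atTop_atTop
  have e1 : ∀ᶠ N : ℕ in atTop, 100 ≤ (N : ℝ) ^ (1 / 2 - δ) :=
    ((tendsto_rpow_atTop (by linarith : (0 : ℝ) < 1 / 2 - δ)).comp hT).eventually_ge_atTop 100
  have e2 : ∀ᶠ N : ℕ in atTop, 1 ≤ Real.log N :=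
    (Real.tendsto_log_atTop.comp hT).eventually_ge_atTop 1
  have e3 : ∀ᶠ N : ℕ in atTop, Real.log N ≤ 1 / 100 * (N : ℝ) ^ δ := by
    have h := (isLittleO_log_rpow_atTop hδ).bound (by norm_num : (0 : ℝ) < 1 / 100)
    filter_upwards [hT.eventually h, e2] with N h1 h2
    rw [Real.norm_of_nonneg (by linarith), Real.norm_of_nonneg (by positivity)] at h1
    exact h1
  filter_upwards [e1, e2, e3, eventually_ge_atTop 2] with N h1 h2 h3 hN2
  have hN : (2 : ℝ) ≤ N := by exact_mod_cast hN2
  have hN0 : (0 : ℝ) < N := by linarith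
  obtain ⟨H, hH⟩ : ∃ H : ℝ, H = (N : ℝ) ^ (1 / 2 - δ) := ⟨_, rfl⟩
  obtain ⟨n, hn⟩ : ∃ n : ℕ, n = ⌊H⌋₊ := ⟨_, rfl⟩
  have hH100 : 100 ≤ H := by rw [hH]; exact h1
  have hn1 : (n : ℝ) ≤ H := by rw [hn]; exact Nat.floor_le (by linarith)
  have hn2 : H < n + 1 := by rw [hn]; exact Nat.lt_floor_add_one H
  have hn99 : (99 : ℝ) ≤ n := by linarith
  -- lower bound for pi(n)
  have hpi := Chebyshev.pi_ge n
  have hlogn : 0 < Real.log n := Real.log_pos (by linarith)
  have hlogN : 0 < Real.log N := by linarith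
  have hlogn2 : Real.log n ≤ 1 / 2 * Real.log N := by
    calc Real.log n ≤ Real.log H := Real.log_le_log (by linarith) hn1
      _ = (1 / 2 - δ) * Real.log N := by rw [hH, Real.log_rpow hN0]
      _ ≤ 1 / 2 * Real.log N := mul_le_mul_of_nonneg_right (by linarith) hlogN.le
  have hl2 : (0.69 : ℝ) < Real.log 2 := by linarith [Real.log_two_gt_d9]
  have hlog1 : Real.log (n + 1) ≤ 1 / 100 * n + 4 := by
    have hx : Real.log ((n + 1 : ℝ) / 100) ≤ (n + 1 : ℝ) / 100 - 1 :=
      Real.log_le_sub_one_of_pos (by positivity)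
    rw [Real.log_div (by positivity) (by norm_num)] at hx
    have h100 : Real.log 100 < 4.9 := by
      have h128 : Real.log 100 ≤ Real.log (2 ^ 7) :=
        Real.log_le_log (by norm_num) (by norm_num)
      rw [Real.log_pow] at h128
      push_cast at h128
      linarith [Real.log_two_lt_d9]
    linarith
  have hpi2 : H / Real.log N ≤ (Nat.primeCounting n : ℝ) := by
    refine le_trans ?_ hpi
    rw [div_le_div_iff₀ (by linarith) hlogn]
    have h5 : 0.5 * H ≤ n * Real.log 2 - Real.log (n + 1) := by nlinarith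
    calc H * Real.log n ≤ H * (1 / 2 * Real.log N) := by
          refine mul_le_mul_of_nonneg_left hlogn2 (by linarith)
      _ = (0.5 * H) * Real.log N := by ring
      _ ≤ (n * Real.log 2 - Real.log (n + 1)) * Real.log N :=
          mul_le_mul_of_nonneg_right h5 (by linarith)
  -- the small primes
  obtain ⟨lo, hlo⟩ : ∃ lo : ℝ, lo = (N : ℝ) ^ (1 / 2 - 2 * δ) := ⟨_, rfl⟩
  have hlo1 : 1 ≤ lo := by rw [hlo]; exact Real.one_le_rpow (by linarith) (by linarith)
  have hlH : lo * (N : ℝ) ^ δ = H := by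
    rw [hlo, hH, ← Real.rpow_add hN0]
    congr 1
    ring
  have hsm : lo + 1 ≤ H / (2 * Real.log N) := by
    rw [le_div_iff₀ (by linarith)]
    rw [← hlH]
    nlinarith
  have hHN : H ≤ N := by
    rw [hH]
    calc (N : ℝ) ^ (1 / 2 - δ) ≤ (N : ℝ) ^ (1 : ℝ) :=
          Real.rpow_le_rpow_of_exponent_le (by linarith) (by linarith)
      _ = N := Real.rpow_one _
  have hnN : n ≤ N := by exact_mod_cast hn1.trans hHN
  have hsub : (range (n + 1)).filter Nat.Prime ⊆ LL δ N ∪ range (⌊lo⌋₊ + 1) := by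
    intro p hp
    rw [mem_filter, mem_range] at hp
    rw [mem_union]
    by_cases hpl : (p : ℝ) ≤ lo
    · right
      rw [mem_range]
      have := Nat.le_floor hpl
      omega
    · left
      unfold LL
      rw [mem_filter, mem_range]
      refine ⟨by omega, hp.2, by rw [← hlo]; exact not_le.1 hpl, ?_⟩
      rw [← hH]
      refine le_trans ?_ hn1
      exact_mod_cast (by omega : p ≤ n)
  have hcard := card_le_card hsub
  have hcu := card_union_le (LL δ N) (range (⌊lo⌋₊ + 1))
  have hpc : Nat.primeCounting n = ((range (n + 1)).filter Nat.Prime).card := by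
    unfold Nat.primeCounting Nat.primeCounting'
    rw [Nat.count_eq_card_filter_range]
  rw [card_range] at hcu
  have h6 : Nat.primeCounting n ≤ (LL δ N).card + (⌊lo⌋₊ + 1) := by omega
  have h7 : (Nat.primeCounting n : ℝ) ≤ (LL δ N).card + (⌊lo⌋₊ + 1) := by exact_mod_cast h6
  have h8 : (⌊lo⌋₊ : ℝ) ≤ lo := Nat.floor_le (by linarith)
  have h9 : H / Real.log N = H / (2 * Real.log N) + H / (2 * Real.log N) := by
    field_simp
    norm_num
  rw [← hH]
  linarith

end Pool.Agent.CFB
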