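import Pool.Agent.CFB.St

/-!
# CFB, module `mul`: a small common multiple of the smooth numbers up to `N`
-/

set_option autoImplicit false

namespace Pool.Agent.CFB

open Finset

theorem thm_mul : St_mul := by
  intro N y hN
  have hN0 : N ≠ 0 := by omega
  set P : Finset ℕ := (Icc 1 y).filter Nat.Prime with hP
  have hprime : ∀ q ∈ P, q.Prime := fun q hq => (mem_filter.1 hq).2
  have hpos : ∀ q ∈ P, 0 < q ^ Nat.log q N := fun q hq => pow_pos (hprime q hq).pos _
  refine ⟨∏ q ∈ P, q ^ Nat.log q N, Finset.prod_pos hpos, ?_, ?_⟩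
  · rw [Nat.cast_prod, Real.log_prod (fun q hq => by
      have := hpos q hq
      exact_mod_cast this.ne')]
    have h1 : ∀ q ∈ P, Real.log ((q ^ Nat.log q N : ℕ) : ℝ) ≤ Real.log N := by
      intro q hq
      refine Real.log_le_log (by exact_mod_cast hpos q hq) ?_
      exact_mod_cast Nat.pow_log_le_self q hN0
    refine (Finset.sum_le_sum h1).trans ?_
    rw [Finset.sum_const, nsmul_eq_mul]
    have h2 : (P.card : ℝ) ≤ y := by
      have : P.card ≤ (Icc 1 y).card := Finset.card_filter_le _ _
      rw [Nat.card_Icc] at this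
      exact_mod_cast (by omega : P.card ≤ y)
    refine mul_le_mul_of_nonneg_right h2 (Real.log_nonneg ?_)
    exact_mod_cast (by omega : 1 ≤ N)
  · intro m hm hmN hsm
    have h3 : m = ∏ q ∈ m.primeFactors, q ^ m.factorization q :=
      (Nat.factorization_prod_pow_eq_self hm.ne').symm
    have h4 : ∏ q ∈ m.primeFactors, q ^ m.factorization q ∣
        ∏ q ∈ m.primeFactors, q ^ Nat.log q N := by
      refine Finset.prod_dvd_prod_of_dvd _ _ fun q hq => ?_
      have hq' := Nat.prime_of_mem_primeFactors hq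
      refine pow_dvd_pow q ?_
      refine Nat.le_log_of_pow_le hq'.one_lt ?_
      exact (Nat.le_of_dvd hm (Nat.ordProj_dvd m q)).trans hmN
    have h5 : ∏ q ∈ m.primeFactors, q ^ Nat.log q N ∣ ∏ q ∈ P, q ^ Nat.log q N := by
      refine Finset.prod_dvd_prod_of_subset _ _ _ fun q hq => ?_
      have hq' := Nat.prime_of_mem_primeFactors hq
      exact mem_filter.2 ⟨mem_Icc.2 ⟨hq'.one_le, hsm q hq' (Nat.dvd_of_mem_primeFactors hq)⟩, hq'⟩
    rw [h3]
    exact h4.trans h5

end Pool.Agent.CFB
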