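import Pool.Agent.CFB.St
import Pool.Agent.Cohn2.Obs

/-!
# CFB, module obs: periodicity of the obstruction, and the obstruction theorem
-/

set_option autoImplicit false

namespace Pool.Agent.CFB

open Finset
open Pool.Agent.Cohn2 (fq jac_eq jac_one_ne fq_add fq_zero_mod jac_block pow_mod_eq
  pow_prime_step unit_part)

section prime

variable {p : ℕ} [hp : Fact p.Prime]

/-! ## periodicity -/

private lemma obs_block (a c n j i i' : ℕ) (hi : i % p = i' % p)
    (h : Obs a c p n (p * i + j)) : Obs a c p n (p * i' + j) := by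
  obtain ⟨h1, h2⟩ := h
  have h1' : jacobiSym ((p * i + j : ℕ) : ℤ) p = 1 := h1
  rw [jac_block] at h1'
  refine ⟨?_, ?_⟩
  · show jacobiSym ((p * i' + j : ℕ) : ℤ) p = 1
    rw [jac_block]
    exact h1'
  · have e1 : jacobiSym ((((p * i' + j : ℕ) : ℤ)) ^ n - 1) p =
        jacobiSym ((((p * i + j : ℕ) : ℤ)) ^ n - 1) p := by
      rw [jac_eq, jac_eq]
      push_cast
      simp
    have e2 : (p : ℤ) ∣ (((p * i' + j : ℕ) : ℤ)) ^ n - 1 ↔
        (p : ℤ) ∣ (((p * i + j : ℕ) : ℤ)) ^ n - 1 := by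
      rw [fq_zero_mod, fq_zero_mod]
    have e3 : jacobiSym (fq p (p * i' + j)) p = jacobiSym (fq p (p * i + j)) p := by
      rw [jac_eq, jac_eq, fq_add j i (jac_one_ne h1'), fq_add j i' (jac_one_ne h1')]
      have h3 : (i : ZMod p) = (i' : ZMod p) := by
        rw [ZMod.natCast_eq_natCast_iff]
        exact hi
      rw [h3]
    rcases h2 with ⟨h3, h4⟩ | ⟨h3, h4, h5, h6⟩
    · exact Or.inl ⟨h3, e1.trans h4⟩
    · exact Or.inr ⟨h3, e2.mpr h4, by rw [e3]; exact h5, by rw [e3]; exact h6⟩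

private lemma obs_exp (a c b : ℕ) (ha : jacobiSym a p = 1) {n n' : ℕ}
    (h : n % (p - 1) = n' % (p - 1)) (ho : Obs a c p n b) : Obs a c p n' b := by
  obtain ⟨h1, h2⟩ := ho
  have key : ∀ d : ℕ, jacobiSym (d : ℤ) p = 1 →
      (((d : ℤ) ^ n - 1 : ℤ) : ZMod p) = (((d : ℤ) ^ n' - 1 : ℤ) : ZMod p) := by
    intro d hd
    have h3 := pow_mod_eq (jac_one_ne hd) h
    push_cast at h3 ⊢
    rw [h3]
  have kd : ∀ d : ℕ, jacobiSym (d : ℤ) p = 1 →
      ((p : ℤ) ∣ (d : ℤ) ^ n - 1 ↔ (p : ℤ) ∣ (d : ℤ) ^ n' - 1) := by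
    intro d hd
    rw [← ZMod.intCast_zmod_eq_zero_iff_dvd, ← ZMod.intCast_zmod_eq_zero_iff_dvd, key d hd]
  have kj : ∀ d : ℕ, jacobiSym (d : ℤ) p = 1 →
      jacobiSym ((d : ℤ) ^ n - 1) p = jacobiSym ((d : ℤ) ^ n' - 1) p := by
    intro d hd
    rw [jac_eq, jac_eq, key d hd]
  refine ⟨h1, ?_⟩
  rw [← kd a ha, ← kj a ha, ← kd b h1, ← kj b h1]
  exact h2

/-! ## the obstruction -/

private lemma obs_pow_unit (hp2 : p ≠ 2) (u : ℤ) (m s t : ℕ) :
    ∃ w : ℤ, (1 + p ^ (s + 1) * u) ^ (p ^ t * m) = 1 + p ^ (s + 1 + t) * w ∧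
      (p : ℤ) ∣ w - m * u := by
  induction t with
  | zero =>
    obtain ⟨k, hk⟩ := Polynomial.powAddExpansion (1 : ℤ) (p ^ (s + 1) * u) m
    refine ⟨m * u + k * (p ^ (s + 1) * u ^ 2), ?_, ⟨k * (p ^ s * u ^ 2), by ring⟩⟩
    rw [pow_zero, one_mul, hk]
    simp only [one_pow]
    ring
  | succ t ih =>
    obtain ⟨w, hw, hd⟩ := ih
    obtain ⟨c, hc⟩ := pow_prime_step hp2 (p ^ (s + 1 + t) * w) ⟨p ^ (s + t) * w, by ring⟩
    refine ⟨w * (1 + p * c), ?_, ?_⟩
    · have h1 : p ^ (t + 1) * m = p ^ t * m * p := by ring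
      rw [h1, pow_mul, hw, hc]
      ring
    · obtain ⟨d, hd⟩ := hd
      exact ⟨d + w * c, by linear_combination hd⟩

/-- the unit part of `a^n - 1` if `a^(p-1) = 1 + p^(s+1) u` -/
private lemma obs_unit_part (hp2 : p ≠ 2) {a : ℕ} {u : ℤ} {m s t : ℕ}
    (hu : (a : ℤ) ^ (p - 1) = 1 + p ^ (s + 1) * u)
    (hd : (p : ℤ) ∣ (a : ℤ) ^ (p ^ t * m) - 1) :
    ∃ w σ : ℤ, ((a : ℤ) ^ (p ^ t * m) - 1) * σ = p ^ (s + 1 + t) * w ∧ (p : ℤ) ∣ σ + 1 ∧
      (p : ℤ) ∣ w - m * u := by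
  obtain ⟨w, hw, hwd⟩ := obs_pow_unit hp2 u m s t
  refine ⟨w, ∑ i ∈ range (p - 1), ((a : ℤ) ^ (p ^ t * m)) ^ i, ?_, ?_, hwd⟩
  · rw [mul_comm, geom_sum_mul, ← pow_mul, mul_comm (p ^ t * m), pow_mul, hu, hw]
    ring
  · rw [← ZMod.intCast_zmod_eq_zero_iff_dvd] at hd ⊢
    push_cast at hd ⊢
    have h2 : ((a : ZMod p)) ^ (p ^ t * m) = 1 := by linear_combination hd
    rw [h2]
    simp only [one_pow, sum_const, card_range, nsmul_eq_mul, mul_one]
    rw [Nat.cast_sub hp.out.one_lt.le]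
    simp

private lemma obs_jac_ne {x : ℤ} (h : ¬ (p : ℤ) ∣ x) : jacobiSym x p ≠ 0 := by
  rw [jac_eq, Ne, quadraticChar_eq_zero_iff, ZMod.intCast_zmod_eq_zero_iff_dvd]
  exact h

private lemma obs_jac_sq {x : ℤ} (h : ¬ (p : ℤ) ∣ x) : jacobiSym x p ^ 2 = 1 := by
  rcases jacobiSym.trichotomy x p with h1 | h1 | h1
  · exact absurd h1 (obs_jac_ne h)
  · rw [h1]; norm_num
  · rw [h1]; norm_num

private lemma obs_dvd_of_jac {x : ℤ} (h : jacobiSym x p ≠ 0) : ¬ (p : ℤ) ∣ x := by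
  intro h1
  rw [jac_eq, (ZMod.intCast_zmod_eq_zero_iff_dvd _ _).mpr h1, quadraticChar_zero] at h
  exact h rfl

private lemma obs_main (hp2 : p ≠ 2) {a c b n : ℕ} (ha2 : 2 ≤ a) (haj : jacobiSym a p = 1)
    (hpc : ¬ p ∣ c) (hn : n ≠ 0) (y : ℤ)
    (hy : ((a : ℤ) ^ n - 1) * ((b : ℤ) ^ n - 1) = c * y ^ 2) : ¬ Obs a c p n b := by
  have hpr : Prime (p : ℤ) := Nat.prime_iff_prime_int.mp hp.out
  have hp0 : (p : ℤ) ≠ 0 := hpr.ne_zero
  have hpc' : ¬ (p : ℤ) ∣ (c : ℤ) := by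
    rw [Int.natCast_dvd_natCast]
    exact hpc
  have hJc := obs_jac_sq hpc'
  rintro ⟨hbj, ⟨h1, h2⟩ | ⟨h1, h2, h3, h4⟩⟩
  · have h5 := congrArg (fun x : ℤ => jacobiSym x p) hy
    simp only [jacobiSym.mul_left, jacobiSym.pow_left] at h5
    rw [h2] at h5
    have h6 := obs_jac_sq h1
    have h7 : jacobiSym (c : ℤ) p * (jacobiSym y p ^ 2 + 1) = 0 := by
      linear_combination (-1 : ℤ) * h5 - jacobiSym (c : ℤ) p * h6
    rcases mul_eq_zero.mp h7 with h8 | h8
    · exact obs_jac_ne hpc' h8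
    · nlinarith [sq_nonneg (jacobiSym y p)]
  · -- the prime divides both factors
    have hp1 : p - 1 ≠ 0 := by
      have := hp.out.two_le
      omega
    have hN : (a : ℤ) ^ (p - 1) - 1 ≠ 0 := by
      have h5 : (1 : ℤ) < (a : ℤ) ^ (p - 1) := by
        have : (1 : ℤ) < a := by exact_mod_cast ha2
        exact one_lt_pow₀ this hp1
      linarith
    have hpN : (p : ℤ) ∣ (a : ℤ) ^ (p - 1) - 1 := by
      rw [← ZMod.intCast_zmod_eq_zero_iff_dvd]
      push_cast
      have := ZMod.pow_card_sub_one_eq_one (jac_one_ne haj)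
      push_cast at this
      rw [this, sub_self]
    obtain ⟨u, hu⟩ : (p : ℤ) ^ ex p a ∣ (a : ℤ) ^ (p - 1) - 1 := by
      unfold ex
      exact padicValInt_dvd _
    have hs1 : ex p a ≠ 0 := by
      unfold ex
      rw [Ne, padicValInt.eq_zero_iff]
      push Not
      exact ⟨hp.out.ne_one, hN, hpN⟩
    have hpu : ¬ (p : ℤ) ∣ u := by
      rintro ⟨u', hu'⟩
      have h5 : (p : ℤ) ^ (ex p a + 1) ∣ (a : ℤ) ^ (p - 1) - 1 :=
        ⟨u', by rw [hu, hu']; ring⟩
      rw [padicValInt_dvd_iff] at h5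
      rcases h5 with h5 | h5
      · exact hN h5
      · unfold ex at h5
        omega
    have hu2 : ((a : ℤ) ^ (p - 1) - 1) / (p : ℤ) ^ ex p a = u := by
      rw [hu, Int.mul_ediv_cancel_left _ (pow_ne_zero _ hp0)]
    obtain ⟨s, hs⟩ := Nat.exists_eq_succ_of_ne_zero hs1
    have hau : (a : ℤ) ^ (p - 1) = 1 + p ^ (s + 1) * u := by
      rw [hs, Nat.succ_eq_add_one] at hu
      linear_combination hu
    obtain ⟨t, m, hm, hnm⟩ := Nat.exists_eq_pow_mul_and_not_dvd hn p hp.out.ne_one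
    rw [hnm] at hy
    obtain ⟨wa, sa, ha1, ha2', ha3⟩ := obs_unit_part hp2 hau (hnm ▸ h1)
    obtain ⟨wb, sb, hb1, hb2, hb3⟩ := unit_part hp2 (jac_one_ne hbj) (hnm ▸ h2)
    have hfb : ¬ (p : ℤ) ∣ fq p b := obs_dvd_of_jac h3
    have hm' : ¬ (p : ℤ) ∣ (m : ℤ) := by
      rw [Int.natCast_dvd_natCast]
      exact hm
    have hwa : ¬ (p : ℤ) ∣ wa := by
      intro h5
      have h6 : (p : ℤ) ∣ m * u := by
        have h7 := dvd_sub h5 ha3
        rwa [sub_sub_cancel] at h7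
      rcases hpr.dvd_or_dvd h6 with h7 | h7
      · exact hm' h7
      · exact hpu h7
    have hwb : ¬ (p : ℤ) ∣ wb := by
      intro h5
      have h6 : (p : ℤ) ∣ m * fq p b := by
        have h7 := dvd_sub h5 hb3
        rwa [sub_sub_cancel] at h7
      rcases hpr.dvd_or_dvd h6 with h7 | h7
      · exact hm' h7
      · exact hfb h7
    have hsa : ¬ (p : ℤ) ∣ sa := by
      intro h5
      have h6 := dvd_sub ha2' h5
      rw [add_sub_cancel_left] at h6
      exact hpr.not_isUnit (isUnit_of_dvd_one h6)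
    have hsb : ¬ (p : ℤ) ∣ sb := by
      intro h5
      have h6 := dvd_sub hb2 h5
      rw [add_sub_cancel_left] at h6
      exact hpr.not_isUnit (isUnit_of_dvd_one h6)
    have hprod : c * y ^ 2 * (sa * sb) = p ^ (s + 2 * t + 2) * (wa * wb) := by
      rw [← hy]
      linear_combination ((b : ℤ) ^ (p ^ t * m) - 1) * sb * ha1 + p ^ (s + 1 + t) * wa * hb1
    have hy0 : y ≠ 0 := by
      rintro rfl
      have h5 : (p : ℤ) ^ (s + 2 * t + 2) * (wa * wb) = 0 := by
        rw [← hprod]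
        ring
      rcases mul_eq_zero.mp h5 with h6 | h6
      · exact pow_ne_zero _ hp0 h6
      · rcases mul_eq_zero.mp h6 with h7 | h7
        · exact hwa (h7 ▸ dvd_zero _)
        · exact hwb (h7 ▸ dvd_zero _)
    obtain ⟨k, z, hz, hyz⟩ : ∃ (k : ℕ) (z : ℤ), ¬ (p : ℤ) ∣ z ∧ y = (p : ℤ) ^ k * z := by
      have hfin : FiniteMultiplicity (p : ℤ) y :=
        Int.finiteMultiplicity_iff.mpr ⟨by rw [Int.natAbs_natCast]; exact hp.out.ne_one, hy0⟩
      obtain ⟨z, hz1, hz2⟩ := hfin.exists_eq_pow_mul_and_not_dvd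
      exact ⟨_, z, hz2, hz1⟩
    have hA : ¬ (p : ℤ) ∣ c * z ^ 2 * (sa * sb) := by
      intro h5
      rcases hpr.dvd_or_dvd h5 with h6 | h6
      · rcases hpr.dvd_or_dvd h6 with h7 | h7
        · exact hpc' h7
        · exact hz (hpr.dvd_of_dvd_pow h7)
      · rcases hpr.dvd_or_dvd h6 with h7 | h7
        · exact hsa h7
        · exact hsb h7
    have hB : ¬ (p : ℤ) ∣ wa * wb := by
      intro h6
      rcases hpr.dvd_or_dvd h6 with h7 | h7
      · exact hwa h7
      · exact hwb h7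
    have hprod2 : (p : ℤ) ^ (2 * k) * (c * z ^ 2 * (sa * sb)) =
        p ^ (s + 2 * t + 2) * (wa * wb) := by
      rw [← hprod, hyz]
      ring
    have hexp : 2 * k = s + 2 * t + 2 := by
      rcases lt_trichotomy (2 * k) (s + 2 * t + 2) with h5 | h5 | h5
      · exfalso
        obtain ⟨d, hd⟩ := Nat.exists_eq_add_of_lt h5
        rw [hd] at hprod2
        apply hA
        refine ⟨(p : ℤ) ^ d * (wa * wb), ?_⟩
        refine mul_left_cancel₀ (pow_ne_zero (2 * k) hp0) ?_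
        rw [hprod2]
        ring
      · exact h5
      · exfalso
        obtain ⟨d, hd⟩ := Nat.exists_eq_add_of_lt h5
        rw [hd] at hprod2
        apply hB
        refine ⟨(p : ℤ) ^ d * (c * z ^ 2 * (sa * sb)), ?_⟩
        refine mul_left_cancel₀ (pow_ne_zero (s + 2 * t + 2) hp0) ?_
        rw [← hprod2]
        ring
    rw [hexp] at hprod2
    have hfinal := mul_left_cancel₀ (pow_ne_zero _ hp0) hprod2
    have hss : jacobiSym (sa * sb) p = 1 := by
      have h5 : ((sa * sb : ℤ) : ZMod p) = 1 := by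
        rw [← ZMod.intCast_zmod_eq_zero_iff_dvd] at ha2' hb2
        push_cast at ha2' hb2 ⊢
        have h6 : (sa : ZMod p) = -1 := by linear_combination ha2'
        have h7 : (sb : ZMod p) = -1 := by linear_combination hb2
        rw [h6, h7]
        ring
      rw [jac_eq, h5, map_one]
    have hww : jacobiSym (wa * wb) p = jacobiSym u p * jacobiSym (fq p b) p := by
      have h5 : ((wa * wb : ℤ) : ZMod p) = (((m : ℤ) ^ 2 * (u * fq p b) : ℤ) : ZMod p) := by
        rw [← ZMod.intCast_zmod_eq_zero_iff_dvd] at ha3 hb3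
        push_cast at ha3 hb3 ⊢
        have h6 : (wa : ZMod p) = m * u := by linear_combination ha3
        have h7 : (wb : ZMod p) = m * fq p b := by linear_combination hb3
        rw [h6, h7]
        ring
      rw [jac_eq, h5, ← jac_eq, jacobiSym.mul_left, jacobiSym.pow_left, jacobiSym.mul_left,
        obs_jac_sq hm', one_mul]
    have h5 := congrArg (fun x : ℤ => jacobiSym x p) hfinal
    change jacobiSym (c * z ^ 2 * (sa * sb)) p = jacobiSym (wa * wb) p at h5
    rw [hww, jacobiSym.mul_left, hss, jacobiSym.mul_left, jacobiSym.pow_left, obs_jac_sq hz,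
      mul_one, mul_one] at h5
    apply h4
    have hodd : Odd (ex p a) := by
      rw [hs]
      exact ⟨s / 2, by omega⟩
    unfold sg
    rw [if_pos hodd, hu2, h5]
    linear_combination (-jacobiSym (fq p b) p) * obs_jac_sq hpu

end prime

theorem thm_per : St_per := by
  intro a c p n b hp hp3 haj
  have : Fact p.Prime := ⟨hp⟩
  refine ⟨?_, ?_⟩
  · have e1 : b % (p * p) = p * (b / p % p) + b % p := by
      rw [Nat.mod_mul, add_comm]
    have e2 : b = p * (b / p) + b % p := (Nat.div_add_mod b p).symm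
    have e3 : b / p % p % p = b / p % p := Nat.mod_mod _ _
    rw [e1]
    constructor
    · intro h
      have h1 := obs_block a c n (b % p) (b / p % p) (b / p) e3 h
      rwa [← e2] at h1
    · intro h
      rw [e2] at h
      have h1 := obs_block a c n (b % p) (b / p) (b / p % p) e3.symm h
      exact h1
  · intro n' h
    exact ⟨obs_exp a c b haj h, obs_exp a c b haj h.symm⟩

theorem thm_obs : St_obs := by
  intro a c p n b hp hp3 ha2 haj hpc hn y hy
  have : Fact p.Prime := ⟨hp⟩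
  exact obs_main (by omega) ha2 haj hpc hn y hy

end Pool.Agent.CFB
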