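import Pool.Agent.CFB.St

/-!
# CFB ord: few primes have a small order of `a`
-/

set_option autoImplicit false

namespace Pool.Agent.CFB

open Finset Filter

private theorem ord_pf (a d : ℕ) (ha : 2 ≤ a) (hd : 1 ≤ d) :
    (a ^ d - 1).primeFactors.card ≤ d * (Nat.log 2 a + 1) := by
  have h1 : 1 < a ^ d := Nat.one_lt_pow (by omega) (by omega)
  have h2 : 2 ^ (a ^ d - 1).primeFactors.card ≤ ∏ p ∈ (a ^ d - 1).primeFactors, p := by
    rw [← Finset.prod_const]
    apply Finset.prod_le_prod'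
    intro p hp
    exact (Nat.prime_of_mem_primeFactors hp).two_le
  have h3 : ∏ p ∈ (a ^ d - 1).primeFactors, p ≤ a ^ d - 1 :=
    Nat.le_of_dvd (by omega) (Nat.prod_primeFactors_dvd _)
  have h4 : a ^ d ≤ 2 ^ (d * (Nat.log 2 a + 1)) := by
    rw [mul_comm, pow_mul]
    exact Nat.pow_le_pow_left (Nat.lt_pow_succ_log_self (by norm_num) a).le d
  have h5 : 2 ^ (a ^ d - 1).primeFactors.card < 2 ^ (d * (Nat.log 2 a + 1)) := by omega
  exact ((Nat.pow_lt_pow_iff_right (by norm_num)).1 h5).le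

theorem thm_ord : St_ord := by
  intro a N D ha
  have hsub : ((range (N + 1)).filter fun p => p.Prime ∧ a.Coprime p ∧
      orderOf (a : ZMod p) ≤ D) ⊆ (Icc 1 D).biUnion fun d => (a ^ d - 1).primeFactors := by
    intro p hp
    obtain ⟨_, hpp, hcop, hD⟩ := Finset.mem_filter.1 hp
    have hfp : Fact p.Prime := ⟨hpp⟩
    have h0 : (a : ZMod p) ≠ 0 := by
      intro h
      rw [ZMod.natCast_eq_zero_iff] at h
      have h1 : p ∣ 1 := by
        rw [← Nat.Coprime.gcd_eq_one hcop]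
        exact Nat.dvd_gcd h dvd_rfl
      exact hpp.one_lt.ne' (Nat.dvd_one.1 h1)
    have h1 := orderOf_dvd_of_pow_eq_one (ZMod.pow_card_sub_one_eq_one h0)
    have h2 : 0 < orderOf (a : ZMod p) :=
      Nat.pos_of_dvd_of_pos h1 (by have := hpp.two_le; omega)
    have h3 : 1 < a ^ orderOf (a : ZMod p) := Nat.one_lt_pow (by omega) (by omega)
    rw [Finset.mem_biUnion]
    refine ⟨orderOf (a : ZMod p), Finset.mem_Icc.2 ⟨h2, hD⟩, ?_⟩
    rw [Nat.mem_primeFactors]
    refine ⟨hpp, ?_, by omega⟩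
    rw [← ZMod.natCast_eq_zero_iff, Nat.cast_sub h3.le, Nat.cast_pow, pow_orderOf_eq_one,
      Nat.cast_one, sub_self]
  calc ((range (N + 1)).filter fun p => p.Prime ∧ a.Coprime p ∧
        orderOf (a : ZMod p) ≤ D).card
      ≤ ((Icc 1 D).biUnion fun d => (a ^ d - 1).primeFactors).card := Finset.card_le_card hsub
    _ ≤ ∑ d ∈ Icc 1 D, (a ^ d - 1).primeFactors.card := Finset.card_biUnion_le
    _ ≤ ∑ _d ∈ Icc 1 D, D * (Nat.log 2 a + 1) := by
        apply Finset.sum_le_sum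
        intro d hd
        obtain ⟨h1, h2⟩ := Finset.mem_Icc.1 hd
        exact (ord_pf a d ha h1).trans (Nat.mul_le_mul_right _ h2)
    _ = D ^ 2 * (Nat.log 2 a + 1) := by
        rw [Finset.sum_const, Nat.card_Icc, smul_eq_mul, Nat.add_sub_cancel]
        ring

end Pool.Agent.CFB
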