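import Mathlib
import Pool.Agent.CFB.St

set_option autoImplicit false

/-!
# CFB / PS

The supply of primes with the condition on the order.
-/

namespace Pool.Agent.CFB

open Finset Filter

theorem PS_dvd {a p : ℕ} (ha : 1 ≤ a) (h : p % (4 * a) = 4 * a - 1) : 4 * a ∣ p + 1 := by
  rw [← Nat.div_add_mod p (4 * a), h]
  have h1 : 4 * a * (p / (4 * a)) + (4 * a - 1) + 1 = 4 * a * (p / (4 * a)) + 4 * a := by omega
  rw [h1]
  exact dvd_add (dvd_mul_right _ _) dvd_rfl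

theorem PS_coprime {a p : ℕ} (ha : 1 ≤ a) (h : p % (4 * a) = 4 * a - 1) : a.Coprime p := by
  have h1 : a ∣ p + 1 := (dvd_mul_left a 4).trans (PS_dvd ha h)
  have h2 : Nat.gcd a p ∣ p + 1 := (Nat.gcd_dvd_left a p).trans h1
  exact Nat.dvd_one.1 ((Nat.dvd_add_right (Nat.gcd_dvd_right a p)).1 h2)

theorem thm_PS (h : St_ord) : St_PS := by
  classical
  intro a ha δ hδ hδ1 c₀ hc₀ hQ
  obtain ⟨K, hK⟩ : ∃ K : ℝ, K = ((Nat.log 2 a + 1 : ℕ) : ℝ) := ⟨_, rfl⟩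
  have hK1 : 1 ≤ K := by
    rw [hK]
    exact_mod_cast Nat.le_add_left 1 _
  have hT : Tendsto (fun N : ℕ => (N : ℝ)) atTop atTop := tendsto_natCast_atTop_atTop
  have e1 : ∀ᶠ N : ℕ in atTop, Real.log N ≤ (c₀ / (2 * K)) ^ (1 / 2 : ℝ) * (N : ℝ) ^ (δ / 2) := by
    have hb := (isLittleO_log_rpow_atTop (show (0 : ℝ) < δ / 2 by linarith)).bound
      (show (0 : ℝ) < (c₀ / (2 * K)) ^ (1 / 2 : ℝ) by positivity)
    filter_upwards [hT.eventually hb, eventually_ge_atTop 1] with N h1 h2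
    rw [Real.norm_of_nonneg (Real.log_nonneg (by exact_mod_cast h2)),
      Real.norm_of_nonneg (by positivity)] at h1
    exact h1
  filter_upwards [hQ, e1, eventually_ge_atTop 2] with N h1 h2 h3
  have hN : (2 : ℝ) ≤ N := by exact_mod_cast h3
  have hN0 : (0 : ℝ) < N := by linarith
  have hlog : 0 < Real.log N := Real.log_pos (by linarith)
  obtain ⟨D, hD⟩ : ∃ D : ℕ, D = ⌊(N : ℝ) ^ (1 / 2 - δ / 2)⌋₊ := ⟨_, rfl⟩
  have hDle : (D : ℝ) ≤ (N : ℝ) ^ (1 / 2 - δ / 2) := by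
    rw [hD]
    exact Nat.floor_le (by positivity)
  have hsub : QQ a δ N ⊆ PS a δ N ∪
      (range (N + 1)).filter fun p => p.Prime ∧ a.Coprime p ∧ orderOf (a : ZMod p) ≤ D := by
    intro p hp
    rw [mem_union]
    by_cases hlt : (N : ℝ) ^ (1 / 2 - δ / 2) < (orderOf (a : ZMod p) : ℝ)
    · left
      unfold PS
      rw [mem_filter]
      exact ⟨hp, hlt⟩
    · right
      unfold QQ at hp
      rw [mem_filter] at hp ⊢
      refine ⟨hp.1, hp.2.1, PS_coprime (by omega) hp.2.2.1, ?_⟩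
      rw [hD]
      exact Nat.le_floor (not_lt.1 hlt)
  have hc := (card_le_card hsub).trans (card_union_le _ _)
  have ho := h a N D ha
  have hcr : ((QQ a δ N).card : ℝ) ≤ (PS a δ N).card + (D : ℝ) ^ 2 * K := by
    rw [hK]
    exact_mod_cast hc.trans (Nat.add_le_add_left ho _)
  have hD2 : (D : ℝ) ^ 2 ≤ (N : ℝ) ^ (1 - δ) := by
    calc (D : ℝ) ^ 2 ≤ ((N : ℝ) ^ (1 / 2 - δ / 2)) ^ 2 :=
          pow_le_pow_left₀ (Nat.cast_nonneg D) hDle 2
      _ = (N : ℝ) ^ (1 - δ) := by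
          rw [← Real.rpow_natCast, ← Real.rpow_mul hN0.le]
          congr 1
          push_cast
          ring
  have hfin : (N : ℝ) ^ (1 - δ) * K ≤ c₀ / 2 * N / Real.log N ^ 2 := by
    rw [le_div_iff₀ (by positivity)]
    have h4 : Real.log N ^ 2 ≤ c₀ / (2 * K) * (N : ℝ) ^ δ := by
      calc Real.log N ^ 2 ≤ ((c₀ / (2 * K)) ^ (1 / 2 : ℝ) * (N : ℝ) ^ (δ / 2)) ^ 2 :=
            pow_le_pow_left₀ hlog.le h2 2
        _ = c₀ / (2 * K) * (N : ℝ) ^ δ := by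
            rw [mul_pow, ← Real.rpow_natCast, ← Real.rpow_natCast, ← Real.rpow_mul (by positivity),
              ← Real.rpow_mul hN0.le]
            push_cast
            rw [show (1 / 2 * 2 : ℝ) = 1 by norm_num, Real.rpow_one, show δ / 2 * 2 = δ by ring]
    calc (N : ℝ) ^ (1 - δ) * K * Real.log N ^ 2 ≤
          (N : ℝ) ^ (1 - δ) * K * (c₀ / (2 * K) * (N : ℝ) ^ δ) := by gcongr
      _ = c₀ / 2 * ((N : ℝ) ^ (1 - δ) * (N : ℝ) ^ δ) := by
          field_simp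
      _ = c₀ / 2 * N := by
          rw [← Real.rpow_add hN0, show 1 - δ + δ = 1 by ring, Real.rpow_one]
  have h5 : (D : ℝ) ^ 2 * K ≤ (N : ℝ) ^ (1 - δ) * K :=
    mul_le_mul_of_nonneg_right hD2 (by linarith)
  have h6 : c₀ * N / Real.log N ^ 2 = c₀ / 2 * N / Real.log N ^ 2 + c₀ / 2 * N / Real.log N ^ 2 := by
    ring
  linarith

end Pool.Agent.CFB
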