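import Mathlib
import Pool.Agent.CFB.St
import Pool.Agent.PC.Sieve

/-!
# CFB, module phi: the sum of `1/φ(j)` over `j ≤ J` prime to `m`
-/

set_option autoImplicit false

namespace Pool.Agent.CFB

open Finset

/-! ### the sum of `1/i` over the numbers prime to `m` -/

private theorem phi_S {m J : ℕ} (hm : 1 ≤ m) (_hJ : 1 ≤ J) :
    ∑ i ∈ (Icc 1 J).filter (fun j => j.Coprime m), 1 / (i : ℝ) ≤
      m + (m.totient : ℝ) / m * (1 + Real.log J) := by
  have hm0 : (0 : ℝ) < m := by exact_mod_cast hm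
  set D := (Icc 1 J).filter (fun j => j.Coprime m) with hD
  have hmap : ∀ i ∈ D, (i - 1) / m ∈ range (J + 1) := by
    intro i hi
    rw [hD, mem_filter, mem_Icc] at hi
    rw [mem_range]
    have h1 : (i - 1) / m ≤ i - 1 := Nat.div_le_self _ _
    omega
  rw [← Finset.sum_fiberwise_of_maps_to hmap, Finset.sum_range_succ']
  have h0 : ∑ i ∈ D with (i - 1) / m = 0, 1 / (i : ℝ) ≤ m := by
    have hsub : (D.filter fun i => (i - 1) / m = 0) ⊆ Icc 1 m := by
      intro i hi
      rw [mem_filter, hD, mem_filter, mem_Icc] at hi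
      rw [mem_Icc]
      refine ⟨hi.1.1.1, ?_⟩
      have h1 := (Nat.div_eq_zero_iff.mp hi.2)
      omega
    calc ∑ i ∈ D with (i - 1) / m = 0, 1 / (i : ℝ)
        ≤ ∑ i ∈ D with (i - 1) / m = 0, 1 := by
          refine Finset.sum_le_sum fun i hi => ?_
          have h1 := mem_Icc.mp (hsub hi)
          have h2 : (1 : ℝ) ≤ i := by exact_mod_cast h1.1
          rw [div_le_one (by linarith)]
          exact h2
      _ = ((D.filter fun i => (i - 1) / m = 0).card : ℝ) := by simp
      _ ≤ ((Icc 1 m).card : ℝ) := by exact_mod_cast Finset.card_le_card hsub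
      _ = m := by simp
  have h1 : ∀ k ∈ range J, ∑ i ∈ D with (i - 1) / m = k + 1, 1 / (i : ℝ) ≤
      (m.totient : ℝ) / m * (1 / ((k : ℝ) + 1)) := by
    intro k _
    have hsub : (D.filter fun i => (i - 1) / m = k + 1) ⊆
        (Ico (m * (k + 1) + 1) (m * (k + 1) + 1 + m)).filter (fun x => m.Coprime x) := by
      intro i hi
      rw [mem_filter, hD, mem_filter, mem_Icc] at hi
      obtain ⟨⟨⟨ha, hb⟩, hc⟩, hd⟩ := hi
      rw [mem_filter, mem_Ico]
      have h2 := (Nat.div_eq_iff (by omega : 0 < m)).mp hd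
      refine ⟨⟨?_, ?_⟩, hc.symm⟩
      · have : m * (k + 1) = (k + 1) * m := mul_comm _ _
        omega
      · have : m * (k + 1) = (k + 1) * m := mul_comm _ _
        omega
    have hcard : ((D.filter fun i => (i - 1) / m = k + 1).card : ℝ) ≤ m.totient := by
      have h2 := Finset.card_le_card hsub
      rw [Nat.filter_coprime_Ico_eq_totient] at h2
      exact_mod_cast h2
    have hk0 : (0 : ℝ) < (k : ℝ) + 1 := by positivity
    calc ∑ i ∈ D with (i - 1) / m = k + 1, 1 / (i : ℝ)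
        ≤ ∑ i ∈ D with (i - 1) / m = k + 1, 1 / ((m : ℝ) * ((k : ℝ) + 1)) := by
          refine Finset.sum_le_sum fun i hi => ?_
          have h2 := mem_filter.mp (hsub hi)
          have h3 := (mem_Ico.mp h2.1).1
          have h4 : (m : ℝ) * ((k : ℝ) + 1) ≤ i := by
            have : m * (k + 1) ≤ i := by omega
            exact_mod_cast this
          exact one_div_le_one_div_of_le (by positivity) h4
      _ = ((D.filter fun i => (i - 1) / m = k + 1).card : ℝ) * (1 / ((m : ℝ) * ((k : ℝ) + 1))) := by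
          rw [Finset.sum_const, nsmul_eq_mul]
      _ ≤ (m.totient : ℝ) * (1 / ((m : ℝ) * ((k : ℝ) + 1))) :=
          mul_le_mul_of_nonneg_right hcard (by positivity)
      _ = _ := by field_simp
  have h2 : ∑ k ∈ range J, ∑ i ∈ D with (i - 1) / m = k + 1, 1 / (i : ℝ) ≤
      (m.totient : ℝ) / m * (1 + Real.log J) := by
    refine (Finset.sum_le_sum h1).trans ?_
    rw [← Finset.mul_sum]
    refine mul_le_mul_of_nonneg_left ?_ (by positivity)
    have h3 := harmonic_le_one_add_log J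
    rw [harmonic] at h3
    push_cast at h3
    simpa [one_div] using h3
  linarith

/-! ### the reduction -/

private theorem phi_tel : ∀ n : ℕ, 1 ≤ n →
    ∑ k ∈ Icc 2 n, 1 / (((k : ℝ) - 1) * k) ≤ 1 - 1 / (n : ℝ) := by
  intro n hn
  induction n, hn using Nat.le_induction with
  | base => simp
  | succ n hn ih =>
    rw [Finset.sum_Icc_succ_top (by omega)]
    have hn0 : (0 : ℝ) < n := by exact_mod_cast hn
    push_cast
    have h2 : 1 / (((n : ℝ) + 1 - 1) * ((n : ℝ) + 1)) = 1 / n - 1 / ((n : ℝ) + 1) := by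
      rw [add_sub_cancel_right]
      field_simp
      ring
    rw [h2]
    linarith

private theorem phi_ratio {j : ℕ} (hj : 0 < j) :
    1 / (j.totient : ℝ) = ∑ t ∈ j.primeFactors.powerset,
      1 / (j : ℝ) * ∏ p ∈ t, (1 / ((p : ℝ) - 1)) := by
  have h1 := Pool.Agent.PC.BlockB.ratio_eq hj
  have hj0 : (0 : ℝ) < j := by exact_mod_cast hj
  have h2 : ∏ p ∈ j.primeFactors, (1 - 1 / (p : ℝ))⁻¹ =
      ∏ p ∈ j.primeFactors, (1 + 1 / ((p : ℝ) - 1)) := by
    refine Finset.prod_congr rfl fun p hp => ?_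
    have hp2 : (2 : ℝ) ≤ p := by exact_mod_cast (Nat.prime_of_mem_primeFactors hp).two_le
    have h3 : (p : ℝ) ≠ 0 := by linarith
    have h4 : (p : ℝ) - 1 ≠ 0 := by linarith
    have h5 : (1 : ℝ) - 1 / p ≠ 0 := by
      have : (1 : ℝ) - 1 / p = (p - 1) / p := by field_simp
      rw [this]
      positivity
    field_simp
    ring
  rw [h2, Finset.prod_one_add] at h1
  rw [← Finset.mul_sum, ← h1]
  field_simp

private theorem phi_main (m J : ℕ) :
    ∑ j ∈ (Icc 1 J).filter (fun j => j.Coprime m), 1 / (j.totient : ℝ) ≤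
      Real.exp 1 * ∑ i ∈ (Icc 1 J).filter (fun j => j.Coprime m), 1 / (i : ℝ) := by
  classical
  set D := (Icc 1 J).filter (fun j => j.Coprime m) with hD
  set S := ∑ i ∈ D, 1 / (i : ℝ) with hS
  have hS0 : 0 ≤ S := Finset.sum_nonneg fun i _ => by positivity
  set Pr := (Icc 1 J).filter Nat.Prime with hPr
  have hD1 : ∀ j ∈ D, 1 ≤ j ∧ j ≤ J ∧ j.Coprime m := by
    intro j hj
    rw [hD, mem_filter, mem_Icc] at hj
    exact ⟨hj.1.1, hj.1.2, hj.2⟩
  set g : ℕ → ℝ := fun p => 1 / ((p : ℝ) - 1) with hg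
  have hg0 : ∀ p ∈ Pr, 0 ≤ g p := by
    intro p hp
    have hp2 : (2 : ℝ) ≤ p := by exact_mod_cast (mem_filter.mp hp).2.two_le
    rw [hg]
    exact div_nonneg zero_le_one (by linarith)
  have e1 : ∀ j ∈ D, 1 / (j.totient : ℝ) = ∑ t ∈ Pr.powerset,
      if t ⊆ j.primeFactors then 1 / (j : ℝ) * ∏ p ∈ t, g p else 0 := by
    intro j hj
    obtain ⟨h1, h2, h3⟩ := hD1 j hj
    rw [phi_ratio (by omega : 0 < j), ← Finset.sum_filter]
    refine Finset.sum_congr ?_ fun t _ => rfl
    ext t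
    rw [mem_filter, mem_powerset, mem_powerset]
    refine ⟨fun h => ⟨h.trans ?_, h⟩, fun h => h.2⟩
    intro p hp
    have hpp := Nat.prime_of_mem_primeFactors hp
    rw [hPr, mem_filter, mem_Icc]
    exact ⟨⟨hpp.one_lt.le, (Nat.le_of_mem_primeFactors hp).trans h2⟩, hpp⟩
  have e2 : ∀ t ∈ Pr.powerset, ∑ j ∈ D, (if t ⊆ j.primeFactors then
      1 / (j : ℝ) * ∏ p ∈ t, g p else 0) ≤ S * ∏ p ∈ t, (g p / p) := by
    intro t ht
    rw [mem_powerset] at ht
    rw [← Finset.sum_filter, ← Finset.sum_mul]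
    set d := ∏ p ∈ t, p with hd
    have hd0 : 0 < d := Finset.prod_pos fun p hp => (mem_filter.mp (ht hp)).2.pos
    have hdr : (0 : ℝ) < d := by exact_mod_cast hd0
    have hdvd : ∀ j ∈ D.filter (fun j => t ⊆ j.primeFactors), d ∣ j := by
      intro j hj
      rw [mem_filter] at hj
      exact (Finset.prod_dvd_prod_of_subset _ _ _ hj.2).trans (Nat.prod_primeFactors_dvd j)
    have h1 : ∑ j ∈ D.filter (fun j => t ⊆ j.primeFactors), 1 / (j : ℝ) ≤ 1 / d * S := by
      have h2 : ∀ j ∈ D.filter (fun j => t ⊆ j.primeFactors), 1 / (j : ℝ) =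
          1 / d * (1 / ((j / d : ℕ) : ℝ)) := by
        intro j hj
        rw [Nat.cast_div (hdvd j hj) hdr.ne']
        field_simp
      rw [Finset.sum_congr rfl h2, ← Finset.mul_sum]
      refine mul_le_mul_of_nonneg_left ?_ (by positivity)
      have hinj : Set.InjOn (fun j : ℕ => j / d) (D.filter (fun j => t ⊆ j.primeFactors)) := by
        intro j hj j' hj' h
        simp only at h
        have h3 := Nat.div_mul_cancel (hdvd j hj)
        have h4 := Nat.div_mul_cancel (hdvd j' hj')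
        rw [← h3, ← h4, h]
      rw [← Finset.sum_image (f := fun i : ℕ => 1 / (i : ℝ)) hinj]
      refine Finset.sum_le_sum_of_subset_of_nonneg ?_ fun i _ _ => by positivity
      intro i hi
      rw [mem_image] at hi
      obtain ⟨j, hj, rfl⟩ := hi
      have h5 := hdvd j hj
      rw [mem_filter] at hj
      obtain ⟨h6, h7, h8⟩ := hD1 j hj.1
      rw [hD, mem_filter, mem_Icc]
      refine ⟨⟨?_, (Nat.div_le_self _ _).trans h7⟩, ?_⟩
      · exact Nat.div_pos (Nat.le_of_dvd (by omega) h5) hd0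
      · exact Nat.Coprime.coprime_dvd_left (Nat.div_dvd_of_dvd h5) h8
    have h3 : 0 ≤ ∏ p ∈ t, g p := Finset.prod_nonneg fun p hp => hg0 p (ht hp)
    refine (mul_le_mul_of_nonneg_right h1 h3).trans (le_of_eq ?_)
    have e : ∏ p ∈ t, (g p / (p : ℝ)) = (∏ p ∈ t, g p) / ∏ p ∈ t, (p : ℝ) :=
      Finset.prod_div_distrib _ _
    rw [e, hd]
    push_cast
    ring
  have e3 : ∑ t ∈ Pr.powerset, S * ∏ p ∈ t, (g p / p) = S * ∏ p ∈ Pr, (1 + g p / p) := by
    rw [← Finset.mul_sum, Finset.prod_one_add]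
  have e4 : ∏ p ∈ Pr, (1 + g p / p) ≤ Real.exp 1 := by
    have h1 : ∏ p ∈ Pr, (1 + g p / p) ≤ ∏ p ∈ Pr, Real.exp (g p / p) := by
      refine Finset.prod_le_prod (fun p hp => ?_) fun p _ => ?_
      · have := hg0 p hp
        positivity
      · have := Real.add_one_le_exp (g p / p)
        linarith
    refine h1.trans ?_
    rw [← Real.exp_sum]
    refine Real.exp_le_exp.mpr ?_
    rcases Nat.eq_zero_or_pos J with h0 | hJ
    · have : Pr = ∅ := by rw [hPr, h0]; rfl
      rw [this]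
      simp
    have hsub : Pr ⊆ Icc 2 J := by
      intro p hp
      rw [hPr, mem_filter, mem_Icc] at hp
      rw [mem_Icc]
      exact ⟨hp.2.two_le, hp.1.2⟩
    have h2 : ∀ k ∈ Icc 2 J, 0 ≤ 1 / (((k : ℝ) - 1) * k) := by
      intro k hk
      have : (2 : ℝ) ≤ k := by exact_mod_cast (mem_Icc.mp hk).1
      exact div_nonneg zero_le_one (mul_nonneg (by linarith) (by linarith))
    calc ∑ p ∈ Pr, g p / p = ∑ p ∈ Pr, 1 / (((p : ℝ) - 1) * p) := by
          refine Finset.sum_congr rfl fun p _ => ?_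
          rw [hg, div_div]
      _ ≤ ∑ p ∈ Icc 2 J, 1 / (((p : ℝ) - 1) * p) :=
          Finset.sum_le_sum_of_subset_of_nonneg hsub fun k hk _ => h2 k hk
      _ ≤ 1 - 1 / J := phi_tel J hJ
      _ ≤ 1 := by
          have : (0 : ℝ) ≤ 1 / J := by positivity
          linarith
  rw [Finset.sum_congr rfl e1, Finset.sum_comm]
  refine (Finset.sum_le_sum e2).trans ?_
  rw [e3, mul_comm]
  exact mul_le_mul_of_nonneg_right e4 hS0

theorem thm_phi : St_phi := by
  refine ⟨Real.exp 1, Real.exp_pos _, fun m J hm hJ => ?_⟩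
  exact (phi_main m J).trans (mul_le_mul_of_nonneg_left (phi_S hm hJ) (Real.exp_pos _).le)

end Pool.Agent.CFB
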