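import Pool.Agent.CFB.St
import Pool.Agent.PC.Sieve

/-!
# CFB, module siv: prime pairs `r, 2 h r + 1` in a residue class
-/

set_option autoImplicit false

namespace Pool.Agent.CFB

open Finset Filter
open Pool.Agent.Helper90.Straus (pr mem_pr g Sys surv mem_surv sieve_upper)
open Pool.Agent.PC.BlockB (one_sub_pos P_sq_le ratio_eq ratio_ge_one log_sq_le)

/-- The excluded residue classes. -/
private def siv_Om (m h r₀ p : ℕ) : Finset ℕ :=
  (range p).filter fun t => ¬ p ∣ m ∧ (p ∣ r₀ + m * t ∨ p ∣ 2 * h * (r₀ + m * t) + 1)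

private theorem siv_val {p t : ℕ} [Fact p.Prime] (ht : t < p) (a : ZMod p) :
    (t : ZMod p) = a ↔ t = a.val := by
  constructor
  · rintro rfl
    exact (ZMod.val_cast_of_lt ht).symm
  · rintro rfl
    exact ZMod.natCast_zmod_val a

private theorem siv_card {m h r₀ p : ℕ} (hm : 2 ∣ m) (hp : p.Prime) :
    (siv_Om m h r₀ p).card = if p ∣ m then 0 else if p ∣ h then 1 else 2 := by
  have : Fact p.Prime := ⟨hp⟩
  unfold siv_Om
  split_ifs with h1 h2
  · rw [Finset.card_eq_zero, Finset.filter_eq_empty_iff]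
    intro t _ h
    exact h.1 h1
  · have hm0 : (m : ZMod p) ≠ 0 := fun h => h1 ((ZMod.natCast_eq_zero_iff m p).1 h)
    have hh0 : (h : ZMod p) = 0 := (ZMod.natCast_eq_zero_iff h p).2 h2
    rw [Finset.card_eq_one]
    refine ⟨(-(r₀ : ZMod p) / m).val, ?_⟩
    ext t
    rw [Finset.mem_filter, Finset.mem_range, Finset.mem_singleton]
    constructor
    · rintro ⟨ht, -, h3 | h3⟩
      · rw [← siv_val ht]
        have h4 := (ZMod.natCast_eq_zero_iff _ p).2 h3
        push_cast at h4
        rw [eq_div_iff hm0]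
        linear_combination h4
      · exfalso
        have h4 := (ZMod.natCast_eq_zero_iff _ p).2 h3
        push_cast at h4
        rw [hh0, mul_zero, zero_mul, zero_add] at h4
        exact one_ne_zero h4
    · intro ht
      have ht' : t < p := by
        rw [ht]
        exact ZMod.val_lt _
      refine ⟨ht', h1, Or.inl ?_⟩
      rw [← ZMod.natCast_eq_zero_iff]
      push_cast
      rw [← siv_val ht', eq_div_iff hm0] at ht
      linear_combination ht
  · have hm0 : (m : ZMod p) ≠ 0 := fun h => h1 ((ZMod.natCast_eq_zero_iff m p).1 h)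
    have hh0 : (h : ZMod p) ≠ 0 := fun h => h2 ((ZMod.natCast_eq_zero_iff _ p).1 h)
    have h20 : (2 : ZMod p) ≠ 0 := by
      intro h
      have h3 : ((2 : ℕ) : ZMod p) = 0 := by
        push_cast
        exact h
      exact h1 (((ZMod.natCast_eq_zero_iff _ p).1 h3).trans hm)
    have h2h : (2 : ZMod p) * h ≠ 0 := mul_ne_zero h20 hh0
    have hne : (-(r₀ : ZMod p) / m).val ≠ ((-(1 / (2 * (h : ZMod p))) - r₀) / m).val := by
      intro h3
      have h4 := ZMod.val_injective p h3
      rw [div_left_inj' hm0] at h4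
      have h5 : 1 / (2 * (h : ZMod p)) = 0 := by linear_combination h4
      exact (one_div_ne_zero h2h) h5
    refine Eq.trans (congrArg Finset.card ?_) (Finset.card_pair hne)
    ext t
    rw [Finset.mem_filter, Finset.mem_range, Finset.mem_insert, Finset.mem_singleton]
    have hb : ∀ x : ZMod p, x = (-(1 / (2 * (h : ZMod p))) - r₀) / m ↔
        2 * (h : ZMod p) * (r₀ + m * x) + 1 = 0 := by
      intro x
      rw [eq_div_iff hm0]
      constructor
      · intro h3
        have h4 : 2 * (h : ZMod p) * (1 / (2 * (h : ZMod p))) = 1 := mul_one_div_cancel h2h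
        linear_combination 2 * (h : ZMod p) * h3 - h4
      · intro h3
        have h4 : 2 * (h : ZMod p) * (1 / (2 * (h : ZMod p))) = 1 := mul_one_div_cancel h2h
        apply mul_left_cancel₀ h2h
        linear_combination h3 + h4
    constructor
    · rintro ⟨ht, -, h3 | h3⟩
      · left
        rw [← siv_val ht]
        have h4 := (ZMod.natCast_eq_zero_iff _ p).2 h3
        push_cast at h4
        rw [eq_div_iff hm0]
        linear_combination h4
      · right
        rw [← siv_val ht, hb]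
        have h4 := (ZMod.natCast_eq_zero_iff _ p).2 h3
        push_cast at h4
        exact h4
    · rintro (ht | ht)
      · have ht' : t < p := by
          rw [ht]
          exact ZMod.val_lt _
        refine ⟨ht', h1, Or.inl ?_⟩
        rw [← ZMod.natCast_eq_zero_iff]
        push_cast
        rw [← siv_val ht', eq_div_iff hm0] at ht
        linear_combination ht
      · have ht' : t < p := by
          rw [ht]
          exact ZMod.val_lt _
        refine ⟨ht', h1, Or.inr ?_⟩
        rw [← ZMod.natCast_eq_zero_iff]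
        push_cast
        rw [← siv_val ht', hb] at ht
        exact ht

private theorem siv_sys {m h r₀ : ℕ} (hm : 2 ∣ m) : Sys 2 (siv_Om m h r₀) := by
  intro p hp
  have hc := siv_card (m := m) (h := h) (r₀ := r₀) hm hp
  have hc2 : (siv_Om m h r₀ p).card ≤ 2 := by
    rw [hc]
    split_ifs <;> omega
  refine ⟨Finset.filter_subset _ _, hc2, ?_⟩
  by_cases h1 : p ∣ m
  · rw [hc, if_pos h1]
    exact hp.pos
  · have h2 : p ≠ 2 := by
      rintro rfl
      exact h1 hm
    have := hp.two_le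
    omega

private theorem siv_V {m h r₀ : ℕ} (hm : 2 ∣ m) (hm0 : 0 < m) (hh : 0 < h) (N : ℕ) :
    ∏ p ∈ pr 2 N, (1 - g (siv_Om m h r₀) p) ≤
      (∏ p ∈ pr 2 N, (1 - 1 / (p : ℝ))) ^ 2 *
        (((m : ℝ) / Nat.totient m) ^ 2 * ((h : ℝ) / Nat.totient h)) := by
  have hstep : ∀ p ∈ pr 2 N, 0 ≤ 1 - g (siv_Om m h r₀) p ∧ 1 - g (siv_Om m h r₀) p ≤
      (1 - 1 / (p : ℝ)) ^ 2 * ((if p ∣ m then (1 - 1 / (p : ℝ))⁻¹ ^ 2 else 1) *
        (if p ∣ h then (1 - 1 / (p : ℝ))⁻¹ else 1)) := by
    intro p hp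
    have hpp := (mem_pr.1 hp).2
    have h1 := one_sub_pos hpp
    have hp2 : (2 : ℝ) ≤ p := by exact_mod_cast hpp.two_le
    have hi : 1 ≤ (1 - 1 / (p : ℝ))⁻¹ := by
      have h3 : (0 : ℝ) ≤ 1 / p := by positivity
      exact (one_le_inv₀ (by linarith)).2 (by linarith)
    unfold g
    rw [siv_card hm hpp]
    by_cases hd : p ∣ m
    · rw [if_pos hd, if_pos hd]
      refine ⟨by norm_num, ?_⟩
      have h2 : (1 - 1 / (p : ℝ)) ^ 2 * (1 - 1 / (p : ℝ))⁻¹ ^ 2 = 1 := by
        rw [← mul_pow, mul_inv_cancel₀ (by linarith), one_pow]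
      rw [← mul_assoc, h2, one_mul]
      split_ifs
      · simpa using hi
      · simp
    · rw [if_neg hd, if_neg hd, one_mul]
      by_cases hd' : p ∣ h
      · rw [if_pos hd', if_pos hd']
        push_cast
        refine ⟨by linarith, ?_⟩
        rw [sq, mul_assoc, mul_inv_cancel₀ (by linarith), mul_one]
      · rw [if_neg hd', if_neg hd']
        push_cast
        refine ⟨?_, ?_⟩
        · rw [sub_nonneg, div_le_one (by linarith)]
          exact hp2
        · rw [mul_one]
          have : (2 : ℝ) / p = 2 * (1 / p) := by ring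
          rw [this]
          nlinarith [sq_nonneg (1 / (p : ℝ))]
  have h1 : ∏ p ∈ pr 2 N, (1 - g (siv_Om m h r₀) p) ≤
      ∏ p ∈ pr 2 N, ((1 - 1 / (p : ℝ)) ^ 2 * ((if p ∣ m then (1 - 1 / (p : ℝ))⁻¹ ^ 2 else 1) *
        (if p ∣ h then (1 - 1 / (p : ℝ))⁻¹ else 1))) :=
    Finset.prod_le_prod (fun p hp => (hstep p hp).1) (fun p hp => (hstep p hp).2)
  refine h1.trans ?_
  rw [Finset.prod_mul_distrib, Finset.prod_pow, Finset.prod_mul_distrib]
  apply mul_le_mul_of_nonneg_left _ (sq_nonneg _)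
  have hone : ∀ k : ℕ, 0 < k → ∀ f : ℕ → ℝ, (∀ p : ℕ, p.Prime → 1 ≤ f p) →
      ∏ p ∈ pr 2 N, (if p ∣ k then f p else 1) ≤ ∏ p ∈ k.primeFactors, f p := by
    intro k hk f hf
    rw [← Finset.prod_filter]
    apply Finset.prod_le_prod_of_subset_of_one_le
    · intro p hp
      rw [Finset.mem_filter] at hp
      rw [Nat.mem_primeFactors]
      exact ⟨(mem_pr.1 hp.1).2, hp.2, hk.ne'⟩
    · intro p hp
      rw [Finset.mem_filter] at hp
      linarith [hf p (mem_pr.1 hp.1).2]
    · intro p hp _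
      exact hf p (Nat.prime_of_mem_primeFactors hp)
  have hinv : ∀ p : ℕ, p.Prime → 1 ≤ (1 - 1 / (p : ℝ))⁻¹ := by
    intro p hp
    have h2 := one_sub_pos hp
    have h3 : (0 : ℝ) ≤ 1 / p := by positivity
    exact (one_le_inv₀ (by linarith)).2 (by linarith)
  have e1 := hone m hm0 (fun p => (1 - 1 / (p : ℝ))⁻¹ ^ 2) fun p hp => by
    have := hinv p hp
    nlinarith
  have e2 := hone h hh (fun p => (1 - 1 / (p : ℝ))⁻¹) hinv
  rw [Finset.prod_pow, ← ratio_eq hm0] at e1
  rw [← ratio_eq hh] at e2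
  apply mul_le_mul e1 e2 _ (sq_nonneg _)
  apply Finset.prod_nonneg
  intro p hp
  have := hinv p (mem_pr.1 hp).2
  split_ifs <;> linarith

private theorem siv_sub {m h T r₀ z : ℕ} (hm0 : 0 < m) (hh : 0 < h) :
    ((range T).filter fun t => (r₀ + m * t).Prime ∧ (2 * h * (r₀ + m * t) + 1).Prime) ⊆
      range z ∪ surv (siv_Om m h r₀) z 0 T := by
  intro t ht
  rw [Finset.mem_filter, Finset.mem_range] at ht
  obtain ⟨h1, h3, h4⟩ := ht
  rw [Finset.mem_union, Finset.mem_range]
  by_cases hz : r₀ + m * t < z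
  · left
    have : t ≤ m * t := Nat.le_mul_of_pos_left t hm0
    omega
  · right
    rw [mem_surv]
    refine ⟨⟨Nat.zero_le _, by omega⟩, fun p hp hpz hmem => ?_⟩
    unfold siv_Om at hmem
    rw [Finset.mem_filter] at hmem
    obtain ⟨-, -, h5⟩ := hmem
    have hmod : (t % p) ≡ t [MOD p] := Nat.mod_modEq t p
    have hr : (r₀ + m * (t % p)) ≡ (r₀ + m * t) [MOD p] := (hmod.mul_left m).add_left r₀
    rcases h5 with h5 | h5
    · have h6 : p ∣ r₀ + m * t := (hr.dvd_iff dvd_rfl).1 h5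
      have := (Nat.prime_dvd_prime_iff_eq hp h3).1 h6
      omega
    · have h6 : p ∣ 2 * h * (r₀ + m * t) + 1 :=
        (((hr.mul_left (2 * h)).add_right 1).dvd_iff dvd_rfl).1 h5
      have h7 := (Nat.prime_dvd_prime_iff_eq hp h4).1 h6
      have h8 : r₀ + m * t ≤ 2 * h * (r₀ + m * t) := Nat.le_mul_of_pos_left _ (by omega)
      omega

theorem thm_siv : St_siv := by
  obtain ⟨c, R₀, hc2, hs⟩ := sieve_upper (κ := 2) (by norm_num)
  obtain ⟨L₀, hL₀⟩ : ∃ L₀ : ℕ, L₀ = (2 ^ 2 ^ R₀) ^ c := ⟨_, rfl⟩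
  refine ⟨40 * c ^ 2 + Real.log L₀ ^ 2 + 4, by positivity, fun m h L r₀ hL hm0 hm hh => ?_⟩
  have hlogL : 0 < Real.log L := Real.log_pos (by exact_mod_cast (show 1 < L by omega))
  have hL0 : (0 : ℝ) ≤ L := Nat.cast_nonneg L
  have hL2 : (1 : ℝ) ≤ L := by exact_mod_cast (show 1 ≤ L by omega)
  obtain ⟨ρ, hρ⟩ : ∃ ρ : ℝ, ρ = ((m : ℝ) / Nat.totient m) ^ 2 * ((h : ℝ) / Nat.totient h) :=
    ⟨_, rfl⟩
  have hratio : 1 ≤ ρ := by
    rw [hρ]
    have h1 := ratio_ge_one hh
    have h2 : 1 ≤ ((m : ℝ) / Nat.totient m) ^ 2 := one_le_pow₀ (ratio_ge_one hm0)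
    exact one_le_mul_of_one_le_of_one_le h2 h1
  rw [mul_assoc (40 * (c : ℝ) ^ 2 + Real.log L₀ ^ 2 + 4), ← hρ]
  -- a constant times L / log^2 L suffices
  have key : ∀ K : ℝ, 0 ≤ K → K ≤ 40 * c ^ 2 + Real.log L₀ ^ 2 + 4 →
      K * L / Real.log L ^ 2 ≤ (40 * c ^ 2 + Real.log L₀ ^ 2 + 4) * ρ * L / Real.log L ^ 2 := by
    intro K hK0 hK
    apply div_le_div_of_nonneg_right _ (by positivity)
    apply mul_le_mul_of_nonneg_right _ hL0
    nlinarith
  by_cases hsmall : L < L₀
  · -- small intervals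
    refine le_trans ?_ (key (Real.log L₀ ^ 2) (by positivity) (by
      have : (0 : ℝ) ≤ 40 * (c : ℝ) ^ 2 := by positivity
      linarith))
    have h1 : (((range L).filter fun t => (r₀ + m * t).Prime ∧
        (2 * h * (r₀ + m * t) + 1).Prime).card : ℝ) ≤ L := by
      have h2 := Finset.card_filter_le (range L)
        (fun t => (r₀ + m * t).Prime ∧ (2 * h * (r₀ + m * t) + 1).Prime)
      rw [Finset.card_range] at h2
      exact_mod_cast h2
    refine h1.trans ?_
    rw [le_div_iff₀ (by positivity)]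
    have h2 : Real.log L ≤ Real.log L₀ :=
      Real.log_le_log (by linarith) (by exact_mod_cast hsmall.le)
    have h3 : Real.log L ^ 2 ≤ Real.log L₀ ^ 2 := pow_le_pow_left₀ hlogL.le h2 2
    nlinarith
  · -- long intervals: choose the sieving range
    rw [not_lt] at hsmall
    obtain ⟨R, hR, hRL, hRL'⟩ : ∃ R, R₀ ≤ R ∧ (2 ^ 2 ^ R) ^ c ≤ L ∧
        L < (2 ^ 2 ^ (R + 1)) ^ c := by
      have hex : ∃ i, L < (2 ^ 2 ^ (R₀ + i)) ^ c := by
        refine ⟨L, ?_⟩
        calc L < 2 ^ L := Nat.lt_two_pow_self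
          _ ≤ 2 ^ 2 ^ (R₀ + L) := by
            apply Nat.pow_le_pow_right (by norm_num)
            calc L ≤ 2 ^ L := Nat.lt_two_pow_self.le
              _ ≤ 2 ^ (R₀ + L) := Nat.pow_le_pow_right (by norm_num) (by omega)
          _ = (2 ^ 2 ^ (R₀ + L)) ^ 1 := (pow_one _).symm
          _ ≤ (2 ^ 2 ^ (R₀ + L)) ^ c := Nat.pow_le_pow_right Nat.one_le_two_pow (by omega)
      classical
      obtain ⟨i, hi⟩ : ∃ i, i = Nat.find hex := ⟨_, rfl⟩
      have hi1 : L < (2 ^ 2 ^ (R₀ + i)) ^ c := by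
        rw [hi]
        exact Nat.find_spec hex
      have hi0 : i ≠ 0 := by
        intro h0
        rw [h0] at hi1
        simp only [add_zero] at hi1
        omega
      have hi2 : ¬ L < (2 ^ 2 ^ (R₀ + (i - 1))) ^ c := Nat.find_min hex (by omega)
      refine ⟨R₀ + (i - 1), by omega, not_lt.1 hi2, ?_⟩
      have h5 : R₀ + (i - 1) + 1 = R₀ + i := by omega
      rw [h5]
      exact hi1
    obtain ⟨z, hz⟩ : ∃ z : ℕ, z = 2 ^ 2 ^ R := ⟨_, rfl⟩
    have hzz : 2 ^ 2 ^ (R + 1) = z ^ 2 := by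
      rw [hz, ← pow_mul]
      congr 1
    have hz2 : 2 ≤ z := by
      rw [hz]
      calc 2 = 2 ^ 1 := rfl
        _ ≤ 2 ^ 2 ^ R := Nat.pow_le_pow_right (by norm_num) Nat.one_le_two_pow
    have hmain := hs R hR (siv_Om m h r₀) (siv_sys hm) 0 L hRL
    rw [hzz] at hRL'
    have hzc : (2 : ℝ) ^ 2 ^ R = z := by
      rw [hz]
      push_cast
      rfl
    rw [← hz] at hmain hRL
    rw [hzc] at hmain
    have hV := (siv_V (r₀ := r₀) hm hm0 hh z).trans (mul_le_mul_of_nonneg_right (P_sq_le hz2)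
      (by positivity))
    rw [← hρ] at hV
    have hlogz : 0 < Real.log z := Real.log_pos (by exact_mod_cast (show 1 < z by omega))
    have hz0 : (0 : ℝ) < z := by exact_mod_cast (show 0 < z by omega)
    have hcard : (((range L).filter fun t => (r₀ + m * t).Prime ∧
        (2 * h * (r₀ + m * t) + 1).Prime).card : ℝ) ≤
        z + ((surv (siv_Om m h r₀) z 0 L).card : ℝ) := by
      have h1 := (Finset.card_le_card (siv_sub (T := L) (r₀ := r₀) (z := z) hm0 hh)).trans
        (Finset.card_union_le _ _)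
      rw [Finset.card_range] at h1
      exact_mod_cast h1
    have hzL : (z : ℝ) ≤ L / z := by
      rw [le_div_iff₀ hz0]
      have h1 : z * z ≤ L := by
        calc z * z = z ^ 2 := by ring
          _ ≤ z ^ c := Nat.pow_le_pow_right (by omega) hc2
          _ ≤ L := hRL
      exact_mod_cast h1
    have hinv : 1 / (z : ℝ) ≤ 4 * (1 / Real.log z ^ 2) := by
      rw [mul_one_div, div_le_div_iff₀ hz0 (by positivity)]
      have := log_sq_le (x := z) (by exact_mod_cast (show 1 ≤ z by omega))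
      linarith
    have hcount : (((range L).filter fun t => (r₀ + m * t).Prime ∧
        (2 * h * (r₀ + m * t) + 1).Prime).card : ℝ) ≤
        10 * ρ * L * (1 / Real.log z ^ 2) := by
      have h1 : (L : ℝ) * (2 * ∏ p ∈ pr 2 z, (1 - g (siv_Om m h r₀) p)) ≤
          L * (2 * (1 / Real.log z ^ 2 * ρ)) :=
        mul_le_mul_of_nonneg_left (mul_le_mul_of_nonneg_left hV (by norm_num)) hL0
      have h2 : (L : ℝ) / z ≤ 4 * L * (1 / Real.log z ^ 2) := by
        calc (L : ℝ) / z = L * (1 / z) := by ring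
          _ ≤ L * (4 * (1 / Real.log z ^ 2)) := mul_le_mul_of_nonneg_left hinv hL0
          _ = _ := by ring
      have h3 : 4 * (L : ℝ) * (1 / Real.log z ^ 2) ≤ 4 * ρ * L * (1 / Real.log z ^ 2) := by
        apply mul_le_mul_of_nonneg_right _ (by positivity)
        nlinarith
      have h4 : (L : ℝ) * (2 * (1 / Real.log z ^ 2 * ρ)) =
        2 * ρ * L * (1 / Real.log z ^ 2) := by ring
      have h5 : 10 * ρ * L * (1 / Real.log z ^ 2) = 2 * ρ * L * (1 / Real.log z ^ 2) +
        4 * ρ * L * (1 / Real.log z ^ 2) + 4 * ρ * L * (1 / Real.log z ^ 2) := by ring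
      linarith
    refine hcount.trans ?_
    have hlogLz : Real.log L ≤ 2 * c * Real.log z := by
      have h1 : (L : ℝ) ≤ (z : ℝ) ^ (2 * c) := by
        rw [pow_mul]
        exact_mod_cast hRL'.le
      calc Real.log L ≤ Real.log ((z : ℝ) ^ (2 * c)) := Real.log_le_log (by linarith) h1
        _ = 2 * c * Real.log z := by
          rw [Real.log_pow]
          push_cast
          ring
    have hfrac : 1 / Real.log z ^ 2 ≤ 4 * c ^ 2 / Real.log L ^ 2 := by
      rw [div_le_div_iff₀ (by positivity) (by positivity)]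
      have h1 : Real.log L ^ 2 ≤ (2 * c * Real.log z) ^ 2 := pow_le_pow_left₀ hlogL.le hlogLz 2
      nlinarith
    calc 10 * ρ * L * (1 / Real.log z ^ 2) ≤ 10 * ρ * L * (4 * c ^ 2 / Real.log L ^ 2) :=
          mul_le_mul_of_nonneg_left hfrac (by positivity)
      _ = (40 * c ^ 2) * ρ * L / Real.log L ^ 2 := by ring
      _ ≤ _ := by
        apply div_le_div_of_nonneg_right _ (by positivity)
        apply mul_le_mul_of_nonneg_right _ hL0
        apply mul_le_mul_of_nonneg_right _ (by linarith)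
        have : 0 ≤ Real.log L₀ ^ 2 := by positivity
        linarith

end Pool.Agent.CFB
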