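import Mathlib
import Pool.Agent.CFB.FinY

set_option autoImplicit false

/-!
# CFB / SolY

All exponents at once, for one factor `c`, for the numbers `Y + b`, `b < X`.
-/

namespace Pool.Agent.CFB

open Finset Filter

open Classical in
theorem SolY_shift {q : ℕ} {K : ℕ → Prop} (hK : ∀ b, K (b % q) ↔ K b) (Y : ℕ) :
    ((range q).filter fun b => K (Y + b)).card = ((range q).filter fun b => K b).card := by
  have hper : Function.Periodic K q := by
    intro b
    rw [eq_iff_iff, ← hK (b + q), Nat.add_mod_right, hK]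
  have h1 := Nat.filter_Ico_card_eq_of_periodic Y q K hper
  rw [Nat.count_eq_card_filter_range] at h1
  rw [← h1]
  refine card_bij (fun b _ => Y + b) ?_ ?_ ?_
  · intro b hb
    rw [mem_filter, mem_range] at hb
    rw [mem_filter, mem_Ico]
    exact ⟨by omega, hb.2⟩
  · intro b _ b' _ h
    omega
  · intro x hx
    rw [mem_filter, mem_Ico] at hx
    refine ⟨x - Y, ?_, by omega⟩
    rw [mem_filter, mem_range]
    refine ⟨by omega, ?_⟩
    have h2 : Y + (x - Y) = x := by omega
    rw [h2]
    exact hx.2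

theorem thm_solY (h1 : St_cnt) (h2 : St_per) (h3 : St_obs) (h4 : St_free) : St_solY := by
  classical
  intro a c P k g y M D ha hD hg hM hk hP X Y
  have hone : ∀ n : ℕ, (((range X).filter fun b => ∀ p ∈ P, ¬ Obs a c p n (Y + b)).card : ℝ) ≤
      X * (1 / (g * (D / (6 * y)))) ^ k + 2 * ((y : ℝ) ^ 4 / (D / (6 * y)) ^ 2) ^ k := by
    intro n
    rcases P.eq_empty_or_nonempty with hPe | hPn
    · -- no primes: `k g ≤ 0`, so `k = 0`
      have hk0 : k = 0 := by
        rw [hPe, card_empty] at hk
        rcases Nat.eq_zero_or_pos k with h | h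
        · exact h
        · have := Nat.mul_pos h hg
          omega
      rw [hk0, pow_zero, pow_zero, mul_one, mul_one]
      have h5 := card_filter_le (range X) (fun b => ∀ p ∈ P, ¬ Obs a c p n (Y + b))
      rw [card_range] at h5
      have h6 : (((range X).filter fun b => ∀ p ∈ P, ¬ Obs a c p n (Y + b)).card : ℝ) ≤ X := by
        exact_mod_cast h5
      linarith
    · obtain ⟨p₀, hp₀⟩ := hPn
      have hy : 0 < y := lt_of_lt_of_le (hP p₀ hp₀).1.pos (hP p₀ hp₀).2.2.2.2.1
      have hy' : (0 : ℝ) < y := by exact_mod_cast hy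
      refine h4 P k g y (D / (6 * y)) (fun p b => Obs a c p n (Y + b)) (by positivity) hg hk ?_ X
      intro p hp
      obtain ⟨hp1, hp2, hp3, hp4, hp5, hp6, hp7⟩ := hP p hp
      have hper : ∀ b, Obs a c p n (b % (p * p)) ↔ Obs a c p n b :=
        fun b => (h2 a c p n b hp1 hp2 hp3).1
      refine ⟨hp1, hp5, fun b => ?_, ?_⟩
      · show Obs a c p n (Y + b % (p * p)) ↔ Obs a c p n (Y + b)
        rw [← hper (Y + b % (p * p)), Nat.add_mod_mod, hper]
      have h5 := h1 a c p n hp1 hp2 hp3 hp4
      have h6 : (p : ℝ) * (orderOf (a : ZMod p) : ℝ) ≤ 6 * ((OB a c p n).card : ℝ) := by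
        exact_mod_cast h5
      have h7 : (OB a c p n).card = ((range (p * p)).filter fun b => Obs a c p n b).card := rfl
      have h7' := SolY_shift (K := fun b => Obs a c p n b) hper Y
      rw [← h7] at h7'
      have hp0 : (0 : ℝ) < p := by exact_mod_cast hp1.pos
      have hpy : (p : ℝ) ≤ y := by exact_mod_cast hp5
      have h8 : D / (6 * y) * ((p : ℝ) * p) ≤ D / (6 * p) * ((p : ℝ) * p) := by
        apply mul_le_mul_of_nonneg_right _ (by positivity)
        exact div_le_div_of_nonneg_left hD.le (by positivity) (by linarith)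
      have h9 : D / (6 * p) * ((p : ℝ) * p) = p * D / 6 := by
        field_simp
      have h10 : (p : ℝ) * D ≤ p * (orderOf (a : ZMod p) : ℝ) :=
        mul_le_mul_of_nonneg_left hp7 hp0.le
      have h11 : (((range (p * p)).filter fun b => Obs a c p n (Y + b)).card : ℝ) =
          ((OB a c p n).card : ℝ) := by exact_mod_cast h7'
      rw [h11]
      linarith
  have hsub : ((range X).filter fun b => Sol a c (Y + b)) ⊆
      (range M).biUnion fun n => (range X).filter fun b => ∀ p ∈ P, ¬ Obs a c p n (Y + b) := by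
    intro b hb
    rw [mem_filter] at hb
    obtain ⟨hb1, hb2, n, hn, z, hz⟩ := hb
    rw [mem_biUnion]
    refine ⟨n % M, mem_range.2 (Nat.mod_lt _ hM), ?_⟩
    rw [mem_filter]
    refine ⟨hb1, fun p hp hobs => ?_⟩
    obtain ⟨hp1, hp2, hp3, hp4, hp5, hp6, hp7⟩ := hP p hp
    have h5 : n % (p - 1) = (n % M) % (p - 1) := (Nat.mod_mod_of_dvd n hp6).symm
    have h6 := ((h2 a c p n (Y + b) hp1 hp2 hp3).2 (n % M) h5).2 hobs
    exact h3 a c p n (Y + b) hp1 hp2 ha hp3 hp4 (by omega) z hz h6
  have h5 := (card_le_card hsub).trans card_biUnion_le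
  have h6 : (((range X).filter fun b => Sol a c (Y + b)).card : ℝ) ≤
      ∑ n ∈ range M, (((range X).filter fun b => ∀ p ∈ P, ¬ Obs a c p n (Y + b)).card : ℝ) := by
    exact_mod_cast h5
  refine h6.trans ((sum_le_sum fun n _ => hone n).trans ?_)
  rw [sum_const, card_range, nsmul_eq_mul]

end Pool.Agent.CFB
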