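import Pool.Agent.CFB.St

/-!
# CFB: the supply of primes

`thm_sup` deduces `St_sup` from `St_bad`, `St_LL` and `St_TT`.  Model: `two_factors`, `card_Pp` and the end of
`supply` in `Pool/Agent/Cohn2/Supply.lean`.
-/

set_option autoImplicit false

namespace Pool.Agent.CFB

open Finset Filter

/-- A number `p ≤ N` is congruent to `1` modulo at most two of the primes in `LL δ N`. -/
private theorem sup_two_factors {δ : ℝ} (hδ : δ ≤ 1 / 100) {N p : ℕ} (hN : 2 ≤ N) (hp : p ≤ N)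
    (h2 : 2 ≤ p) : ((LL δ N).filter fun l => p % l = 1).card ≤ 2 := by
  by_contra hcon
  rw [not_le] at hcon
  have hN1 : (1 : ℝ) < N := by exact_mod_cast (by omega : 1 < N)
  obtain ⟨S, hS⟩ : ∃ S, S = (LL δ N).filter fun l => p % l = 1 := ⟨_, rfl⟩
  rw [← hS] at hcon
  have hmem : ∀ l ∈ S, l.Prime ∧ (N : ℝ) ^ (2 / 5 : ℝ) < l ∧ l ∣ p - 1 := by
    intro l hl
    rw [hS, mem_filter] at hl
    unfold LL at hl
    rw [mem_filter] at hl
    refine ⟨hl.1.2.1, lt_of_le_of_lt ?_ hl.1.2.2.1, ?_⟩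
    · exact Real.rpow_le_rpow_of_exponent_le hN1.le (by linarith)
    · rw [← Nat.modEq_iff_dvd' (by omega)]
      have h1 : 1 % l = 1 := Nat.mod_eq_of_lt hl.1.2.1.one_lt
      exact (show 1 % l = p % l by rw [h1, hl.2])
  have hdvd : ∏ l ∈ S, l ∣ p - 1 :=
    Finset.prod_primes_dvd _ (fun l hl => (hmem l hl).1.prime) fun l hl => (hmem l hl).2.2
  have hle : ∏ l ∈ S, l ≤ p - 1 := Nat.le_of_dvd (by omega) hdvd
  have h1 : ((N : ℝ) ^ (2 / 5 : ℝ)) ^ S.card ≤ ∏ l ∈ S, (l : ℝ) := by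
    rw [← prod_const]
    exact prod_le_prod (fun _ _ => by positivity) fun l hl => (hmem l hl).2.1.le
  have h2' : (∏ l ∈ S, (l : ℝ)) ≤ N := by
    have : ((∏ l ∈ S, l : ℕ) : ℝ) ≤ N := by exact_mod_cast (by omega : ∏ l ∈ S, l ≤ N)
    rwa [Nat.cast_prod] at this
  have h3 : (N : ℝ) ^ (6 / 5 : ℝ) ≤ ((N : ℝ) ^ (2 / 5 : ℝ)) ^ S.card := by
    rw [← Real.rpow_natCast, ← Real.rpow_mul (by linarith)]
    refine Real.rpow_le_rpow_of_exponent_le hN1.le ?_
    have : (3 : ℝ) ≤ S.card := by exact_mod_cast hcon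
    linarith
  have h4 : (N : ℝ) < (N : ℝ) ^ (6 / 5 : ℝ) := by
    calc (N : ℝ) = (N : ℝ) ^ (1 : ℝ) := (Real.rpow_one _).symm
      _ < (N : ℝ) ^ (6 / 5 : ℝ) := Real.rpow_lt_rpow_of_exponent_lt hN1 (by norm_num)
  linarith

open Classical in
/-- Every element of `QQ` is counted at most twice. -/
private theorem sup_card {δ : ℝ} (hδ : δ ≤ 1 / 100) {a N : ℕ} (hN : 2 ≤ N) :
    ∑ l ∈ LL δ N, (TT a N l \ BB a δ N l).card ≤ 2 * (QQ a δ N).card := by
  have h1 : ∀ l ∈ LL δ N, (TT a N l \ BB a δ N l).card ≤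
      ∑ p ∈ QQ a δ N, if p % l = 1 then 1 else 0 := by
    intro l hl
    have e : TT a N l \ BB a δ N l ⊆ (QQ a δ N).filter fun p => p % l = 1 := by
      intro p hp
      unfold BB at hp
      simp only [Finset.mem_sdiff, mem_filter, not_and, not_exists] at hp
      obtain ⟨hT, hB⟩ := hp
      have hT' := hT
      unfold TT at hT'
      rw [mem_filter] at hT'
      unfold QQ
      simp only [mem_filter]
      refine ⟨⟨hT'.1, hT'.2.1, hT'.2.2.1, fun q hq hqd => ?_⟩, hT'.2.2.2⟩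
      by_contra hcon
      exact hB hT q hq (not_le.1 hcon) hqd
    refine (card_le_card e).trans (le_of_eq ?_)
    rw [sum_boole]
    simp
  refine (sum_le_sum h1).trans ?_
  rw [sum_comm]
  calc ∑ p ∈ QQ a δ N, ∑ l ∈ LL δ N, (if p % l = 1 then 1 else 0) ≤ ∑ p ∈ QQ a δ N, 2 := by
        refine sum_le_sum fun p hp => ?_
        rw [sum_boole]
        unfold QQ at hp
        simp only [mem_filter, mem_range] at hp
        simpa using sup_two_factors hδ hN (by omega : p ≤ N) hp.2.1.two_le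
    _ = 2 * (QQ a δ N).card := by rw [sum_const, smul_eq_mul, mul_comm]

/-- The supply of primes. -/
theorem thm_sup (h1 : St_bad) (h2 : St_LL) (h3 : St_TT) : St_sup := by
  classical
  obtain ⟨C, hC, hbad⟩ := h1
  obtain ⟨δ, hδd⟩ : ∃ δ : ℝ, δ = min (1 / 100) (1 / (8 * C)) := ⟨_, rfl⟩
  have hδ0 : 0 < δ := by rw [hδd]; positivity
  have hδ1 : δ ≤ 1 / 100 := by rw [hδd]; exact min_le_left _ _
  have hδ2 : C * δ ≤ 1 / 8 := by
    have : δ ≤ 1 / (8 * C) := by rw [hδd]; exact min_le_right _ _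
    calc C * δ ≤ C * (1 / (8 * C)) := by gcongr
      _ = 1 / 8 := by field_simp
  refine ⟨δ, hδ0, hδ1, fun a ha => ?_⟩
  have hφ : (0 : ℝ) < (4 * a).totient := by exact_mod_cast Nat.totient_pos.2 (by omega)
  have hT : Tendsto (fun N : ℕ => (N : ℝ)) atTop atTop := tendsto_natCast_atTop_atTop
  have e2 : ∀ᶠ N : ℕ in atTop, 32 * ((4 * a).totient : ℝ) ≤ Real.log N :=
    (Real.tendsto_log_atTop.comp hT).eventually_ge_atTop _
  filter_upwards [hbad δ hδ0 hδ1 a ha, h2 δ hδ0 hδ1, h3 δ hδ0 hδ1 a ha, e2, eventually_ge_atTop 2]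
    with N hB hL hTT hlog hN2
  have hN0 : (0 : ℝ) < N := by exact_mod_cast (by omega : 0 < N)
  have hN1 : (1 : ℝ) < N := by exact_mod_cast (by omega : 1 < N)
  obtain ⟨L, hLd⟩ : ∃ L : ℝ, L = Real.log N := ⟨_, rfl⟩
  obtain ⟨φ, hφd⟩ : ∃ φ : ℝ, φ = ((4 * a).totient : ℝ) := ⟨_, rfl⟩
  obtain ⟨H, hHd⟩ : ∃ H : ℝ, H = (N : ℝ) ^ (1 / 2 - δ) := ⟨_, rfl⟩
  rw [← hφd] at hφ
  have hL0 : 0 < L := by rw [hLd]; exact Real.log_pos hN1
  have hH0 : 0 < H := by rw [hHd]; positivity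
  rw [← hLd, ← hφd] at hB hTT hlog ⊢
  rw [← hLd, ← hHd] at hL
  obtain ⟨S, hSd⟩ : ∃ S : ℝ, S = ∑ l ∈ LL δ N, 1 / (l : ℝ) := ⟨_, rfl⟩
  have hmem : ∀ l ∈ LL δ N, 0 < (l : ℝ) ∧ (l : ℝ) ≤ H := by
    intro l hl
    unfold LL at hl
    rw [mem_filter] at hl
    exact ⟨by exact_mod_cast hl.2.1.pos, by rw [hHd]; exact hl.2.2.2⟩
  -- the sum of the reciprocals
  have hS1 : 1 / (2 * L) ≤ S := by
    calc 1 / (2 * L) = H / (2 * L) * (1 / H) := by field_simp
      _ ≤ (LL δ N).card * (1 / H) := by gcongr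
      _ = ∑ l ∈ LL δ N, 1 / H := by rw [sum_const, nsmul_eq_mul]
      _ ≤ ∑ l ∈ LL δ N, 1 / (l : ℝ) := by
          refine sum_le_sum fun l hl => ?_
          exact one_div_le_one_div_of_le (hmem l hl).1 (hmem l hl).2
      _ = S := hSd.symm
  have hTs : ∑ l ∈ LL δ N, (N : ℝ) / (4 * φ * l * L) = S * (N / (4 * φ * L)) := by
    rw [hSd, sum_mul]
    refine sum_congr rfl fun l hl => ?_
    have := (hmem l hl).1
    field_simp
  have hBs : ∑ l ∈ LL δ N, ((BB a δ N l).card : ℝ) ≤ S * (N / (8 * φ * L)) := by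
    rw [hSd, sum_mul]
    refine sum_le_sum fun l hl => ?_
    have hl0 := (hmem l hl).1
    calc ((BB a δ N l).card : ℝ) ≤ C * δ * N / (φ * l * L) := hB l hl
      _ ≤ 1 / 8 * N / (φ * l * L) := by gcongr
      _ = 1 / (l : ℝ) * (N / (8 * φ * L)) := by field_simp
  have hc : ∑ l ∈ LL δ N, ((TT a N l).card : ℝ) - ∑ l ∈ LL δ N, ((BB a δ N l).card : ℝ) ≤
      2 * (QQ a δ N).card := by
    have h4 : (∑ l ∈ LL δ N, ((TT a N l \ BB a δ N l).card : ℝ)) ≤ 2 * (QQ a δ N).card := by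
      exact_mod_cast sup_card hδ1 hN2
    refine le_trans ?_ h4
    rw [← sum_sub_distrib]
    refine sum_le_sum fun l hl => ?_
    have h5 : (TT a N l).card ≤ (TT a N l \ BB a δ N l).card + (BB a δ N l).card :=
      (card_le_card (by intro x hx; simp only [mem_union, Finset.mem_sdiff]; tauto)).trans
        (card_union_le _ _)
    have h6 : ((TT a N l).card : ℝ) ≤ (TT a N l \ BB a δ N l).card + (BB a δ N l).card := by
      exact_mod_cast h5
    linarith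
  rw [hTs] at hTT
  have h7 : S * (N / (4 * φ * L)) - S * (N / (8 * φ * L)) = S * (N / (8 * φ * L)) := by
    field_simp
    ring
  have h8 : (N : ℝ) / (16 * φ * L ^ 2) ≤ S * (N / (8 * φ * L)) := by
    calc (N : ℝ) / (16 * φ * L ^ 2) = 1 / (2 * L) * (N / (8 * φ * L)) := by
          field_simp
          norm_num
      _ ≤ S * (N / (8 * φ * L)) := by gcongr
  have h9 : (N : ℝ) / L ^ 3 ≤ N / (32 * φ * L ^ 2) := by
    refine div_le_div_of_nonneg_left hN0.le (by positivity) ?_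
    nlinarith [pow_pos hL0 2]
  have h10 : (N : ℝ) / (16 * φ * L ^ 2) = 2 * (N / (32 * φ * L ^ 2)) := by
    field_simp
    norm_num
  have h11 : (N : ℝ) / (32 * φ * L ^ 2) = 2 * (N / (64 * φ * L ^ 2)) := by
    field_simp
    norm_num
  linarith

end Pool.Agent.CFB
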