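import Mathlib
import Pool.Agent.CFB.St
import Pool.Agent.Cohn2.Supply

set_option autoImplicit false

/-!
# CFB / TT

Primes `p = -1 mod 4a`, `p = 1 mod l`, on average over `l`.
-/

namespace Pool.Agent.CFB

open Finset Filter Pool.Agent.MT
open Pool.Agent.Cohn2 (wt wt_is wt_mass bP_le)

theorem TT_sum {a N l c : ℕ} (hN : 2 ≤ N) (hca : c % (4 * a) = 4 * a - 1) (hcl : c % l = 1) :
    ∑ m ∈ (range (N + 1)).filter (fun m => m % (4 * a * l) = c % (4 * a * l)),
      PTB.bP N m * wt ((m : ℝ) / N) ≤ (TT a N l).card := by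
  calc ∑ m ∈ (range (N + 1)).filter (fun m => m % (4 * a * l) = c % (4 * a * l)),
      PTB.bP N m * wt ((m : ℝ) / N)
      ≤ ∑ m ∈ (range (N + 1)).filter (fun m => m % (4 * a * l) = c % (4 * a * l)),
        (if m.Prime then (1 : ℝ) else 0) := by
        refine sum_le_sum fun m hm => ?_
        rw [mem_filter, mem_range] at hm
        exact bP_le hN (by omega)
    _ = (((range (N + 1)).filter (fun m => m % (4 * a * l) = c % (4 * a * l))).filter
          Nat.Prime).card := by
        rw [sum_boole]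
    _ ≤ (TT a N l).card := by
        refine Nat.cast_le.2 (card_le_card ?_)
        intro m hm
        rw [mem_filter, mem_filter] at hm
        unfold TT
        rw [mem_filter]
        refine ⟨hm.1.1, hm.2, ?_, ?_⟩
        · rw [← Nat.mod_mod_of_dvd m (dvd_mul_right (4 * a) l), hm.1.2, Nat.mod_mod_of_dvd _
            (dvd_mul_right (4 * a) l), hca]
        · rw [← Nat.mod_mod_of_dvd m (dvd_mul_left l (4 * a)), hm.1.2, Nat.mod_mod_of_dvd _
            (dvd_mul_left l (4 * a)), hcl]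

theorem thm_TT : St_TT := by
  intro δ hδ hδ1 a ha
  have hT : Tendsto (fun N : ℕ => (N : ℝ)) atTop atTop := tendsto_natCast_atTop_atTop
  have e1 : ∀ᶠ N : ℕ in atTop, 4 * (a : ℝ) ≤ (N : ℝ) ^ (δ / 2) :=
    ((tendsto_rpow_atTop (show (0 : ℝ) < δ / 2 by linarith)).comp hT).eventually_ge_atTop _
  have e2 : ∀ᶠ N : ℕ in atTop, 1 ≤ Real.log N :=
    (Real.tendsto_log_atTop.comp hT).eventually_ge_atTop 1
  have e4 : ∀ᶠ N : ℕ in atTop, 4 * (a : ℝ) < (N : ℝ) ^ (1 / 2 - 2 * δ) :=
    ((tendsto_rpow_atTop (show (0 : ℝ) < 1 / 2 - 2 * δ by linarith)).comp hT).eventually_gt_atTop _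
  filter_upwards [PTB.out_prime wt wt_is (1 / 2 - δ / 2) (by linarith) (by linarith) 3 1,
    PTB.out_massP wt wt_is (1 / 4) (by norm_num), e1, e2, e4, eventually_ge_atTop 2] with N
    hBV hM h1 h2 h4 hN2
  have hN : (2 : ℝ) ≤ N := by exact_mod_cast hN2
  have hN0 : (0 : ℝ) < N := by linarith
  obtain ⟨L, hL⟩ : ∃ L : ℝ, L = Real.log N := ⟨_, rfl⟩
  rw [← hL] at h2 hM ⊢
  have hL0 : 0 < L := by linarith
  obtain ⟨E, hE0, hE1, hE2⟩ := hBV
  obtain ⟨B, hB⟩ : ∃ B : ℝ, B = PT.B0 wt N (PTB.bP N) := ⟨_, rfl⟩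
  rw [← hB] at hM hE1
  rw [← hL] at hE2
  have hB1 : N / (4 * L) ≤ B := by
    refine le_trans ?_ hM
    have hm := wt_mass
    have : N / (4 * L) = 1 / 2 * N / L - 1 / 4 * N / L := by
      field_simp
      norm_num
    rw [this]
    have h3 : 1 / 2 * (N : ℝ) / L ≤ PT.mη wt * N / L := by gcongr
    linarith
  have hB0 : 0 ≤ B := le_trans (by positivity) hB1
  have ha0 : (0 : ℝ) < a := by exact_mod_cast (by omega : 0 < a)
  -- the moduli
  have hq : ∀ l ∈ LL δ N, 1 ≤ 4 * a * l ∧ ((4 * a * l : ℕ) : ℝ) ≤ (N : ℝ) ^ (1 / 2 - δ / 2) := by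
    intro l hl
    unfold LL at hl
    rw [mem_filter] at hl
    refine ⟨?_, ?_⟩
    · have h5 : 0 < 4 * a * l := Nat.mul_pos (by omega) hl.2.1.pos
      omega
    · push_cast
      calc 4 * (a : ℝ) * (l : ℝ) ≤ (N : ℝ) ^ (δ / 2) * (N : ℝ) ^ (1 / 2 - δ) :=
            mul_le_mul h1 hl.2.2.2 (by positivity) (by positivity)
        _ = (N : ℝ) ^ (1 / 2 - δ / 2) := by
            rw [← Real.rpow_add hN0]
            congr 1
            ring
  have hlow : ∀ l ∈ LL δ N, (N : ℝ) / (4 * (4 * a).totient * l * L) - E (4 * a * l) ≤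
      (TT a N l).card := by
    intro l hl
    obtain ⟨hq1, hq2⟩ := hq l hl
    unfold LL at hl
    rw [mem_filter] at hl
    have hl1 := hl.2.1
    have hl4 : 4 * (a : ℝ) < l := lt_trans h4 hl.2.2.1
    have hl4' : 4 * a < l := by exact_mod_cast hl4
    have hcop : Nat.Coprime (4 * a) l := by
      rw [Nat.coprime_comm, Nat.Prime.coprime_iff_not_dvd hl1]
      intro hd
      have := Nat.le_of_dvd (by omega) hd
      omega
    obtain ⟨c, hca, hcl⟩ := Nat.chineseRemainder hcop (4 * a - 1) 1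
    have hca' : c % (4 * a) = 4 * a - 1 := by
      have : c % (4 * a) = (4 * a - 1) % (4 * a) := hca
      rw [this, Nat.mod_eq_of_lt (by omega)]
    have hcl' : c % l = 1 := by
      have : c % l = 1 % l := hcl
      rw [this, Nat.mod_eq_of_lt hl1.one_lt]
    have hcc : c.Coprime (4 * a * l) := by
      refine Nat.Coprime.mul_right ?_ ?_
      · have h5 : 4 * a ∣ c + 1 := by
          rw [← Nat.div_add_mod c (4 * a), hca']
          have h6 : 4 * a * (c / (4 * a)) + (4 * a - 1) + 1 = 4 * a * (c / (4 * a)) + 4 * a := by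
            omega
          rw [h6]
          exact dvd_add (dvd_mul_right _ _) dvd_rfl
        have h6 : Nat.gcd c (4 * a) ∣ c + 1 := (Nat.gcd_dvd_right c (4 * a)).trans h5
        exact Nat.dvd_one.1 ((Nat.dvd_add_right (Nat.gcd_dvd_left c (4 * a))).1 h6)
      · rw [Nat.coprime_comm, Nat.Prime.coprime_iff_not_dvd hl1]
        intro hd
        rw [Nat.dvd_iff_mod_eq_zero] at hd
        omega
    have h5 := hE1 (4 * a * l) c hq1 hq2 hcc
    have h6 := TT_sum hN2 hca' hcl'
    have h7 := (abs_le.1 h5).1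
    have ht : (0 : ℝ) < ((4 * a).totient : ℝ) := by
      exact_mod_cast Nat.totient_pos.2 (by omega)
    have hl0 : (0 : ℝ) < l := by exact_mod_cast hl1.pos
    have h8 : ((4 * a * l).totient : ℝ) ≤ (4 * a).totient * l := by
      rw [Nat.totient_mul hcop, Nat.totient_prime hl1]
      push_cast
      have h9 : ((l - 1 : ℕ) : ℝ) ≤ l := by exact_mod_cast Nat.sub_le l 1
      exact mul_le_mul_of_nonneg_left h9 ht.le
    have h9 : (0 : ℝ) < ((4 * a * l).totient : ℝ) := by
      exact_mod_cast Nat.totient_pos.2 (by omega)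
    have h10 : B / ((4 * a).totient * l) ≤ B / ((4 * a * l).totient : ℝ) :=
      div_le_div_of_nonneg_left hB0 h9 h8
    have h11 : (N : ℝ) / (4 * (4 * a).totient * l * L) ≤ B / ((4 * a).totient * l) := by
      rw [le_div_iff₀ (by positivity)]
      refine le_trans (le_of_eq ?_) hB1
      field_simp
    linarith
  have hsum := sum_le_sum hlow
  rw [sum_sub_distrib] at hsum
  have hEs : ∑ l ∈ LL δ N, E (4 * a * l) ≤ N / L ^ 3 := by
    refine le_trans ?_ hE2
    simp only [Nat.cast_one, one_pow, one_mul]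
    have hinj : Set.InjOn (fun l : ℕ => 4 * a * l) (LL δ N : Set ℕ) := by
      intro x _ y _ hxy
      exact Nat.eq_of_mul_eq_mul_left (by omega : 0 < 4 * a) hxy
    rw [← sum_image (f := fun q => E q) hinj]
    refine sum_le_sum_of_subset_of_nonneg ?_ fun q _ _ => hE0 q
    intro q hq'
    rw [mem_image] at hq'
    obtain ⟨l, hl, rfl⟩ := hq'
    obtain ⟨h5, h6⟩ := hq l hl
    rw [mem_filter, mem_Icc]
    refine ⟨⟨h5, ?_⟩, h6⟩
    have : ((4 * a * l : ℕ) : ℝ) ≤ N := by
      refine h6.trans ?_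
      calc (N : ℝ) ^ (1 / 2 - δ / 2) ≤ (N : ℝ) ^ (1 : ℝ) :=
            Real.rpow_le_rpow_of_exponent_le (by linarith) (by linarith)
        _ = N := Real.rpow_one _
    exact_mod_cast this
  linarith

end Pool.Agent.CFB
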