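import Mathlib
import Pool.Agent.CFB.SolY
import Pool.Agent.CFB.PS
import Pool.Agent.CFB.Cnt
import Pool.Agent.CFB.Obs
import Pool.Agent.CFB.Free
import Pool.Agent.CFB.Mul
import Pool.Agent.CFB.Siv
import Pool.Agent.CFB.Phi
import Pool.Agent.CFB.Bad
import Pool.Agent.CFB.LL
import Pool.Agent.CFB.TT
import Pool.Agent.CFB.Sup
import Pool.Agent.CFB.Ord

set_option autoImplicit false

/-!
# CFB / Main

The theorem with one base fixed, uniformly over all intervals.
-/

namespace Pool.Agent.CFB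

open Finset Filter

open Classical in
/-- Cohn's equation with a fixed base: few exceptions in every interval. -/
theorem main : ∃ δ : ℝ, 0 < δ ∧ ∀ a : ℕ, 2 ≤ a → ∀ᶠ X : ℕ in atTop, ∀ Y : ℕ,
    (((range (X + 1)).filter fun b => ∃ c : ℕ, 1 ≤ c ∧ (c : ℝ) ≤ (X : ℝ) ^ δ ∧
      Sol a c (Y + b)).card : ℝ) ≤ (X : ℝ) ^ (1 - δ) := by
  obtain ⟨δ, h0, h100, hs⟩ := thm_sup (thm_bad thm_siv thm_phi) thm_LL thm_TT
  refine ⟨δ / 1000, by positivity, fun a ha => ?_⟩
  have ht : 0 < (4 * a).totient := Nat.totient_pos.2 (by omega)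
  have ht' : (0 : ℝ) < (4 * a).totient := by exact_mod_cast ht
  refine thm_finY thm_mul (thm_solY thm_cnt thm_per thm_obs thm_free) a ha δ h0 h100
    (1 / (64 * (4 * a).totient) / 2) (by positivity) ?_
  refine thm_PS thm_ord a ha δ h0 h100 (1 / (64 * (4 * a).totient)) (by positivity) ?_
  filter_upwards [hs a (by omega)] with N hN
  refine le_trans (le_of_eq ?_) hN
  rw [one_div_mul_eq_div, div_div]

end Pool.Agent.CFB
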